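import Mathlib

/-!
# Matching of classes
-/

set_option autoImplicit false

namespace Pool.Agent.J4.H77.CG

open Finset

/-- If the points correspond such that classes of corresponding points are isomorphic, then
all classes can be matched. -/
theorem exists_matching {V W : Type} [Finite V] [Finite W] (q : V → V → Prop) (q' : W → W → Prop)
    (hq : Equivalence q) (hq' : Equivalence q') (F : Set V) (F' : Set W)
    (hF : ∀ x y, x ∈ F → q x y → y ∈ F) (hF' : ∀ x y, x ∈ F' → q' x y → y ∈ F')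
    (β : V ≃ W) (hβ : ∀ x, x ∈ F ↔ β x ∈ F') (Φ : V → W → (V → W) → Prop)
    (h1 : ∀ x x' f, Φ x x' f → Set.BijOn f {y | q x y} {y' | q' x' y'})
    (h2 : ∀ x y x' y' f, q x y → q' x' y' → Φ x x' f → Φ y y' f)
    (h3 : ∀ x x' f g, (∀ y, q x y → f y = g y) → Φ x x' f → Φ x x' g)
    (h4 : ∀ x ∈ F, ∃ f, Φ x (β x) f) :
    ∃ f : V → W, Set.BijOn f F F' ∧ ∀ x ∈ F, Φ x (f x) f := by
  classical
  have := Fintype.ofFinite V
  have := Fintype.ofFinite W
  let cl : V → Finset V := fun x => univ.filter (q x)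
  let cl' : W → Finset W := fun x => univ.filter (q' x)
  have mcl : ∀ x y, y ∈ cl x ↔ q x y := fun x y => by simp [cl]
  have mcl' : ∀ x y, y ∈ cl' x ↔ q' x y := fun x y => by simp [cl']
  have ecl : ∀ x y, q x y → cl y = cl x := by
    intro x y h
    ext z
    rw [mcl, mcl]
    exact ⟨fun h' => hq.trans h h', fun h' => hq.trans (hq.symm h) h'⟩
  have ecl' : ∀ x y, q' x y → cl' y = cl' x := by
    intro x y h
    ext z
    rw [mcl', mcl']
    exact ⟨fun h' => hq'.trans h h', fun h' => hq'.trans (hq'.symm h) h'⟩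
  have hcard : ∀ x ∈ F, (cl' (β x)).card = (cl x).card := by
    intro x hx
    obtain ⟨f, hf⟩ := h4 x hx
    have h5 := h1 _ _ _ hf
    have e1 : ((cl x : Finset V) : Set V) = {y | q x y} := by
      ext y
      simp [cl]
    have e2 : ((cl' (β x) : Finset W) : Set W) = {y | q' (β x) y} := by
      ext y
      simp [cl']
    rw [← Set.ncard_coe_finset, ← Set.ncard_coe_finset, e1, e2, ← h5.image_eq]
    exact Set.ncard_image_of_injOn h5.injOn
  let ι := {A : Finset V // ∃ x ∈ F, cl x = A}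
  let t : ι → Finset (Finset W) := fun A => A.1.image fun x => cl' (β x)
  have hall : ∀ s : Finset ι, s.card ≤ (s.biUnion t).card := by
    intro s
    let g' : W → ℚ := fun y => ((cl' y).card : ℚ)⁻¹
    have e1 : ∀ A : ι, ∑ x ∈ A.1, g' (β x) = 1 := by
      rintro ⟨_, x0, hx0, rfl⟩
      have h5 : ∀ x ∈ cl x0, g' (β x) = ((cl x0).card : ℚ)⁻¹ := by
        intro x hx
        have h6 : q x0 x := (mcl _ _).1 hx
        show ((cl' (β x)).card : ℚ)⁻¹ = _
        rw [hcard x (hF _ _ hx0 h6), ecl _ _ h6]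
      rw [Finset.sum_congr rfl h5, Finset.sum_const, nsmul_eq_mul]
      refine mul_inv_cancel₀ ?_
      have h7 : x0 ∈ cl x0 := (mcl _ _).2 (hq.refl x0)
      have h8 := Finset.card_pos.2 ⟨x0, h7⟩
      positivity
    have e2 : ∀ B ∈ s.biUnion t, ∑ y ∈ B, g' y = 1 := by
      intro B hB
      obtain ⟨A, -, hB2⟩ := Finset.mem_biUnion.1 hB
      obtain ⟨x, -, rfl⟩ := Finset.mem_image.1 hB2
      have h5 : ∀ y ∈ cl' (β x), g' y = ((cl' (β x)).card : ℚ)⁻¹ := by
        intro y hy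
        show ((cl' y).card : ℚ)⁻¹ = _
        rw [ecl' _ _ ((mcl' _ _).1 hy)]
      rw [Finset.sum_congr rfl h5, Finset.sum_const, nsmul_eq_mul]
      refine mul_inv_cancel₀ ?_
      have h7 : β x ∈ cl' (β x) := (mcl' _ _).2 (hq'.refl _)
      have h8 := Finset.card_pos.2 ⟨β x, h7⟩
      positivity
    have e3 : ∑ A ∈ s, ∑ x ∈ A.1, g' (β x) = ∑ x ∈ s.biUnion (fun A => A.1), g' (β x) := by
      rw [Finset.sum_biUnion]
      intro A hA B hB hAB
      show Disjoint A.1 B.1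
      rw [Finset.disjoint_left]
      intro x hxA hxB
      apply hAB
      obtain ⟨_, x1, hx1, rfl⟩ := A
      obtain ⟨_, x2, hx2, rfl⟩ := B
      apply Subtype.ext
      show cl x1 = cl x2
      rw [← ecl _ _ ((mcl _ _).1 hxA), ← ecl _ _ ((mcl _ _).1 hxB)]
    have e4 : ∑ x ∈ s.biUnion (fun A => A.1), g' (β x) =
        ∑ y ∈ (s.biUnion (fun A => A.1)).map β.toEmbedding, g' y := by
      rw [Finset.sum_map]
      rfl
    have e5 : (s.biUnion (fun A => A.1)).map β.toEmbedding ⊆ (s.biUnion t).biUnion id := by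
      intro y hy
      obtain ⟨x, hx, rfl⟩ := Finset.mem_map.1 hy
      obtain ⟨A, hA, hxA⟩ := Finset.mem_biUnion.1 hx
      refine Finset.mem_biUnion.2 ⟨cl' (β x), Finset.mem_biUnion.2 ⟨A, hA,
        Finset.mem_image.2 ⟨x, hxA, rfl⟩⟩, ?_⟩
      exact (mcl' _ _).2 (hq'.refl _)
    have e6 : ∑ y ∈ (s.biUnion t).biUnion id, g' y = ∑ B ∈ s.biUnion t, ∑ y ∈ B, g' y := by
      rw [Finset.sum_biUnion]
      · rfl
      intro A hA B hB hAB
      show Disjoint A B
      rw [Finset.disjoint_left]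
      intro y hyA hyB
      apply hAB
      obtain ⟨A', -, hA2⟩ := Finset.mem_biUnion.1 hA
      obtain ⟨x1, -, rfl⟩ := Finset.mem_image.1 hA2
      obtain ⟨B', -, hB2⟩ := Finset.mem_biUnion.1 hB
      obtain ⟨x2, -, rfl⟩ := Finset.mem_image.1 hB2
      rw [← ecl' _ _ ((mcl' _ _).1 hyA), ← ecl' _ _ ((mcl' _ _).1 hyB)]
    have e7 : (s.card : ℚ) ≤ ((s.biUnion t).card : ℚ) := by
      calc (s.card : ℚ) = ∑ A ∈ s, ∑ x ∈ A.1, g' (β x) := by
            rw [Finset.sum_congr rfl fun A _ => e1 A]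
            simp
        _ = ∑ y ∈ (s.biUnion (fun A => A.1)).map β.toEmbedding, g' y := by rw [e3, e4]
        _ ≤ ∑ y ∈ (s.biUnion t).biUnion id, g' y :=
            Finset.sum_le_sum_of_subset_of_nonneg e5 fun y _ _ => by positivity
        _ = ∑ B ∈ s.biUnion t, 1 := by rw [e6, Finset.sum_congr rfl e2]
        _ = ((s.biUnion t).card : ℚ) := by simp
    exact_mod_cast e7
  obtain ⟨m, hminj, hm⟩ := (Finset.all_card_le_biUnion_card_iff_exists_injective t).1 hall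
  have h5 : ∀ A : ι, ∃ x g, x ∈ A.1 ∧ cl' (β x) = m A ∧ Φ x (β x) g := by
    intro A
    obtain ⟨x, hx, hxm⟩ := Finset.mem_image.1 (hm A)
    obtain ⟨A, x0, hx0, rfl⟩ := A
    obtain ⟨g, hg⟩ := h4 x (hF _ _ hx0 ((mcl _ _).1 hx))
    exact ⟨x, g, hx, hxm, hg⟩
  choose X g hX1 hX2 hX3 using h5
  let f : V → W := fun x => if hx : x ∈ F then g ⟨cl x, x, hx, rfl⟩ x else β x
  have hf : ∀ x (hx : x ∈ F), ∀ y, q x y → f y = g ⟨cl x, x, hx, rfl⟩ y := by
    intro x hx y hxy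
    have hy : y ∈ F := hF _ _ hx hxy
    have e : (⟨cl y, y, hy, rfl⟩ : ι) = ⟨cl x, x, hx, rfl⟩ := Subtype.ext (ecl _ _ hxy)
    simp only [f, hy, dif_pos]
    rw [e]
  have key : ∀ x (hx : x ∈ F), q x (X ⟨cl x, x, hx, rfl⟩) ∧
      q' (β (X ⟨cl x, x, hx, rfl⟩)) (f x) := by
    intro x hx
    have h6 : q x (X ⟨cl x, x, hx, rfl⟩) := (mcl _ _).1 (hX1 ⟨cl x, x, hx, rfl⟩)
    refine ⟨h6, ?_⟩
    have h7 := (h1 _ _ _ (hX3 ⟨cl x, x, hx, rfl⟩)).mapsTo (hq.symm h6)
    rw [hf x hx x (hq.refl x)]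
    exact h7
  have hmaps : Set.MapsTo f F F' := by
    intro x hx
    obtain ⟨h6, h7⟩ := key x hx
    exact hF' _ _ ((hβ _).1 (hF _ _ hx h6)) h7
  have hinj : Set.InjOn f F := by
    intro x hx y hy hxy
    obtain ⟨h6, h7⟩ := key x hx
    obtain ⟨h6', h7'⟩ := key y hy
    rw [hxy] at h7
    have h8 : m ⟨cl x, x, hx, rfl⟩ = m ⟨cl y, y, hy, rfl⟩ := by
      rw [← hX2, ← hX2, ← ecl' _ _ h7, ← ecl' _ _ h7']
    have h9 : cl x = cl y := congrArg Subtype.val (hminj h8)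
    have h10 : q x y := (mcl _ _).1 (h9 ▸ (mcl _ _).2 (hq.refl y))
    have h11 := (h1 _ _ _ (hX3 ⟨cl x, x, hx, rfl⟩)).injOn
    refine h11 (hq.symm h6) (hq.trans (hq.symm h6) h10) ?_
    rw [← hf x hx x (hq.refl x), ← hf x hx y h10]
    exact hxy
  refine ⟨f, ⟨hmaps, hinj, ?_⟩, ?_⟩
  · have e1 : F' = β '' F := by
      ext y
      constructor
      · intro hy
        refine ⟨β.symm y, ?_, β.apply_symm_apply y⟩
        rw [hβ, β.apply_symm_apply]
        exact hy
      · rintro ⟨x, hx, rfl⟩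
        exact (hβ x).1 hx
    have e2 : f '' F = F' := by
      refine Set.eq_of_subset_of_ncard_le hmaps.image_subset ?_ (Set.toFinite _)
      rw [Set.ncard_image_of_injOn hinj, e1, Set.ncard_image_of_injective _ β.injective]
    rw [← e2]
    exact Set.surjOn_image f F
  · intro x hx
    obtain ⟨h6, h7⟩ := key x hx
    refine h3 _ _ _ _ (fun y hy => (hf x hx y hy).symm) ?_
    exact h2 _ _ _ _ _ (hq.symm h6) h7 (hX3 ⟨cl x, x, hx, rfl⟩)

end Pool.Agent.J4.H77.CG
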