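import Pool.Agent.N624.NT.Game

/-!
# Lists of pairs of vertices which are equivalent for the Weisfeiler-Leman method
-/

set_option autoImplicit false
set_option linter.unusedSectionVars false

namespace Pool.Agent.J4.H77.CG

open Finset Pool.Agent.W185.SRG Pool.Agent.N624.NT

section
variable {V W : Type} [Fintype V] [Fintype W] {G : SimpleGraph V} {H : SimpleGraph W} {N : ℕ}

/-- the coinduction principle -/
theorem Sm.of_bisim (B : (Fin N → V) → (Fin N → W) → Prop)
    (h0 : ∀ u v, B u v → isoType G N u = isoType H N v)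
    (h1 : ∀ u v, B u v → ∃ β : V ≃ W, ∀ x i, B (Function.update u i x) (Function.update v i (β x)))
    {u : Fin N → V} {v : Fin N → W} (h : B u v) : Sm G H N u v := by
  classical
  intro t
  induction t generalizing u v with
  | zero => exact h0 u v h
  | succ t ih =>
    obtain ⟨β, hβ⟩ := h1 u v h
    refine Prod.ext (ih h) ?_
    show (univ : Finset V).val.map (fun x => fun i => wl G N t (Function.update u i x)) =
      (univ : Finset W).val.map (fun x => fun i => wl H N t (Function.update v i x))
    have h2 : (univ : Finset W).val = (univ : Finset V).val.map β := by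
      have := Finset.map_univ_equiv β
      rw [← this, Finset.map_val]
      rfl
    rw [h2, Multiset.map_map]
    refine Multiset.map_congr rfl fun x _ => ?_
    funext i
    exact ih (hβ x i)

theorem exists_free (f : Fin N → Fin N) (i : Fin N) : ∃ j, ∀ i', i' ≠ i → f i' ≠ j := by
  classical
  by_contra hcon
  push Not at hcon
  have h1 : (univ : Finset (Fin N)) ⊆ (univ.erase i).image f := by
    intro j _
    obtain ⟨i', h2, h3⟩ := hcon j
    exact Finset.mem_image.2 ⟨i', Finset.mem_erase.2 ⟨h2, Finset.mem_univ _⟩, h3⟩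
  have h2 := (Finset.card_le_card h1).trans Finset.card_image_le
  rw [Finset.card_erase_of_mem (Finset.mem_univ _), Finset.card_univ, Fintype.card_fin] at h2
  have := i.2
  omega

/-- reindexing -/
theorem Sm.reindex {u : Fin N → V} {v : Fin N → W} (h : Sm G H N u v) (f : Fin N → Fin N) :
    Sm G H N (fun i => u (f i)) (fun i => v (f i)) := by
  classical
  refine Sm.of_bisim (G := G) (H := H)
    (fun u' v' => ∃ (u : Fin N → V) (v : Fin N → W) (f : Fin N → Fin N), Sm G H N u v ∧
      u' = (fun i => u (f i)) ∧ v' = fun i => v (f i)) ?_ ?_ ⟨u, v, f, h, rfl, rfl⟩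
  · rintro _ _ ⟨u, v, f, h, rfl, rfl⟩
    have h3 : isoType G N u = isoType H N v := h 0
    refine Prod.ext ?_ ?_
    · funext i j
      exact congrFun (congrFun (congrArg Prod.fst h3) (f i)) (f j)
    · funext i j
      exact congrFun (congrFun (congrArg Prod.snd h3) (f i)) (f j)
  · rintro _ _ ⟨u, v, f, h, rfl, rfl⟩
    obtain ⟨β, hβ⟩ := h.step
    refine ⟨β, fun x i => ?_⟩
    obtain ⟨j, hj⟩ := exists_free f i
    refine ⟨_, _, Function.update f i j, hβ x j, ?_, ?_⟩
    · funext i'
      by_cases h4 : i' = i
      · subst h4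
        simp
      · rw [Function.update_of_ne h4, Function.update_of_ne h4, Function.update_of_ne (hj i' h4)]
    · funext i'
      by_cases h4 : i' = i
      · subst h4
        simp
      · rw [Function.update_of_ne h4, Function.update_of_ne h4, Function.update_of_ne (hj i' h4)]

/-- All `N`-tuples of pairs of the list are equivalent. -/
def T (G : SimpleGraph V) (H : SimpleGraph W) (N : ℕ) (E : List (V × W)) : Prop :=
  ∀ g : Fin N → V × W, (∀ i, g i ∈ E) → Sm G H N (fun i => (g i).1) (fun i => (g i).2)

theorem T.mono {E E' : List (V × W)} (h : T G H N E) (hE : ∀ e ∈ E', e ∈ E) : T G H N E' :=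
  fun g hg => h g fun i => hE _ (hg i)

theorem T.eq_iff (hN : 2 ≤ N) {E : List (V × W)} (h : T G H N E) {a b : V × W} (ha : a ∈ E)
    (hb : b ∈ E) : a.1 = b.1 ↔ a.2 = b.2 := by
  have h1 := h (fun i => if (i : ℕ) = 0 then a else b) (fun i => by
    by_cases h : (i : ℕ) = 0 <;> simp [h, ha, hb])
  have h3 : isoType G N _ = isoType H N _ := h1 0
  have h4 := congrFun (congrFun (congrArg Prod.fst h3) ⟨0, by omega⟩) ⟨1, by omega⟩
  simp [isoType] at h4
  exact h4

theorem T.adj_iff (hN : 2 ≤ N) {E : List (V × W)} (h : T G H N E) {a b : V × W} (ha : a ∈ E)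
    (hb : b ∈ E) : G.Adj a.1 b.1 ↔ H.Adj a.2 b.2 := by
  have h1 := h (fun i => if (i : ℕ) = 0 then a else b) (fun i => by
    by_cases h : (i : ℕ) = 0 <;> simp [h, ha, hb])
  have h3 : isoType G N _ = isoType H N _ := h1 0
  have h4 := congrFun (congrFun (congrArg Prod.snd h3) ⟨0, by omega⟩) ⟨1, by omega⟩
  simp [isoType] at h4
  exact h4

theorem T.symm {E : List (V × W)} (h : T G H N E) : T H G N (E.map Prod.swap) := by
  intro g hg
  have h1 := h (fun i => (g i).swap) (fun i => by
    obtain ⟨e, he, h2⟩ := List.mem_map.1 (hg i)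
    rw [← h2, Prod.swap_swap]
    exact he)
  exact fun t => (h1 t).symm

theorem T.trans {X : Type} [Fintype X] {K : SimpleGraph X} (l : List (V × W × X))
    (h : T G H N (l.map fun p => (p.1, p.2.1))) (h' : T H K N (l.map fun p => p.2)) :
    T G K N (l.map fun p => (p.1, p.2.2)) := by
  intro g hg
  have h1 : ∀ i, ∃ p ∈ l, (p.1, p.2.2) = g i := fun i => List.mem_map.1 (hg i)
  choose p hp hpg using h1
  have h2 := h (fun i => ((p i).1, (p i).2.1)) (fun i => List.mem_map.2 ⟨p i, hp i, rfl⟩)
  have h3 := h' (fun i => (p i).2) (fun i => List.mem_map.2 ⟨p i, hp i, rfl⟩)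
  intro t
  have e1 : (fun i => (g i).1) = fun i => (p i).1 := by
    funext i
    rw [← hpg i]
  have e2 : (fun i => (g i).2) = fun i => (p i).2.2 := by
    funext i
    rw [← hpg i]
  rw [e1, e2]
  exact (h2 t).trans (h3 t)

theorem T.step {E : List (V × W)} (h : T G H N E) (hE : E.length ≤ N) (hne : E ≠ []) :
    ∃ β : V ≃ W, ∀ x, T G H N ((x, β x) :: E) := by
  classical
  have hpos : 0 < E.length := List.length_pos_iff.2 hne
  let g0 : Fin N → V × W := fun i => if hi : (i : ℕ) < E.length then E[(i : ℕ)] else E[0]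
  have hg0 : ∀ i, g0 i ∈ E := by
    intro i
    by_cases hi : (i : ℕ) < E.length
    · simp only [g0, hi, dif_pos]
      exact List.getElem_mem _
    · simp only [g0, hi, dif_neg, not_false_eq_true]
      exact List.getElem_mem _
  have hcov : ∀ e : V × W, ∃ i : Fin N, e ∈ E → g0 i = e := by
    intro e
    by_cases he : e ∈ E
    · obtain ⟨n, hn, hne⟩ := List.getElem_of_mem he
      refine ⟨⟨n, by omega⟩, fun _ => ?_⟩
      simp only [g0, hn, dif_pos]
      exact hne
    · exact ⟨⟨0, by omega⟩, fun h' => absurd h' he⟩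
  choose idx hidx using hcov
  obtain ⟨β, hβ⟩ := (h g0 hg0).step
  refine ⟨β, fun x => ?_⟩
  intro g hg
  by_cases hall : ∀ i, g i ∈ E
  · exact h g hall
  push Not at hall
  obtain ⟨i0, hi0⟩ := hall
  have hi0' : g i0 = (x, β x) := by
    rcases List.mem_cons.1 (hg i0) with h1 | h1
    · exact h1
    · exact absurd h1 hi0
  obtain ⟨j, hj⟩ := exists_free (fun i => idx (g i)) i0
  let f : Fin N → Fin N := fun i => if g i ∈ E then idx (g i) else j
  have h1 := Sm.reindex (hβ x j) f
  have key : ∀ i, Function.update g0 j (x, β x) (f i) = g i := by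
    intro i
    by_cases hi : g i ∈ E
    · have h2 : f i = idx (g i) := by simp [f, hi]
      have h3 : idx (g i) ≠ j := hj i (by
        rintro rfl
        exact hi0 hi)
      rw [h2, Function.update_of_ne h3]
      exact hidx _ hi
    · have h2 : f i = j := by simp [f, hi]
      rw [h2, Function.update_self]
      rcases List.mem_cons.1 (hg i) with h3 | h3
      · exact h3.symm
      · exact absurd h3 hi
  have e1 : (fun i => Function.update (fun i => (g0 i).1) j x (f i)) = fun i => (g i).1 := by
    funext i
    rw [← key i]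
    by_cases hi : f i = j
    · rw [hi, Function.update_self, Function.update_self]
    · rw [Function.update_of_ne hi, Function.update_of_ne hi]
  have e2 : (fun i => Function.update (fun i => (g0 i).2) j (β x) (f i)) = fun i => (g i).2 := by
    funext i
    rw [← key i]
    by_cases hi : f i = j
    · rw [hi, Function.update_self, Function.update_self]
    · rw [Function.update_of_ne hi, Function.update_of_ne hi]
  rw [e1, e2] at h1
  exact h1

/-- Equivalent graphs have equivalent vertices. -/
theorem T.start (h : WLEquivalent N G H) (hN : 0 < N) (v0 : V) :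
    ∃ β : V ≃ W, ∀ x, T G H N [(x, β x)] := by
  classical
  obtain ⟨ψ, hψ⟩ := h
  have h1 : Sm G H N (fun _ => v0) (ψ fun _ => v0) := fun t => hψ t _
  obtain ⟨β, hβ⟩ := h1.step
  refine ⟨β, fun x g hg => ?_⟩
  have h2 := Sm.reindex (hβ x ⟨0, hN⟩) (fun _ => ⟨0, hN⟩)
  have e : ∀ i, g i = (x, β x) := fun i => List.mem_singleton.1 (hg i)
  have e1 : (fun i => (g i).1) = fun _ : Fin N => x := by
    funext i
    rw [e i]
  have e2 : (fun i => (g i).2) = fun _ : Fin N => β x := by
    funext i
    rw [e i]
  rw [e1, e2]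
  simpa using h2

theorem T.single (G : SimpleGraph V) (N : ℕ) (l : List V) : T G G N (l.map fun v => (v, v)) := by
  intro g hg t
  have e : (fun i => (g i).1) = fun i => (g i).2 := by
    funext i
    obtain ⟨v, -, hv⟩ := List.mem_map.1 (hg i)
    rw [← hv]
  rw [e]

end

end Pool.Agent.J4.H77.CG
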