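import Pool.Agent.J4.H77.CG.Inner

/-!
# Chords from an arc to the two parts of its complement
-/

set_option autoImplicit false
set_option linter.unusedVariables false

namespace Pool.Agent.J4.H77.CG

theorem cr1 {u k v l i d : ℤ} {T : Prop} (hk : u < k) (hl : v < l) (f1 : k < i ↔ k < u)
    (f2 : l < i ↔ l < u) (f3 : k < i ↔ k < v) (f4 : l < i ↔ l < v)
    (e1 : i ≤ d ↔ u ≤ d) (e2 : i ≤ d ↔ v ≤ d)
    (h3 : (k < i ↔ k ≤ d) ↔ T) (h4 : ¬ ((l < i ↔ l ≤ d) ↔ T)) (n1 : u ≠ v) (n2 : k ≠ l)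
    (n3 : u ≠ l) (n4 : v ≠ k) :
    Cross u k v l ↔ (u < v ↔ (i ≤ d ↔ ¬ T)) := by
  have g1 : ¬ k < i := by omega
  have g2 : ¬ l < i := by omega
  have g3 : v < k := by omega
  have g4 : u < l := by omega
  clear f1 f2 f3 f4
  simp only [g1, g2, false_iff] at h3 h4
  unfold Cross
  by_cases hT : T
  · simp only [hT, iff_true, not_not, not_true, iff_false] at h3 h4 ⊢
    constructor <;> intro h <;> omega
  · simp only [hT, iff_false, not_not, not_false_iff, iff_true] at h3 h4 ⊢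
    constructor <;> intro h <;> omega

theorem cr2 {u k v l i d : ℤ} {T : Prop} (hk : u < k) (hl : l < v) (f1 : k < i ↔ k < u)
    (f2 : l < i ↔ l < u) (f3 : k < i ↔ k < v) (f4 : l < i ↔ l < v)
    (e1 : i ≤ d ↔ u ≤ d) (e2 : i ≤ d ↔ v ≤ d)
    (h3 : (k < i ↔ k ≤ d) ↔ T) (h4 : ¬ ((l < i ↔ l ≤ d) ↔ T)) (n1 : u ≠ v) (n2 : k ≠ l)
    (n3 : u ≠ l) (n4 : v ≠ k) :
    Cross u k l v ↔ (u < v ↔ (i ≤ d ↔ ¬ T)) := by
  have g1 : ¬ k < i := by omega
  have g2 : l < i := by omega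
  have g3 : v < k := by omega
  have g4 : l < u := by omega
  clear f1 f2 f3 f4
  simp only [g1, g2, false_iff, true_iff] at h3 h4
  unfold Cross
  by_cases hT : T
  · simp only [hT, iff_true, not_not, not_true, iff_false] at h3 h4 ⊢
    constructor <;> intro h <;> omega
  · simp only [hT, iff_false, not_not, not_false_iff, iff_true] at h3 h4 ⊢
    constructor <;> intro h <;> omega

theorem cr3 {u k v l i d : ℤ} {T : Prop} (hk : k < u) (hl : v < l) (f1 : k < i ↔ k < u)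
    (f2 : l < i ↔ l < u) (f3 : k < i ↔ k < v) (f4 : l < i ↔ l < v)
    (e1 : i ≤ d ↔ u ≤ d) (e2 : i ≤ d ↔ v ≤ d)
    (h3 : (k < i ↔ k ≤ d) ↔ T) (h4 : ¬ ((l < i ↔ l ≤ d) ↔ T)) (n1 : u ≠ v) (n2 : k ≠ l)
    (n3 : u ≠ l) (n4 : v ≠ k) :
    Cross k u v l ↔ (u < v ↔ (i ≤ d ↔ ¬ T)) := by
  have g1 : k < i := by omega
  have g2 : ¬ l < i := by omega
  have g3 : k < v := by omega
  have g4 : u < l := by omega
  clear f1 f2 f3 f4
  simp only [g1, g2, false_iff, true_iff] at h3 h4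
  unfold Cross
  by_cases hT : T
  · simp only [hT, iff_true, not_not, not_true, iff_false] at h3 h4 ⊢
    constructor <;> intro h <;> omega
  · simp only [hT, iff_false, not_not, not_false_iff, iff_true] at h3 h4 ⊢
    constructor <;> intro h <;> omega

theorem cr4 {u k v l i d : ℤ} {T : Prop} (hk : k < u) (hl : l < v) (f1 : k < i ↔ k < u)
    (f2 : l < i ↔ l < u) (f3 : k < i ↔ k < v) (f4 : l < i ↔ l < v)
    (e1 : i ≤ d ↔ u ≤ d) (e2 : i ≤ d ↔ v ≤ d)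
    (h3 : (k < i ↔ k ≤ d) ↔ T) (h4 : ¬ ((l < i ↔ l ≤ d) ↔ T)) (n1 : u ≠ v) (n2 : k ≠ l)
    (n3 : u ≠ l) (n4 : v ≠ k) :
    Cross k u l v ↔ (u < v ↔ (i ≤ d ↔ ¬ T)) := by
  have g1 : k < i := by omega
  have g2 : l < i := by omega
  have g3 : k < v := by omega
  have g4 : l < u := by omega
  clear f1 f2 f3 f4
  simp only [g1, g2, false_iff, true_iff] at h3 h4
  unfold Cross
  by_cases hT : T
  · simp only [hT, iff_true, not_not, not_true, iff_false] at h3 h4 ⊢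
    constructor <;> intro h <;> omega
  · simp only [hT, iff_false, not_not, not_false_iff, iff_true] at h3 h4 ⊢
    constructor <;> intro h <;> omega

/-- chords in different parts of the complement of the arc do not cross -/
theorem cr5 {a b a' b' i d : ℤ} {T : Prop} (hab : a < b) (hab' : a' < b')
    (h1 : (a < i ↔ a ≤ d) ↔ T) (h2 : (b < i ↔ b ≤ d) ↔ T)
    (h3 : ¬ ((a' < i ↔ a' ≤ d) ↔ T)) (h4 : ¬ ((b' < i ↔ b' ≤ d) ↔ T)) :
    ¬ Cross a b a' b' := by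
  intro h
  unfold Cross at h
  have e1 : (a < i ↔ a ≤ d) ↔ (b < i ↔ b ≤ d) := h1.trans h2.symm
  have e2 : (a' < i ↔ a' ≤ d) ↔ (b' < i ↔ b' ≤ d) := by tauto
  have e3 : ¬ ((a < i ↔ a ≤ d) ↔ (a' < i ↔ a' ≤ d)) := by tauto
  clear h1 h2 h3 h4
  by_cases c1 : a < i <;> by_cases c2 : b < i <;> by_cases c3 : a' < i <;> by_cases c4 : b' < i <;>
    simp only [c1, c2, c3, c4, true_iff, false_iff] at e1 e2 e3 <;> omega

/-- a chord of the complement and a chord with one end `u` in the arc -/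
theorem cr6 {a b u l i d : ℤ} {T : Prop} (hab : a < b) (hl : u ≠ l)
    (f1 : l < i ↔ l < u) (f2 : a < i ↔ a < u) (f3 : b < i ↔ b < u) (e1 : i ≤ d ↔ u ≤ d)
    (h1 : (a < i ↔ a ≤ d) ↔ T) (h2 : (b < i ↔ b ≤ d) ↔ T)
    (h3 : ¬ ((l < i ↔ l ≤ d) ↔ T)) :
    (u < l → ¬ Cross a b u l) ∧ (l < u → ¬ Cross a b l u) := by
  have e2 : (a < i ↔ a ≤ d) ↔ (b < i ↔ b ≤ d) := h1.trans h2.symm
  have e3 : ¬ ((a < i ↔ a ≤ d) ↔ (l < i ↔ l ≤ d)) := by tauto
  clear h1 h2 h3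
  unfold Cross
  constructor
  · intro hul h
    by_cases c1 : a < i <;> by_cases c2 : b < i <;> by_cases c3 : l < i <;>
      simp only [c1, c2, c3, true_iff, false_iff] at e2 e3 f1 f2 f3 <;> omega
  · intro hul h
    by_cases c1 : a < i <;> by_cases c2 : b < i <;> by_cases c3 : l < i <;>
      simp only [c1, c2, c3, true_iff, false_iff] at e2 e3 f1 f2 f3 <;> omega

end Pool.Agent.J4.H77.CG
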