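import Pool.Agent.J4.H77.CG.ArcAux

/-!
# Good cuts and arcs of a chord diagram
-/

set_option autoImplicit false
set_option linter.unusedVariables false

namespace Pool.Agent.J4.H77.CG

open Relation

variable {V : Type}

/-- `E` is the overlap relation of the intervals `[a v, b v]`. -/
structure IsDiag (E : V → V → Prop) (a b : V → ℤ) : Prop where
  ab : ∀ v, a v < b v
  ne1 : ∀ u v, a u ≠ b v
  ne2 : ∀ u v, u ≠ v → a u ≠ a v ∧ b u ≠ b v
  adj : ∀ u v, E u v ↔ Cross (a u) (b u) (a v) (b v)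

/-- the cut at `e` is invariant -/
def Good (R : V → V → Prop) (a b : V → ℤ) (e : ℤ) : Prop := Inv R {v | a v ≤ e ∧ e < b v}

/-- the positions `i`, `j` are not separated by an invariant cut -/
def SA (R : V → V → Prop) (a b : V → ℤ) (i j : ℤ) : Prop :=
  ∀ e, Good R a b e → (i ≤ e ↔ j ≤ e)

section
variable {E R : V → V → Prop} {a b : V → ℤ}

theorem SA.refl (i : ℤ) : SA R a b i i := fun _ _ => Iff.rfl

theorem SA.symm {i j : ℤ} (h : SA R a b i j) : SA R a b j i := fun e he => (h e he).symm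

theorem SA.trans {i j k : ℤ} (h : SA R a b i j) (h' : SA R a b j k) : SA R a b i k :=
  fun e he => (h e he).trans (h' e he)

/-- arcs are convex -/
theorem SA.between {i j k : ℤ} (h : SA R a b i j) (h1 : i ≤ k) (h2 : k ≤ j) : SA R a b i k := by
  intro e he
  have := h e he
  constructor
  · intro h3
    have := this.1 h3
    omega
  · intro h3
    omega

theorem SA.between' {i j k : ℤ} (h : SA R a b i j) (h1 : i ≤ k) (h2 : k ≤ j) : SA R a b k j :=
  (h.between h1 h2).symm.trans h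

/-- the arcs of the ends of related vertices agree if the ends are in different arcs -/
theorem arcs_eq (hE : Equit E R) {x y : V} (hxy : R x y) (hx : ¬ SA R a b (a x) (b x))
    (hab : ∀ v, a v < b v) : SA R a b (a x) (a y) ∧ SA R a b (b x) (b y) := by
  have h1 : ∃ e0, Good R a b e0 ∧ a x ≤ e0 ∧ e0 < b x := by
    by_contra hcon
    push Not at hcon
    apply hx
    intro e he
    have h2 := hcon e he
    have h3 := hab x
    constructor
    · intro h4
      exact h2 h4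
    · intro h4
      omega
  obtain ⟨e0, he0, h2, h3⟩ := h1
  have h4 : a y ≤ e0 ∧ e0 < b y := he0 x y hxy ⟨h2, h3⟩
  have hyx := hE.symm hxy
  constructor
  · intro e he
    constructor
    · intro h5
      by_contra h6
      have h7 : a y ≤ e ∧ e < b y := he x y hxy ⟨h5, by omega⟩
      omega
    · intro h5
      by_contra h6
      have h7 : a x ≤ e ∧ e < b x := he y x hyx ⟨h5, by omega⟩
      omega
  · intro e he
    constructor
    · intro h5
      by_contra h6
      have h7 : a x ≤ e ∧ e < b x := he y x hyx ⟨by omega, by omega⟩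
      omega
    · intro h5
      by_contra h6
      have h7 : a y ≤ e ∧ e < b y := he x y hxy ⟨by omega, by omega⟩
      omega

/-- related vertices with both ends in one arc -/
theorem sa_iff (hE : Equit E R) {x y : V} (hxy : R x y) (hab : ∀ v, a v < b v) :
    SA R a b (a x) (b x) ↔ SA R a b (a y) (b y) := by
  constructor
  · intro h
    by_contra h'
    obtain ⟨h1, h2⟩ := arcs_eq hE (hE.symm hxy) h' hab
    exact h' (h1.trans (h.trans h2.symm))
  · intro h
    by_contra h'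
    obtain ⟨h1, h2⟩ := arcs_eq hE hxy h' hab
    exact h' (h1.trans (h.trans h2.symm))

/-- leaving a set on a walk -/
theorem leave {S : Set V} {x y : V} (h : ReflTransGen E x y) (hx : x ∈ S) (hy : y ∉ S) :
    ∃ z, ReflTransGen (Within E S) x z ∧ z ∈ S ∧ ∃ o, o ∉ S ∧ E z o := by
  induction h using ReflTransGen.head_induction_on with
  | refl => exact absurd hx hy
  | @head u v h1 h2 ih =>
    by_cases hv : v ∈ S
    · obtain ⟨z, h3, h4, h5⟩ := ih hv
      exact ⟨z, ReflTransGen.head ⟨hx, hv, h1⟩ h3, h4, h5⟩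
    · exact ⟨u, ReflTransGen.refl, hx, v, hv, h1⟩

end

/-- the key step: two ends in one arc whose other ends are in different arcs -/
theorem key_step [Finite V] {E R : V → V → Prop} {a b : V → ℤ} (hE : Equit E R)
    (hD : IsDiag E a b) (hconn : ∀ x y, ReflTransGen E x y)
    {lo : ℤ} (hlo : ∀ v, lo < a v) {x y : V} {i i' j j' : ℤ} (hij : i < j)
    (hx : (i = a x ∧ i' = b x) ∨ (i = b x ∧ i' = a x))
    (hy : (j = a y ∧ j' = b y) ∨ (j = b y ∧ j' = a y)) (h1 : SA R a b i j)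
    (h2 : ¬ SA R a b i i') (h3 : ¬ SA R a b j j') (h4 : ¬ SA R a b i' j')
    (hcons : ∀ z, (SA R a b i (a z) → ¬ SA R a b i (b z) → ¬ (i < a z ∧ a z < j)) ∧
      (¬ SA R a b i (a z) → SA R a b i (b z) → ¬ (i < b z ∧ b z < j))) : False := by
  classical
  -- the second cut
  have hlow : Good R a b lo := by
    rintro u v _ ⟨h5, _⟩
    have := hlo u
    omega
  have hi' : lo < i' := by
    have h5 := hlo x
    have h6 := hD.ab x
    omega
  have hj' : lo < j' := by
    have h5 := hlo y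
    have h6 := hD.ab y
    omega
  obtain ⟨d, hd, hτ⟩ : ∃ d, Good R a b d ∧ ¬ ((i' < i ↔ i' ≤ d) ↔ (j' < i ↔ j' ≤ d)) := by
    by_cases h5 : i' < i ↔ j' < i
    · obtain ⟨d, hd, h6⟩ : ∃ d, Good R a b d ∧ ¬ (i' ≤ d ↔ j' ≤ d) := by
        by_contra hcon
        push Not at hcon
        apply h4
        intro e he
        have := hcon e he
        tauto
      exact ⟨d, hd, by tauto⟩
    · exact ⟨lo, hlow, by omega⟩
  -- positions in the arc
  have hgd : ∀ u, SA R a b i u → (i ≤ d ↔ u ≤ d) := fun u hu => hu d hd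
  have hside : ∀ u k, SA R a b i u → ¬ SA R a b i k → (k < i ↔ k < u) := by
    intro u k hu hk
    constructor
    · intro h5
      by_contra h6
      exact hk ((hu.symm.between' (k := k) (by omega) (by omega)).symm)
    · intro h5
      by_contra h6
      exact hk (hu.between (by omega) (by omega))
  have hτc : ∀ k k', ¬ SA R a b i k → SA R a b k k' →
      ((k < i ↔ k ≤ d) ↔ (k' < i ↔ k' ≤ d)) := by
    intro k k' hk hkk
    have h5 := hkk d hd
    have h6 : k < i ↔ k' < i := by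
      constructor
      · intro h7
        by_contra h8
        exact hk (hkk.between' (k := i) (by omega) (by omega) |>.trans hkk.symm)
      · intro h7
        by_contra h8
        exact hk ((hkk.symm.between (k := i) (by omega) (by omega)).symm.trans hkk.symm)
    rw [h5, h6]
  -- the frame
  let Bs : Set V := {v | (SA R a b i (a v) ∧ ¬ SA R a b i (b v) ∧
      ((b v < i ↔ b v ≤ d) ↔ (i' < i ↔ i' ≤ d))) ∨
    (¬ SA R a b i (a v) ∧ SA R a b i (b v) ∧ ((a v < i ↔ a v ≤ d) ↔ (i' < i ↔ i' ≤ d)))}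
  let Cs : Set V := {v | (SA R a b i (a v) ∧ ¬ SA R a b i (b v) ∧
      ¬ ((b v < i ↔ b v ≤ d) ↔ (i' < i ↔ i' ≤ d))) ∨
    (¬ SA R a b i (a v) ∧ SA R a b i (b v) ∧ ¬ ((a v < i ↔ a v ≤ d) ↔ (i' < i ↔ i' ≤ d)))}
  let Ng : Set V := {v | SA R a b i (a v) ∧ SA R a b i (b v)}
  let Nb : Set V := {v | ¬ SA R a b i (a v) ∧ ¬ SA R a b i (b v) ∧
    ((a v < i ↔ a v ≤ d) ↔ (i' < i ↔ i' ≤ d)) ∧ ((b v < i ↔ b v ≤ d) ↔ (i' < i ↔ i' ≤ d))}
  let Nc : Set V := {v | ¬ SA R a b i (a v) ∧ ¬ SA R a b i (b v) ∧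
    ¬ ((a v < i ↔ a v ≤ d) ↔ (i' < i ↔ i' ≤ d)) ∧ ¬ ((b v < i ↔ b v ≤ d) ↔ (i' < i ↔ i' ≤ d))}
  let pos : V → ℤ := fun v => if SA R a b i (a v) then a v else b v
  have hposa : ∀ v, SA R a b i (a v) → pos v = a v := fun v hv => if_pos hv
  have hposb : ∀ v, ¬ SA R a b i (a v) → pos v = b v := fun v hv => if_neg hv
  -- the classification depends on the arcs only
  have hcls : ∀ z z', SA R a b (a z) (a z') → SA R a b (b z) (b z') →
      (z ∈ Bs → z' ∈ Bs) ∧ (z ∈ Cs → z' ∈ Cs) ∧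
      ((z ∈ Ng ∨ z ∈ Nb ∨ z ∈ Nc) → (z' ∈ Ng ∨ z' ∈ Nb ∨ z' ∈ Nc)) := by
    intro z z' ha hb
    have e1 : SA R a b i (a z) ↔ SA R a b i (a z') := ⟨fun h => h.trans ha, fun h => h.trans ha.symm⟩
    have e2 : SA R a b i (b z) ↔ SA R a b i (b z') := ⟨fun h => h.trans hb, fun h => h.trans hb.symm⟩
    have e3 : ¬ SA R a b i (a z) → ((a z < i ↔ a z ≤ d) ↔ (a z' < i ↔ a z' ≤ d)) :=
      fun h => hτc _ _ h ha
    have e4 : ¬ SA R a b i (b z) → ((b z < i ↔ b z ≤ d) ↔ (b z' < i ↔ b z' ≤ d)) :=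
      fun h => hτc _ _ h hb
    refine ⟨?_, ?_, ?_⟩
    · rintro (⟨h5, h6, h7⟩ | ⟨h5, h6, h7⟩)
      · exact Or.inl ⟨e1.1 h5, fun h => h6 (e2.2 h), (e4 h6).symm.trans h7⟩
      · exact Or.inr ⟨fun h => h5 (e1.2 h), e2.1 h6, (e3 h5).symm.trans h7⟩
    · rintro (⟨h5, h6, h7⟩ | ⟨h5, h6, h7⟩)
      · exact Or.inl ⟨e1.1 h5, fun h => h6 (e2.2 h), fun h => h7 ((e4 h6).trans h)⟩
      · exact Or.inr ⟨fun h => h5 (e1.2 h), e2.1 h6, fun h => h7 ((e3 h5).trans h)⟩
    · rintro (⟨h5, h6⟩ | ⟨h5, h6, h7, h8⟩ | ⟨h5, h6, h7, h8⟩)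
      · exact Or.inl ⟨e1.1 h5, e2.1 h6⟩
      · exact Or.inr (Or.inl ⟨fun h => h5 (e1.2 h), fun h => h6 (e2.2 h), (e3 h5).symm.trans h7,
          (e4 h6).symm.trans h8⟩)
      · exact Or.inr (Or.inr ⟨fun h => h5 (e1.2 h), fun h => h6 (e2.2 h),
          fun h => h7 ((e3 h5).trans h), fun h => h8 ((e4 h6).trans h)⟩)
  have hBne : ∀ z, z ∈ Bs ∨ z ∈ Cs → ¬ SA R a b (a z) (b z) := by
    rintro z ((⟨h5, h6, _⟩ | ⟨h5, h6, _⟩) | (⟨h5, h6, _⟩ | ⟨h5, h6, _⟩)) h7
    · exact h6 (h5.trans h7)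
    · exact h5 (h6.trans h7.symm)
    · exact h6 (h5.trans h7)
    · exact h5 (h6.trans h7.symm)
  have hNsa : ∀ z, SA R a b (a z) (b z) → (z ∈ Ng ∨ z ∈ Nb ∨ z ∈ Nc) := by
    intro z hz
    by_cases h5 : SA R a b i (a z)
    · exact Or.inl ⟨h5, h5.trans hz⟩
    · have h6 : ¬ SA R a b i (b z) := fun h => h5 (h.trans hz.symm)
      have h7 := hτc _ _ h5 hz
      by_cases h8 : ((a z < i ↔ a z ≤ d) ↔ (i' < i ↔ i' ≤ d))
      · exact Or.inr (Or.inl ⟨h5, h6, h8, h7.symm.trans h8⟩)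
      · exact Or.inr (Or.inr ⟨h5, h6, h8, fun h => h8 (h7.trans h)⟩)
  have hc6 : ∀ z ∈ Ng, ∀ o, E z o → o ∈ Bs ∨ o ∈ Cs ∨ o ∈ Ng := by
    rintro z ⟨z1, z2⟩ o he
    rw [hD.adj] at he
    have hor : SA R a b i (a o) ∨ SA R a b i (b o) := by
      by_contra hcon
      push Not at hcon
      have f1 := hside _ _ z1 hcon.1
      have f2 := hside _ _ z2 hcon.1
      have f3 := hside _ _ z1 hcon.2
      have f4 := hside _ _ z2 hcon.2
      have f5 : a o < a z ↔ a o < b z := f1.symm.trans f2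
      have f6 : b o < a z ↔ b o < b z := f3.symm.trans f4
      clear f1 f2 f3 f4
      unfold Cross at he
      omega
    by_cases h5 : SA R a b i (a o) <;> by_cases h6 : SA R a b i (b o)
    · exact Or.inr (Or.inr ⟨h5, h6⟩)
    · by_cases h7 : ((b o < i ↔ b o ≤ d) ↔ (i' < i ↔ i' ≤ d))
      · exact Or.inl (Or.inl ⟨h5, h6, h7⟩)
      · exact Or.inr (Or.inl (Or.inl ⟨h5, h6, h7⟩))
    · by_cases h7 : ((a o < i ↔ a o ≤ d) ↔ (i' < i ↔ i' ≤ d))
      · exact Or.inl (Or.inr ⟨h5, h6, h7⟩)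
      · exact Or.inr (Or.inl (Or.inr ⟨h5, h6, h7⟩))
    · exact absurd hor (by tauto)
  have hFr : IsFrame E R Bs Cs Ng Nb Nc pos a b (i ≤ d ↔ ¬ (i' < i ↔ i' ≤ d)) := by
    refine
      { eqt := hE
        symm := ?_
        invB := ?_
        invC := ?_
        invN := ?_
        bc := ?_
        bn := ?_
        gb := ?_
        ab := fun z _ => hD.ab z
        d1 := ?_
        d2 := ?_
        d3 := fun z _ z' _ => hD.ne1 z z'
        d4 := fun z _ z' _ h => hD.ne2 z z' h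
        c1 := ?_
        c2 := ?_
        c3 := fun z _ z' _ => hD.adj z z'
        c4 := ?_
        c5 := ?_
        c5' := ?_
        c6 := ?_
        att := ?_ }
    · intro u v huv
      rw [hD.adj] at huv ⊢
      unfold Cross at huv ⊢
      omega
    · intro z z' hzz hz
      obtain ⟨h5, h6⟩ := arcs_eq hE hzz (hBne z (Or.inl hz)) hD.ab
      exact (hcls z z' h5 h6).1 hz
    · intro z z' hzz hz
      obtain ⟨h5, h6⟩ := arcs_eq hE hzz (hBne z (Or.inr hz)) hD.ab
      exact (hcls z z' h5 h6).2.1 hz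
    · intro z z' hzz hz
      by_cases h5 : SA R a b (a z) (b z)
      · exact hNsa z' ((sa_iff hE hzz hD.ab).1 h5)
      · obtain ⟨h6, h7⟩ := arcs_eq hE hzz h5 hD.ab
        exact (hcls z z' h6 h7).2.2 hz
    · rintro z (⟨h5, h6, h7⟩ | ⟨h5, h6, h7⟩) (⟨h8, h9, h10⟩ | ⟨h8, h9, h10⟩)
      · exact h10 h7
      · exact h8 h5
      · exact h5 h8
      · exact h10 h7
    · rintro z hz (⟨h5, h6⟩ | ⟨h5, h6, _⟩ | ⟨h5, h6, _⟩) <;>
      · have := hBne z hz
        rcases hz with (⟨h8, h9, _⟩ | ⟨h8, h9, _⟩) | (⟨h8, h9, _⟩ | ⟨h8, h9, _⟩) <;> tauto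
    · rintro z ⟨h5, h6⟩
      exact ⟨fun h => h.1 h5, fun h => h.1 h5⟩
    · intro u v hu hv hne
      have h5 := hD.ne2 u v hne
      have h6 := hD.ne1 u v
      have h7 := hD.ne1 v u
      by_cases h8 : SA R a b i (a u) <;> by_cases h9 : SA R a b i (a v)
      · rw [hposa u h8, hposa v h9]
        exact h5.1
      · rw [hposa u h8, hposb v h9]
        exact h6
      · rw [hposb u h8, hposa v h9]
        exact h7.symm
      · rw [hposb u h8, hposb v h9]
        exact h5.2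
    · intro z hz v hv
      have hne : z ≠ v := by
        rintro rfl
        rcases hv with (⟨_, h9, _⟩ | ⟨h8, _, _⟩) | (⟨_, h9, _⟩ | ⟨h8, _, _⟩)
        · exact h9 hz.2
        · exact h8 hz.1
        · exact h9 hz.2
        · exact h8 hz.1
      have h5 := hD.ne2 z v hne
      have h6 := hD.ne1 z v
      have h7 := hD.ne1 v z
      by_cases h8 : SA R a b i (a v)
      · rw [hposa v h8]
        exact ⟨h5.1, h7.symm⟩
      · rw [hposb v h8]
        exact ⟨h6, h5.2⟩
    · -- adjacency of the two kinds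
      intro u hu v hv
      rw [hD.adj]
      have hne : u ≠ v := by
        rintro rfl
        rcases hu with ⟨h5, h6, h7⟩ | ⟨h5, h6, h7⟩ <;> rcases hv with ⟨h8, h9, h10⟩ | ⟨h8, h9, h10⟩
        · exact h10 h7
        · exact h8 h5
        · exact h5 h8
        · exact h10 h7
      have hu0 := hD.ab u
      have hv0 := hD.ab v
      have n1 := hD.ne1 u v
      have n2 := hD.ne1 v u
      obtain ⟨n3, n4⟩ := hD.ne2 u v hne
      rcases hu with ⟨u1, u2, u3⟩ | ⟨u1, u2, u3⟩ <;> rcases hv with ⟨v1, v2, v3⟩ | ⟨v1, v2, v3⟩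
      · rw [hposa u u1, hposa v v1]
        exact cr1 hu0 hv0 (hside _ _ u1 u2) (hside _ _ u1 v2) (hside _ _ v1 u2) (hside _ _ v1 v2)
          (hgd _ u1) (hgd _ v1) u3 v3 n3 n4 n1 n2
      · rw [hposa u u1, hposb v v1]
        exact cr2 hu0 hv0 (hside _ _ u1 u2) (hside _ _ u1 v1) (hside _ _ v2 u2) (hside _ _ v2 v1)
          (hgd _ u1) (hgd _ v2) u3 v3 n1 n2.symm n3 n4.symm
      · rw [hposb u u1, hposa v v1]
        exact cr3 hu0 hv0 (hside _ _ u2 u1) (hside _ _ u2 v2) (hside _ _ v1 u1) (hside _ _ v1 v2)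
          (hgd _ u2) (hgd _ v1) u3 v3 n2.symm n1 n4 n3.symm
      · rw [hposb u u1, hposb v v1]
        exact cr4 hu0 hv0 (hside _ _ u2 u1) (hside _ _ u2 v1) (hside _ _ v2 u1) (hside _ _ v2 v1)
          (hgd _ u2) (hgd _ v2) u3 v3 n4 n3 n2.symm n1.symm
    · intro z hz u hu
      rw [hD.adj]
      have hz0 := hD.ab z
      have hu0 := hD.ab u
      have hu' : (SA R a b i (a u) ∧ ¬ SA R a b i (b u)) ∨ (¬ SA R a b i (a u) ∧ SA R a b i (b u)) := by
        rcases hu with (⟨h8, h9, _⟩ | ⟨h8, h9, _⟩) | (⟨h8, h9, _⟩ | ⟨h8, h9, _⟩) <;> tauto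
      rcases hu' with ⟨u1, u2⟩ | ⟨u1, u2⟩
      · rw [hposa u u1]
        have f1 := hside _ _ hz.1 u2
        have f2 := hside _ _ hz.2 u2
        have f3 := hside _ _ u1 u2
        have f4 : ¬ b u < i := by omega
        have f5 : b z ≤ b u := by omega
        have f6 : b z ≠ b u := fun h => u2 (h ▸ hz.2)
        clear f1 f2 f3
        unfold Cross
        constructor <;> intro h5 <;> omega
      · rw [hposb u u1]
        have f1 := hside _ _ hz.1 u1
        have f2 := hside _ _ hz.2 u1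
        have f3 := hside _ _ u2 u1
        have f4 : a u < i := by omega
        have f5 : a u < a z := by omega
        clear f1 f2 f3
        unfold Cross
        constructor <;> intro h5 <;> omega
    · rintro z ⟨z1, z2, z3, z4⟩ z' ⟨z1', z2', z3', z4'⟩ he
      rw [hD.adj] at he
      exact cr5 (hD.ab z) (hD.ab z') z3 z4 z3' z4' he
    · rintro z ⟨z1, z2, z3, z4⟩ v hv he
      rw [hD.adj] at he
      rcases hv with ⟨v1, v2, v3⟩ | ⟨v1, v2, v3⟩
      · exact (cr6 (hD.ab z) (hD.ab v).ne (hside _ _ v1 v2) (hside _ _ v1 z1) (hside _ _ v1 z2)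
          (hgd _ v1) z3 z4 v3).1 (hD.ab v) he
      · exact (cr6 (hD.ab z) (hD.ab v).ne' (hside _ _ v2 v1) (hside _ _ v2 z1) (hside _ _ v2 z2)
          (hgd _ v2) z3 z4 v3).2 (hD.ab v) he
    · rintro z ⟨z1, z2, z3, z4⟩ v hv he
      rw [hD.adj] at he
      have z3' : (a z < i ↔ a z ≤ d) ↔ ¬ (i' < i ↔ i' ≤ d) := by
        constructor
        · intro h5 h6
          exact z3 ⟨fun _ => h6, fun _ => h5⟩
        · intro h5
          by_contra h6
          exact z3 ⟨fun h7 => absurd h7 h6, fun h7 => absurd h7 h5⟩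
      have z4' : (b z < i ↔ b z ≤ d) ↔ ¬ (i' < i ↔ i' ≤ d) := by
        constructor
        · intro h5 h6
          exact z4 ⟨fun _ => h6, fun _ => h5⟩
        · intro h5
          by_contra h6
          exact z4 ⟨fun h7 => absurd h7 h6, fun h7 => absurd h7 h5⟩
      have hT : ∀ {p : Prop}, (p ↔ (i' < i ↔ i' ≤ d)) → ¬ (p ↔ ¬ (i' < i ↔ i' ≤ d)) := by
        intro p h5 h6
        by_cases h7 : p
        · exact h6.1 h7 (h5.1 h7)
        · exact h7 (h6.2 fun h8 => h7 (h5.2 h8))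
      rcases hv with ⟨v1, v2, v3⟩ | ⟨v1, v2, v3⟩
      · exact (cr6 (hD.ab z) (hD.ab v).ne (hside _ _ v1 v2) (hside _ _ v1 z1) (hside _ _ v1 z2)
          (hgd _ v1) z3' z4' (hT v3)).1 (hD.ab v) he
      · exact (cr6 (hD.ab z) (hD.ab v).ne' (hside _ _ v2 v1) (hside _ _ v2 z1) (hside _ _ v2 z2)
          (hgd _ v2) z3' z4' (hT v3)).2 (hD.ab v) he
    · exact hc6
    · rintro z hz
      have hxN : x ∉ Ng := by
        rintro ⟨h5, h6⟩
        rcases hx with ⟨h7, h8⟩ | ⟨h7, h8⟩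
        · exact h2 (h8 ▸ h6)
        · exact h2 (h8 ▸ h5)
      obtain ⟨z', h5, h6, o, h7, h8⟩ := leave (hconn z x) hz hxN
      refine ⟨z', h5, o, ?_, h8⟩
      rcases hc6 z' h6 o h8 with h9 | h9 | h9
      · exact Or.inl h9
      · exact Or.inr h9
      · exact absurd h9 h7
  -- the two chords
  have hxi : x ∈ Bs ∧ pos x = i := by
    rcases hx with ⟨h5, h6⟩ | ⟨h5, h6⟩
    · have h7 : SA R a b i (a x) := h5 ▸ SA.refl i
      have h8 : ¬ SA R a b i (b x) := h6 ▸ h2
      refine ⟨Or.inl ⟨h7, h8, ?_⟩, (hposa x h7).trans h5.symm⟩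
      rw [← h6]
    · have h7 : SA R a b i (b x) := h5 ▸ SA.refl i
      have h8 : ¬ SA R a b i (a x) := h6 ▸ h2
      refine ⟨Or.inr ⟨h8, h7, ?_⟩, (hposb x h8).trans h5.symm⟩
      rw [← h6]
  have hyj : y ∈ Cs ∧ pos y = j := by
    rcases hy with ⟨h5, h6⟩ | ⟨h5, h6⟩
    · have h7 : SA R a b i (a y) := h5 ▸ h1
      have h8 : ¬ SA R a b i (b y) := fun h => h3 (h6 ▸ h1.symm.trans h)
      refine ⟨Or.inl ⟨h7, h8, ?_⟩, (hposa y h7).trans h5.symm⟩
      rw [← h6]
      exact fun h => hτ h.symm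
    · have h7 : SA R a b i (b y) := h5 ▸ h1
      have h8 : ¬ SA R a b i (a y) := fun h => h3 (h6 ▸ h1.symm.trans h)
      refine ⟨Or.inr ⟨h8, h7, ?_⟩, (hposb y h8).trans h5.symm⟩
      rw [← h6]
      exact fun h => hτ h.symm
  have hno : ∀ z, (z ∈ Bs ∨ z ∈ Cs) → ¬ (pos x < pos z ∧ pos z < pos y) := by
    intro z hz
    rw [hxi.2, hyj.2]
    have hz' : (SA R a b i (a z) ∧ ¬ SA R a b i (b z)) ∨ (¬ SA R a b i (a z) ∧ SA R a b i (b z)) := by
      rcases hz with (⟨h8, h9, _⟩ | ⟨h8, h9, _⟩) | (⟨h8, h9, _⟩ | ⟨h8, h9, _⟩)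
      · exact Or.inl ⟨h8, h9⟩
      · exact Or.inr ⟨h8, h9⟩
      · exact Or.inl ⟨h8, h9⟩
      · exact Or.inr ⟨h8, h9⟩
    rcases hz' with ⟨h5, h6⟩ | ⟨h5, h6⟩
    · rw [hposa z h5]
      exact (hcons z).1 h5 h6
    · rw [hposb z h5]
      exact (hcons z).2 h5 h6
  have hlt : pos x < pos y := by
    rw [hxi.2, hyj.2]
    exact hij
  obtain ⟨e, he1, he2, he3⟩ := cut (R := R) Ng.ncard hFr (le_refl _) x hxi.1 y hyj.1 hlt hno
  have hlo' := hFr.inv_lo hxi.1 hyj.1 hlt hno
  have hhi' := hFr.inv_hi hxi.1 hyj.1 hlt hno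
  rw [hxi.2] at he1
  rw [hyj.2] at he2
  -- the cut is invariant
  have hpl : ∀ z z', R z z' → (z ∈ Bs ∨ z ∈ Cs) → pos z ≤ e → pos z' ≤ e := by
    intro z z' hzz hz hle
    rcases hz with hz | hz
    · have h5 : pos z ≤ pos x := by
        have h6 := hno z (Or.inl hz)
        rw [hxi.2, hyj.2] at h6
        rw [hxi.2]
        omega
      have h6 := (hlo' z z' hzz ⟨hz, h5⟩).2
      rw [hxi.2] at h6
      omega
    · by_contra hcon
      have hz' : z' ∈ Cs := hFr.invC z z' hzz hz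
      have h5 : pos y ≤ pos z' := by
        have h6 := hno z' (Or.inr hz')
        rw [hxi.2, hyj.2] at h6
        rw [hyj.2]
        omega
      have h6 := (hhi' z' z (hE.symm hzz) ⟨hz', h5⟩).2
      rw [hyj.2] at h6
      omega
  have hgood : Good R a b e := by
    rintro z z' hzz ⟨hz1, hz2⟩
    by_cases h5 : SA R a b (a z) (b z)
    · -- both ends in one arc
      have h6 : SA R a b i (a z) := by
        by_contra h7
        by_cases h8 : a z < i
        · exact h7 ((h5.between (k := i) (by omega) (by omega)).symm)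
        · exact h7 ((h1.between (k := a z) (by omega) (by omega)))
      have h7 := he3 z z' hzz ⟨⟨h6, h6.trans h5⟩, hz1, hz2⟩
      exact h7.2
    · obtain ⟨h6, h7⟩ := arcs_eq hE hzz h5 hD.ab
      constructor
      · by_cases h8 : SA R a b i (a z)
        · have h9 : ¬ SA R a b i (b z) := fun h => h5 (h8.symm.trans h)
          have h10 : z ∈ Bs ∨ z ∈ Cs := by
            by_cases h11 : ((b z < i ↔ b z ≤ d) ↔ (i' < i ↔ i' ≤ d))
            · exact Or.inl (Or.inl ⟨h8, h9, h11⟩)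
            · exact Or.inr (Or.inl ⟨h8, h9, h11⟩)
          have h11 := hpl z z' hzz h10 (by rw [hposa z h8]; exact hz1)
          rw [hposa z' (h8.trans h6)] at h11
          exact h11
        · have h9 : a z < i := by
            by_contra h10
            exact h8 (h1.between (k := a z) (by omega) (by omega))
          by_contra h10
          exact h8 ((h6.between (k := i) (by omega) (by omega)).symm)
      · by_cases h8 : SA R a b i (b z)
        · have h9 : ¬ SA R a b i (a z) := fun h => h5 (h.symm.trans h8)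
          have h9' : ¬ SA R a b i (a z') := fun h => h9 (h.trans h6.symm)
          have h10 : z' ∈ Bs ∨ z' ∈ Cs := by
            have h12 : SA R a b i (b z') := h8.trans h7
            by_cases h11 : ((a z' < i ↔ a z' ≤ d) ↔ (i' < i ↔ i' ≤ d))
            · exact Or.inl (Or.inr ⟨h9', h12, h11⟩)
            · exact Or.inr (Or.inr ⟨h9', h12, h11⟩)
          by_contra hcon
          have h11 := hpl z' z (hE.symm hzz) h10 (by rw [hposb z' h9']; omega)
          rw [hposb z h9] at h11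
          omega
        · have h9 : ¬ SA R a b i (b z') := fun h => h8 (h.trans h7.symm)
          by_contra hcon
          have h10 : b z' < i := by
            by_contra h11
            exact h9 (h1.between (k := b z') (by omega) (by omega))
          exact h9 ((h7.symm.between (k := i) (by omega) (by omega)).symm)
  have := h1 e hgood
  omega

end Pool.Agent.J4.H77.CG
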