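import Pool.Agent.J4.H77.CG.Link

/-!
# Invariant cuts between two points of a frame
-/

set_option autoImplicit false
set_option linter.unusedVariables false

namespace Pool.Agent.J4.H77.CG

open Relation

variable {V : Type}

section
variable {E R : V → V → Prop} {B C Ng Nb Nc : Set V} {a b : V → ℤ} {p q : ℤ}
  {L Rr Z N2 : Set V}

/-- If the gap is covered by chords there are linked chords. -/
theorem IsGap.linked [Finite V] (h : IsGap E R B C Ng Nb Nc a b p q L Rr Z N2)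
    (hcov : ∀ e, p ≤ e → e < q → ∃ z ∈ Ng, z ∉ N2 ∧ a z ≤ e ∧ e < b z) :
    (∃ z, z ∈ St E L Rr Z) ∧ ∃ z, z ∈ St E Rr L Z := by
  classical
  have := Fintype.ofFinite V
  let T : Set V := {u | u ∈ Ng ∧ ((u ∈ L ∧ p < b u) ∨ (u ∈ Z ∧ p < a u ∧ b u < q ∧
    ∃ m', ReflTransGen (Within E Z) u m' ∧ ∃ z0 ∈ L, z0 ∈ Ng ∧ p < b z0 ∧ E m' z0))}
  have hTne : ∃ u, u ∈ T := by
    obtain ⟨z, hz, h1, h2, h3⟩ := hcov p (le_refl _) h.pq
    have h4 := h.ne z hz
    exact ⟨z, hz, Or.inl ⟨h.ofL z hz h1 (by omega) (by omega), by omega⟩⟩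
  obtain ⟨u, hu, hmax⟩ : ∃ u ∈ T, ∀ v ∈ T, b v ≤ b u := by
    obtain ⟨u, hu1, hu2⟩ := Set.exists_max_image T b (Set.toFinite T) hTne
    exact ⟨u, hu1, hu2⟩
  have hub : p < b u ∧ b u < q := by
    rcases hu with ⟨h1, ⟨h2, h3⟩ | ⟨h2, h3, h4, _⟩⟩
    · exact ⟨h3, (h.locL u h2 h1).2⟩
    · have := h.ab u h1
      exact ⟨by omega, h4⟩
  obtain ⟨z, hz, hz2, hz3, hz4⟩ := hcov (b u) hub.1.le hub.2
  have hz5 := h.d3 z hz u hu.1
  -- a chord over the end of `u` on the right of `p` meets `T`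
  have key : p < a z → ∃ t ∈ T, E t z := by
    intro hpa
    by_contra hcon
    push Not at hcon
    rcases hu with ⟨h1, ⟨h2, h3⟩ | ⟨h2, h3, h4, m', h5, z0, hz0, hz0g, hz0p, h6⟩⟩
    · refine hcon u ⟨h1, Or.inl ⟨h2, h3⟩⟩ ?_
      rw [h.c3 u h1 z hz]
      have := h.locL u h2 h1
      unfold Cross
      omega
    · have huT : u ∈ T := ⟨h1, Or.inr ⟨h2, h3, h4, m', h5, z0, hz0, hz0g, hz0p, h6⟩⟩
      have h7 := hcon u huT
      rw [h.c3 u h1 z hz] at h7
      have hne : u ≠ z := by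
        rintro rfl
        omega
      have h8 := h.d4 u h1 z hz hne
      have h9 := h.ab u h1
      have hin : a z < a u ∧ b u < b z := by
        unfold Cross at h7
        omega
      obtain ⟨h10, h11⟩ := h.walk hz h1 h5 hin
      rcases h11 with ⟨m, h12, h13⟩ | h12
      · obtain ⟨h14, h15, h16⟩ := h.conn_mid h12 h1 h3 h4
        refine hcon m ⟨h14, Or.inr ⟨within_mem h12 h2, h15, h16, m',
          (within_symm h.symm h12).trans h5, z0, hz0, hz0g, hz0p, h6⟩⟩ h13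
      · have h13 := (h.c3 m' h10 z0 hz0g).1 h6
        have h14 := h.locL z0 hz0 hz0g
        refine hcon z0 ⟨hz0g, Or.inl ⟨hz0, hz0p⟩⟩ ?_
        rw [h.c3 z0 hz0g z hz]
        unfold Cross at h13 ⊢
        omega
  rcases h.cover z hz hz2 with h1 | h1 | h1
  · exfalso
    have := hmax z ⟨hz, Or.inl ⟨h1, by omega⟩⟩
    omega
  · obtain ⟨t, ht, het⟩ := key (h.locR z h1 hz).1
    rcases ht with ⟨h2, ⟨h3, h4⟩ | ⟨h3, h4, h5, m', h6, z0, hz0, hz0g, hz0p, h7⟩⟩
    · exact ⟨⟨t, h3, Or.inl ⟨z, h1, het⟩⟩, ⟨z, h1, Or.inl ⟨t, h3, h.symm _ _ het⟩⟩⟩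
    · have ht : t ∈ MZ E L Rr Z := ⟨h3, ⟨m', ⟨z0, hz0, h7⟩, h6⟩, ⟨t, ⟨z, h1, het⟩, ReflTransGen.refl⟩⟩
      have hm' : m' ∈ MZ E L Rr Z := MZ_conn h.symm ht h6
      refine ⟨⟨z0, hz0, Or.inr ⟨m', hm', h.symm _ _ h7⟩⟩, ⟨z, h1, Or.inr ⟨t, ?_, h.symm _ _ het⟩⟩⟩
      rw [MZ_comm]
      exact ht
  · exfalso
    have h2 := h.locZ z h1 hz
    have h2' := h.ab z hz
    have h3 : p < a z ∧ b z < q := by omega
    obtain ⟨t, ht, het⟩ := key h3.1
    have : z ∈ T := by
      refine ⟨hz, Or.inr ⟨h1, h3.1, h3.2, ?_⟩⟩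
      rcases ht with ⟨h4, ⟨h5, h6⟩ | ⟨h5, h6, h7, m', h8, z0, hz0, hz0g, hz0p, h9⟩⟩
      · exact ⟨z, ReflTransGen.refl, t, h5, h4, h6, h.symm _ _ het⟩
      · exact ⟨m', ReflTransGen.head ⟨h1, h5, h.symm _ _ het⟩ h8, z0, hz0, hz0g, hz0p, h9⟩
    have := hmax z this
    omega

/-- A component of `Z` over a cut which is on the right of a linked end does not meet other
chords of `L`. -/
theorem IsGap.no_L (h : IsGap E R B C Ng Nb Nc a b p q L Rr Z N2) {e : ℤ}
    (he : (∃ z ∈ St E L Rr Z, b z ≤ e) ∨ ∃ y ∈ St E Rr L Z, a y ≤ e) {z : V} (hz : z ∈ Z)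
    (hzg : z ∈ Ng) (hz1 : p < a z) (hz2 : b z < q) (hz4 : e < b z)
    (hMM : z ∉ MM E L Rr Z) {m u : V} (hc : ReflTransGen (Within E Z) z m) (hu : u ∈ L)
    (hug : u ∈ Ng) : ¬ E m u := by
  intro hmu
  have hnL : ∀ m', ReflTransGen (Within E Z) z m' → ∀ t, t ∈ St E L Rr Z → ¬ E m' t :=
    fun m' hm' t ht ht' => hMM ⟨hz, m', ⟨t, Or.inl ht, ht'⟩, hm'⟩
  have hnR : ∀ m', ReflTransGen (Within E Z) z m' → ∀ t, t ∈ St E Rr L Z → ¬ E m' t :=
    fun m' hm' t ht ht' => hMM ⟨hz, m', ⟨t, Or.inr ht, ht'⟩, hm'⟩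
  obtain ⟨hmg, hm1, hm2⟩ := h.conn_mid hc hzg hz1 hz2
  have h1 := (h.c3 m hmg u hug).1 hmu
  have h2 := h.locL u hu hug
  rcases he with ⟨z0, hz0, hz0e⟩ | ⟨y0, hy0, hy0e⟩
  · obtain ⟨h3, h4, h5, h6⟩ := h.loc_St hz0
    have key : b z0 < a m := by
      have : ∀ m', ReflTransGen (Within E Z) z m' → b z0 < a m' := by
        intro m' hm'
        induction hm' with
        | refl =>
          have h7 := hnL z ReflTransGen.refl z0 hz0
          rw [h.c3 z hzg z0 h3] at h7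
          have h8 := h.d3 z hzg z0 h3
          unfold Cross at h7
          omega
        | @tail s t hs hst ih =>
          obtain ⟨h9, h10, h11⟩ := h.conn_mid hs hzg hz1 hz2
          obtain ⟨h12, h13, h14⟩ := h.conn_mid (hs.tail hst) hzg hz1 hz2
          have h7 := hnL t (hs.tail hst) z0 hz0
          rw [h.c3 t h12 z0 h3] at h7
          have h8 := h.d3 t h12 z0 h3
          have h15 := (h.c3 s h9 t h12).1 hst.2.2
          unfold Cross at h7 h15
          omega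
      exact this m hc
    refine hnL m hc u (h.St_up hu hug hz0 ?_) hmu
    unfold Cross at h1
    omega
  · obtain ⟨h3, h4, h5, h6⟩ := h.loc_St' hy0
    have key : a y0 < a m := by
      have : ∀ m', ReflTransGen (Within E Z) z m' → a y0 < a m' := by
        intro m' hm'
        induction hm' with
        | refl =>
          have h7 := hnR z ReflTransGen.refl y0 hy0
          rw [h.c3 z hzg y0 h3] at h7
          have hne : z ≠ y0 := by
            rintro rfl
            exact h.disRZ z hy0.1 hz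
          have h8 := h.d4 z hzg y0 h3 hne
          unfold Cross at h7
          omega
        | @tail s t hs hst ih =>
          obtain ⟨h9, h10, h11⟩ := h.conn_mid hs hzg hz1 hz2
          obtain ⟨h12, h13, h14⟩ := h.conn_mid (hs.tail hst) hzg hz1 hz2
          have h7 := hnR t (hs.tail hst) y0 hy0
          rw [h.c3 t h12 y0 h3] at h7
          have hne : t ≠ y0 := by
            rintro rfl
            exact h.disRZ t hy0.1 hst.2.1
          have h8 := h.d4 t h12 y0 h3 hne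
          have h15 := (h.c3 s h9 t h12).1 hst.2.2
          unfold Cross at h7 h15
          omega
      exact this m hc
    refine hnL m hc u (h.St_over hu hug hy0 ?_) hmu
    unfold Cross at h1
    omega

/-- The chords over a cut between linked ends. -/
theorem IsGap.cut_eq (h : IsGap E R B C Ng Nb Nc a b p q L Rr Z N2) {e : ℤ}
    (he1 : (∃ z ∈ St E L Rr Z, b z ≤ e) ∨ ∃ y ∈ St E Rr L Z, a y ≤ e)
    (he2 : (∃ z ∈ St E L Rr Z, e < b z) ∨ ∃ y ∈ St E Rr L Z, e < a y) :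
    {z | z ∈ Ng ∧ a z ≤ e ∧ e < b z} = {z | z ∈ N2 ∨ (z ∈ St E L Rr Z ∧ e < b z) ∨
      (z ∈ St E Rr L Z ∧ a z ≤ e) ∨
      ((z ∈ MM E L Rr Z ∧ z ∈ Ng ∧ p < a z ∧ b z < q) ∧ a z ≤ e ∧ e < b z)} := by
  have hpe : p < e := by
    rcases he1 with ⟨z, hz, h1⟩ | ⟨y, hy, h1⟩
    · have := h.loc_St hz
      omega
    · have := h.loc_St' hy
      omega
  have heq : e < q := by
    rcases he2 with ⟨z, hz, h1⟩ | ⟨y, hy, h1⟩
    · have := h.loc_St hz
      omega
    · have := h.loc_St' hy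
      omega
  ext z
  constructor
  · rintro ⟨hzg, h1, h2⟩
    by_cases hz2 : z ∈ N2
    · exact Or.inl hz2
    rcases h.cover z hzg hz2 with h3 | h3 | h3
    · refine Or.inr (Or.inl ⟨?_, h2⟩)
      rcases he1 with ⟨z0, hz0, h4⟩ | ⟨y0, hy0, h4⟩
      · exact h.St_up h3 hzg hz0 (by omega)
      · exact h.St_over h3 hzg hy0 (by omega)
    · refine Or.inr (Or.inr (Or.inl ⟨?_, h1⟩))
      rcases he2 with ⟨z0, hz0, h4⟩ | ⟨y0, hy0, h4⟩
      · exact h.mirror.St_over h3 hzg hz0 (by omega)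
      · exact h.mirror.St_up h3 hzg hy0 (by omega)
    · refine Or.inr (Or.inr (Or.inr ?_))
      have h4 : p < a z ∧ b z < q := by
        have := h.locZ z h3 hzg
        omega
      refine ⟨⟨?_, hzg, h4.1, h4.2⟩, h1, h2⟩
      by_contra hMM
      have hnL : ∀ {m u : V}, ReflTransGen (Within E Z) z m → u ∈ L → u ∈ Ng → ¬ E m u :=
        fun hc hu hug => h.no_L he1 h3 hzg h4.1 h4.2 h2 hMM hc hu hug
      have hnR : ∀ {m u : V}, ReflTransGen (Within E Z) z m → u ∈ Rr → u ∈ Ng → ¬ E m u := by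
        intro m u hc hu hug
        refine h.mirror.no_L (e := - e - 1) ?_ h3 hzg (by omega) (by omega) (by omega)
          (by rw [← MM_comm]; exact hMM) hc hu hug
        rcases he2 with ⟨z0, hz0, h5⟩ | ⟨y0, hy0, h5⟩
        · exact Or.inr ⟨z0, hz0, by omega⟩
        · exact Or.inl ⟨y0, hy0, by omega⟩
      obtain ⟨z', h5, o, ho, h6⟩ := h.att z hzg
      have hall : ∀ t, ReflTransGen (Within E Ng) z t → ReflTransGen (Within E Z) z t := by
        intro t ht
        induction ht with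
        | refl => exact ReflTransGen.refl
        | @tail s t hs hst ih =>
          obtain ⟨h8, h9, h10⟩ := h.conn_mid ih hzg h4.1 h4.2
          refine ih.tail ⟨within_mem ih h3, ?_, hst.2.2⟩
          have ht2 : t ∉ N2 := by
            intro ht2
            obtain ⟨h11, h12, h13⟩ := (h.n2 t).1 ht2
            have h14 := (h.c3 s h8 t h11).1 hst.2.2
            unfold Cross at h14
            omega
          rcases h.cover t hst.2.1 ht2 with h11 | h11 | h11
          · exact absurd hst.2.2 (hnL ih h11 hst.2.1)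
          · exact absurd hst.2.2 (hnR ih h11 hst.2.1)
          · exact h11
      have h7 := hall z' h5
      obtain ⟨h8, h9, h10⟩ := h.conn_mid h7 hzg h4.1 h4.2
      exact h.nopt z' h8 h9 h10 o ho h6
  · rintro (h1 | ⟨h1, h2⟩ | ⟨h1, h2⟩ | ⟨⟨_, h1, _, _⟩, h2, h3⟩)
    · obtain ⟨h2, h3, h4⟩ := (h.n2 z).1 h1
      exact ⟨h2, by omega, by omega⟩
    · have := h.loc_St h1
      exact ⟨this.1, by omega, h2⟩
    · have := h.loc_St' h1
      exact ⟨this.1, h2, by omega⟩
    · exact ⟨h1, h2, h3⟩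

end

end Pool.Agent.J4.H77.CG
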