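import Pool.Agent.J4.H77.CG.Sides

/-!
# The digraph of an edge

For an edge `r s` there is an arc from `y` to `z` if the adjacency of `y` and `z` is not the
conjunction of the adjacency of `y` to `r` and of `z` to `s`.
-/

set_option autoImplicit false

namespace Pool.Agent.J4.H77.CG

open Relation

section
variable {V : Type} (E : V → V → Prop) (r s : V)

/-- the arcs -/
def Arc (y z : V) : Prop := y ≠ r ∧ y ≠ s ∧ z ≠ r ∧ z ≠ s ∧ ¬ (E y z ↔ (E r y ∧ E s z))

/-- reachability -/
def RD : V → V → Prop := ReflTransGen (Arc E r s)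

/-- the strongly connected component -/
def Cls (x : V) : Set V := {y | RD E r s x y ∧ RD E r s y x}

/-- the number of vertices which can be reached -/
noncomputable def lev (x : V) : ℕ := {y | RD E r s x y}.ncard

/-- closed sets -/
def Clo (F : Set V) : Prop := ∀ y ∈ F, ∀ z, Arc E r s y z → z ∈ F

end

section
variable {V : Type} {E : V → V → Prop} {r s : V}

theorem arc_swap (hs : ∀ x y, E x y → E y x) {y z : V} : Arc E s r z y ↔ Arc E r s y z := by
  unfold Arc
  have h1 : E z y ↔ E y z := ⟨hs _ _, hs _ _⟩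
  rw [h1]
  tauto

theorem rd_swap (hs : ∀ x y, E x y → E y x) {y z : V} : RD E s r z y ↔ RD E r s y z := by
  unfold RD
  have h1 : Arc E s r = Function.swap (Arc E r s) := by
    funext a b
    exact propext (arc_swap hs)
  rw [h1, reflTransGen_swap]

theorem cls_swap (hs : ∀ x y, E x y → E y x) (x : V) : Cls E s r x = Cls E r s x := by
  ext y
  show RD E s r x y ∧ RD E s r y x ↔ RD E r s x y ∧ RD E r s y x
  exact (and_congr (rd_swap hs) (rd_swap hs)).trans and_comm

theorem rd_ne {x y : V} (h : RD E r s x y) (hr : x ≠ r) (hs : x ≠ s) : y ≠ r ∧ y ≠ s := by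
  induction h with
  | refl => exact ⟨hr, hs⟩
  | tail _ h2 _ => exact ⟨h2.2.2.1, h2.2.2.2.1⟩

theorem cls_self (x : V) : x ∈ Cls E r s x := ⟨ReflTransGen.refl, ReflTransGen.refl⟩

theorem cls_symm {x y : V} (h : y ∈ Cls E r s x) : x ∈ Cls E r s y := ⟨h.2, h.1⟩

theorem cls_trans {x y z : V} (h : y ∈ Cls E r s x) (h' : z ∈ Cls E r s y) :
    z ∈ Cls E r s x := ⟨ReflTransGen.trans h.1 h'.1, ReflTransGen.trans h'.2 h.2⟩

theorem cls_eq {x y : V} (h : y ∈ Cls E r s x) : Cls E r s y = Cls E r s x := by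
  ext z
  exact ⟨fun h' => cls_trans h h', fun h' => cls_trans (cls_symm h) h'⟩

theorem lev_eq {x y : V} (h : y ∈ Cls E r s x) : lev E r s y = lev E r s x := by
  unfold lev
  congr 1
  ext z
  exact ⟨fun h' => ReflTransGen.trans h.1 h', fun h' => ReflTransGen.trans h.2 h'⟩

theorem lev_lt [Finite V] {x y : V} (h : RD E r s x y) (h' : ¬ RD E r s y x) :
    lev E r s y < lev E r s x := by
  unfold lev
  refine Set.ncard_lt_ncard ?_ (Set.toFinite _)
  refine ⟨fun z hz => ReflTransGen.trans h hz, fun hc => h' ?_⟩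
  exact hc (show x ∈ {y | RD E r s x y} from ReflTransGen.refl)

/-- The adjacency between two components. -/
theorem cross_adj [Finite V] {x y : V} (hxr : x ≠ r) (hxs : x ≠ s) (hyr : y ≠ r) (hys : y ≠ s)
    (h : y ∉ Cls E r s x) (hl : lev E r s x ≤ lev E r s y) : E x y ↔ (E r x ∧ E s y) := by
  by_contra hcon
  have h1 : RD E r s x y := ReflTransGen.single ⟨hxr, hxs, hyr, hys, hcon⟩
  have h2 := lev_lt h1 (fun h3 => h ⟨h1, h3⟩)
  omega

theorem Clo.rd {F : Set V} (hF : Clo E r s F) {y z : V} (hy : y ∈ F) (h : RD E r s y z) :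
    z ∈ F := by
  induction h with
  | refl => exact hy
  | tail _ h2 ih => exact hF _ ih _ h2

theorem Clo.cls {F : Set V} (hF : Clo E r s F) {y : V} (hy : y ∈ F) : Cls E r s y ⊆ F :=
  fun _ hz => hF.rd hy hz.1

theorem clo_of_side (hs : ∀ x y, E x y → E y x) {U : Set V} (hU : Side E U) (hsU : s ∈ U)
    (hrU : r ∉ U) (hrs : E r s) : Clo E r s (U \ {s}) := by
  rintro y ⟨hy, -⟩ z ⟨h1, h2, h3, h4, h5⟩
  refine ⟨?_, fun h => h4 h⟩
  by_contra hz
  have hr : ∃ v ∈ U, E v r := ⟨s, hsU, hs _ _ hrs⟩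
  apply h5
  by_cases hsz : E s z
  · have hz' : ∃ v ∈ U, E v z := ⟨s, hsU, hsz⟩
    constructor
    · intro h
      exact ⟨hs _ _ (hU z r hz hrU hz' hr y hy h), hsz⟩
    · intro h
      exact hU r z hrU hz hr hz' y hy (hs _ _ h.1)
  · constructor
    · intro h
      exact absurd (hU r z hrU hz hr ⟨y, hy, h⟩ s hsU (hs _ _ hrs)) hsz
    · intro h
      exact absurd h.2 hsz

/-- The neighbourhood of a vertex outside of a component. -/
theorem outside [Finite V] (hs : ∀ x y, E x y → E y x) {w z : V} (hwr : w ≠ r) (hws : w ≠ s)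
    (hzr : z ≠ r) (hzs : z ≠ s) (hz : z ∉ Cls E r s w) :
    (∀ y ∈ Cls E r s w, ¬ E y z) ∨ (∀ y ∈ Cls E r s w, E y z ↔ E y r) ∨
      (∀ y ∈ Cls E r s w, E y z ↔ E y s) := by
  have hc : ∀ {x y : V}, E x y ↔ E y x := ⟨hs _ _, hs _ _⟩
  rcases le_total (lev E r s z) (lev E r s w) with hl | hl
  · have h1 : ∀ y ∈ Cls E r s w, (E y z ↔ E r z ∧ E s y) := by
      intro y hy
      have h2 := rd_ne hy.1 hwr hws
      rw [hc (x := y) (y := z)]
      refine cross_adj hzr hzs h2.1 h2.2 (fun h => hz ?_) ?_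
      · rw [← cls_eq hy]
        exact cls_symm h
      · rw [lev_eq hy]
        exact hl
    by_cases h3 : E r z
    · right; right
      intro y hy
      rw [h1 y hy, hc (x := y) (y := s)]
      tauto
    · left
      intro y hy
      rw [h1 y hy]
      tauto
  · have h1 : ∀ y ∈ Cls E r s w, (E y z ↔ E r y ∧ E s z) := by
      intro y hy
      have h2 := rd_ne hy.1 hwr hws
      refine cross_adj h2.1 h2.2 hzr hzs (fun h => hz ?_) ?_
      · rw [← cls_eq hy]
        exact h
      · rw [lev_eq hy]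
        exact hl
    by_cases h3 : E s z
    · right; left
      intro y hy
      rw [h1 y hy, hc (x := y) (y := r)]
      tauto
    · left
      intro y hy
      rw [h1 y hy]
      tauto

/-- A component together with `r` and `s` is connected. -/
theorem attached [Finite V] (hs : ∀ x y, E x y → E y x) (hrs : E r s) {w : V} (hwr : w ≠ r)
    (hws : w ≠ s) (hc : ReflTransGen E r w) {v : V} (hv : v ∈ Cls E r s w) :
    ReflTransGen (Within E {v | v ∈ Cls E r s w ∨ v = r ∨ v = s}) r v := by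
  by_contra hcon
  set S : Set V := {v | v ∈ Cls E r s w ∨ v = r ∨ v = s} with hS
  have hrS : r ∈ S := Or.inr (Or.inl rfl)
  have hsS : s ∈ S := Or.inr (Or.inr rfl)
  have k1 : ∀ m, RD E r s v m → RD E r s m v → ¬ ReflTransGen (Within E S) r m := by
    intro m hm
    induction hm with
    | refl => exact fun _ => hcon
    | @tail m m' h1 h2 ih =>
      intro h3 h4
      have h5 : RD E r s m v := ReflTransGen.head h2 h3
      have h6 := ih h5
      have hmS : m ∈ S := Or.inl (cls_trans hv ⟨h1, h5⟩)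
      have hmS' : m' ∈ S := Or.inl (cls_trans hv ⟨ReflTransGen.tail h1 h2, h3⟩)
      apply h2.2.2.2.2
      constructor
      · intro h7
        exact absurd (h4.tail ⟨hmS', hmS, hs _ _ h7⟩) h6
      · intro h7
        exact absurd (ReflTransGen.single ⟨hrS, hmS, h7.1⟩) h6
  have k2 : ∀ u ∈ Cls E r s w, ¬ ReflTransGen (Within E S) r u := by
    intro u hu
    have h1 : u ∈ Cls E r s v := cls_trans (cls_symm hv) hu
    exact k1 u h1.1 h1.2
  have k3 : ∀ u ∈ Cls E r s w, ∀ z, z ∉ Cls E r s w → ¬ E u z := by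
    intro u hu z hz huz
    have hr' : ∀ y ∈ Cls E r s w, ¬ E y r := fun y hy h =>
      k2 y hy (ReflTransGen.single ⟨hrS, Or.inl hy, hs _ _ h⟩)
    have hs' : ∀ y ∈ Cls E r s w, ¬ E y s := fun y hy h =>
      k2 y hy ((ReflTransGen.single ⟨hrS, hsS, hrs⟩).tail ⟨hsS, Or.inl hy, hs _ _ h⟩)
    by_cases hzr : z = r
    · subst hzr
      exact hr' u hu huz
    by_cases hzs : z = s
    · subst hzs
      exact hs' u hu huz
    rcases outside hs hwr hws hzr hzs hz with h | h | h
    · exact h u hu huz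
    · exact hr' u hu ((h u hu).1 huz)
    · exact hs' u hu ((h u hu).1 huz)
  have k4 : ∀ m, ReflTransGen E r m → m ∉ Cls E r s w := by
    intro m hm
    induction hm with
    | refl => exact fun h => (rd_ne h.1 hwr hws).1 rfl
    | @tail m m' _ h2 ih => exact fun h => k3 m' h m ih (hs _ _ h2)
  exact k4 w hc (cls_self w)

/-- Sides of the graph on a component, `r` and `s`. -/
theorem side_lift [Finite V] (hs : ∀ x y, E x y → E y x) (hrs : E r s) {w x : V} (hwr : w ≠ r)
    (hws : w ≠ s) {U : Set V} (hU : ∀ u u', (u ∈ Cls E r s w ∨ u = r ∨ u = s) →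
      (u' ∈ Cls E r s w ∨ u' = r ∨ u' = s) → u ∉ U → u' ∉ U → (∃ v ∈ U, E v u) →
      (∃ v ∈ U, E v u') → ∀ v ∈ U, E v u → E v u')
    (hsub : ∀ u ∈ U, u ∈ Cls E r s w ∨ u = r ∨ u = s) (hr : r ∉ U) (hw : w ∉ U) (hx : x ∈ U)
    (hxC : x ∈ Cls E r s w) : Side E U ∧ U ⊆ Cls E r s w := by
  have hsU : s ∉ U := by
    intro hsU
    have hr' : ∃ v ∈ U, E v r := ⟨s, hsU, hs _ _ hrs⟩
    have k1 : ∀ m, RD E r s m w → m ∈ Cls E r s w → m ∉ U := by
      intro m hm
      induction hm using ReflTransGen.head_induction_on with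
      | refl => exact fun _ => hw
      | @head m m' h1 h2 ih =>
        intro hmC hmU
        have hmC' : m' ∈ Cls E r s w := ⟨ReflTransGen.tail hmC.1 h1, h2⟩
        have hmU' := ih hmC'
        apply h1.2.2.2.2
        by_cases hsz : E s m'
        · have hz' : ∃ v ∈ U, E v m' := ⟨s, hsU, hsz⟩
          constructor
          · intro h
            exact ⟨hs _ _ (hU m' r (Or.inl hmC') (Or.inr (Or.inl rfl)) hmU' hr hz' hr' m hmU h),
              hsz⟩
          · intro h
            exact hU r m' (Or.inr (Or.inl rfl)) (Or.inl hmC') hr hmU' hr' hz' m hmU (hs _ _ h.1)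
        · constructor
          · intro h
            exact absurd (hU r m' (Or.inr (Or.inl rfl)) (Or.inl hmC') hr hmU' hr' ⟨m, hmU, h⟩ s
              hsU (hs _ _ hrs)) hsz
          · intro h
            exact absurd h.2 hsz
    exact k1 x hxC.2 hxC hx
  have hUC : U ⊆ Cls E r s w := by
    intro u hu
    rcases hsub u hu with h | rfl | rfl
    · exact h
    · exact absurd hu hr
    · exact absurd hu hsU
  refine ⟨?_, hUC⟩
  have rep : ∀ u, u ∉ U → (∃ v ∈ U, E v u) → ∃ u', (u' ∈ Cls E r s w ∨ u' = r ∨ u' = s) ∧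
      u' ∉ U ∧ ∀ v ∈ U, (E v u ↔ E v u') := by
    rintro u hu ⟨v, hv, hvu⟩
    by_cases h1 : u ∈ Cls E r s w ∨ u = r ∨ u = s
    · exact ⟨u, h1, hu, fun _ _ => Iff.rfl⟩
    · push Not at h1
      rcases outside hs hwr hws h1.2.1 h1.2.2 h1.1 with h | h | h
      · exact absurd hvu (h v (hUC hv))
      · exact ⟨r, Or.inr (Or.inl rfl), hr, fun v hv => h v (hUC hv)⟩
      · exact ⟨s, Or.inr (Or.inr rfl), hsU, fun v hv => h v (hUC hv)⟩
  rintro u u' hu hu' hn hn' v hv hvu
  obtain ⟨t, h1, h2, h3⟩ := rep u hu hn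
  obtain ⟨t', h1', h2', h3'⟩ := rep u' hu' hn'
  obtain ⟨p, hp, hpu⟩ := hn
  obtain ⟨p', hp', hpu'⟩ := hn'
  rw [h3' v hv]
  exact hU t t' h1 h1' h2 h2' ⟨p, hp, (h3 p hp).1 hpu⟩ ⟨p', hp', (h3' p' hp').1 hpu'⟩ v hv
    ((h3 v hv).1 hvu)

end

end Pool.Agent.J4.H77.CG
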