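import Mathlib

/-!
# Equitable relations

`R` is an equitable relation for the graph with the adjacency relation `E` if related vertices
have, up to a bijection which moves every vertex to a related one, the same neighbours.
-/

set_option autoImplicit false

namespace Pool.Agent.J4.H77.CG

open Relation

/-- equitable relations -/
structure Equit {V : Type} (E R : V → V → Prop) : Prop where
  symm : ∀ {x y : V}, R x y → R y x
  step : ∀ {x y : V}, R x y → ∃ β : V ≃ V, ∀ z, R z (β z) ∧ (E x z ↔ E y (β z))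

/-- invariant sets -/
def Inv {V : Type} (R : V → V → Prop) (S : Set V) : Prop := ∀ x y, R x y → x ∈ S → y ∈ S

variable {V : Type} {E R : V → V → Prop}

theorem Inv.iff (hE : Equit E R) {S : Set V} (h : Inv R S) {x y : V} (hxy : R x y) :
    x ∈ S ↔ y ∈ S := ⟨h x y hxy, h y x (hE.symm hxy)⟩

theorem Inv.of_iff {S : Set V} (h : ∀ x y, R x y → (x ∈ S ↔ y ∈ S)) : Inv R S :=
  fun x y hxy hx => (h x y hxy).1 hx

theorem Inv.and (hE : Equit E R) {p q : V → Prop} (hp : Inv R {x | p x}) (hq : Inv R {x | q x}) :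
    Inv R {x | p x ∧ q x} :=
  Inv.of_iff fun _ _ h => and_congr (hp.iff hE h) (hq.iff hE h)

theorem Inv.or (hE : Equit E R) {p q : V → Prop} (hp : Inv R {x | p x}) (hq : Inv R {x | q x}) :
    Inv R {x | p x ∨ q x} :=
  Inv.of_iff fun _ _ h => or_congr (hp.iff hE h) (hq.iff hE h)

theorem Inv.not (hE : Equit E R) {p : V → Prop} (hp : Inv R {x | p x}) :
    Inv R {x | ¬ p x} :=
  Inv.of_iff fun _ _ h => not_congr (hp.iff hE h)

/-- having a neighbour in an invariant set -/
theorem Inv.nbr (hE : Equit E R) {T : Set V} (hT : Inv R T) : Inv R {x | ∃ y ∈ T, E x y} := by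
  rintro x x' hxx ⟨y, hy, hxy⟩
  obtain ⟨β, hβ⟩ := hE.step hxx
  exact ⟨β y, hT _ _ (hβ y).1 hy, (hβ y).2.1 hxy⟩

/-- the edges within `S` -/
def Within (E : V → V → Prop) (S : Set V) (u v : V) : Prop := u ∈ S ∧ v ∈ S ∧ E u v

/-- being joined within an invariant set to an invariant set -/
theorem Inv.reach (hE : Equit E R) {S T : Set V} (hS : Inv R S) (hT : Inv R T) :
    Inv R {x | ∃ y ∈ T, ReflTransGen (Within E S) x y} := by
  rintro x x' hxx ⟨y, hy, hxy⟩
  revert x'
  induction hxy using ReflTransGen.head_induction_on with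
  | refl => exact fun x' hxx => ⟨x', hT _ _ hxx hy, ReflTransGen.refl⟩
  | head h1 _ ih =>
    intro x' hxx
    obtain ⟨h2, h3, h4⟩ := h1
    obtain ⟨β, hβ⟩ := hE.step hxx
    obtain ⟨y', hy', h5⟩ := ih _ (hβ _).1
    exact ⟨y', hy', ReflTransGen.head ⟨hS _ _ hxx h2, hS _ _ (hβ _).1 h3, (hβ _).2.1 h4⟩ h5⟩

theorem Within.symm (hs : ∀ x y, E x y → E y x) {S : Set V} {u v : V} (h : Within E S u v) :
    Within E S v u := ⟨h.2.1, h.1, hs _ _ h.2.2⟩

theorem within_symm (hs : ∀ x y, E x y → E y x) {S : Set V} {u v : V}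
    (h : ReflTransGen (Within E S) u v) : ReflTransGen (Within E S) v u := by
  induction h with
  | refl => exact ReflTransGen.refl
  | tail _ h2 ih => exact ReflTransGen.head (h2.symm hs) ih

theorem within_mem {S : Set V} {u v : V} (h : ReflTransGen (Within E S) u v) (hu : u ∈ S) :
    v ∈ S := by
  induction h with
  | refl => exact hu
  | tail _ h2 _ => exact h2.2.1

/-- nested neighbourhoods of related vertices are equal -/
theorem nested [Finite V] (hE : Equit E R) {S : Set V} (hS : Inv R S) {x y : V} (hxy : R x y)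
    (h : ∀ z ∈ S, E x z → E y z) : ∀ z ∈ S, E y z → E x z := by
  classical
  have := Fintype.ofFinite V
  obtain ⟨β, hβ⟩ := hE.step hxy
  let A : Finset V := Finset.univ.filter fun z => z ∈ S ∧ E x z
  let B : Finset V := Finset.univ.filter fun z => z ∈ S ∧ E y z
  have h1 : A ⊆ B := by
    intro z hz
    simp only [A, B, Finset.mem_filter, Finset.mem_univ, true_and] at hz ⊢
    exact ⟨hz.1, h z hz.1 hz.2⟩
  have h2 : B.card ≤ A.card := by
    refine Finset.card_le_card_of_injOn β.symm ?_ β.symm.injective.injOn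
    intro z hz
    simp only [A, B, Finset.coe_filter, Finset.mem_univ, true_and, Set.mem_setOf_eq] at hz ⊢
    have h3 := hβ (β.symm z)
    rw [β.apply_symm_apply] at h3
    exact ⟨hS _ _ (hE.symm h3.1) hz.1, h3.2.2 hz.2⟩
  have h3 := Finset.eq_of_subset_of_card_le h1 h2
  intro z hz hyz
  have h4 : z ∈ B := by
    simp only [B, Finset.mem_filter, Finset.mem_univ, true_and]
    exact ⟨hz, hyz⟩
  rw [← h3] at h4
  simp only [A, Finset.mem_filter, Finset.mem_univ, true_and] at h4
  exact h4.2

/-- restriction of the edges to an invariant set -/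
theorem Equit.within (hE : Equit E R) {S : Set V} (hS : Inv R S) : Equit (Within E S) R where
  symm := hE.symm
  step := by
    intro x y hxy
    obtain ⟨β, hβ⟩ := hE.step hxy
    refine ⟨β, fun z => ⟨(hβ z).1, ?_⟩⟩
    unfold Within
    rw [hS.iff hE hxy, hS.iff hE (hβ z).1, (hβ z).2]

end Pool.Agent.J4.H77.CG
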