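import Pool.Agent.J4.H77.CG.Equit

/-!
# Frames: intervals and points on a line
-/

set_option autoImplicit false

namespace Pool.Agent.J4.H77.CG

open Relation

variable {V : Type}

/-- Two intervals with different ends cross. -/
def Cross (a b a' b' : ℤ) : Prop := (a < a' ∧ a' < b ∧ b < b') ∨ (a' < a ∧ a < b' ∧ b' < b)

/-- The vertices of `B` and `C` have one end `pos` in a segment, those of `Ng` have both ends
`a`, `b` in the segment, those of `Nb` (`Nc`) have both ends in the part of the circle which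
contains the other ends of `B` (of `C`). -/
structure IsFrame (E R : V → V → Prop) (B C Ng Nb Nc : Set V) (pos a b : V → ℤ) (σ : Prop) :
    Prop where
  eqt : Equit E R
  symm : ∀ x y, E x y → E y x
  invB : Inv R B
  invC : Inv R C
  invN : Inv R {x | x ∈ Ng ∨ x ∈ Nb ∨ x ∈ Nc}
  bc : ∀ x, x ∈ B → x ∉ C
  bn : ∀ x, x ∈ B ∨ x ∈ C → ¬ (x ∈ Ng ∨ x ∈ Nb ∨ x ∈ Nc)
  gb : ∀ x ∈ Ng, x ∉ Nb ∧ x ∉ Nc
  ab : ∀ z ∈ Ng, a z < b z
  d1 : ∀ x y, (x ∈ B ∨ x ∈ C) → (y ∈ B ∨ y ∈ C) → x ≠ y → pos x ≠ pos y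
  d2 : ∀ z ∈ Ng, ∀ x, (x ∈ B ∨ x ∈ C) → a z ≠ pos x ∧ b z ≠ pos x
  d3 : ∀ z ∈ Ng, ∀ z' ∈ Ng, a z ≠ b z'
  d4 : ∀ z ∈ Ng, ∀ z' ∈ Ng, z ≠ z' → a z ≠ a z' ∧ b z ≠ b z'
  c1 : ∀ x ∈ B, ∀ y ∈ C, (E x y ↔ (pos x < pos y ↔ σ))
  c2 : ∀ z ∈ Ng, ∀ x, (x ∈ B ∨ x ∈ C) → (E z x ↔ (a z < pos x ∧ pos x < b z))
  c3 : ∀ z ∈ Ng, ∀ z' ∈ Ng, (E z z' ↔ Cross (a z) (b z) (a z') (b z'))
  c4 : ∀ z ∈ Nb, ∀ z' ∈ Nc, ¬ E z z'
  c5 : ∀ z ∈ Nb, ∀ y ∈ C, ¬ E z y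
  c5' : ∀ z ∈ Nc, ∀ x ∈ B, ¬ E z x
  c6 : ∀ z ∈ Ng, ∀ o, E z o → o ∈ B ∨ o ∈ C ∨ o ∈ Ng
  att : ∀ z ∈ Ng, ∃ z', ReflTransGen (Within E Ng) z z' ∧ ∃ o, (o ∈ B ∨ o ∈ C) ∧ E z' o

section
variable {E R : V → V → Prop} {B C Ng Nb Nc : Set V} {pos a b : V → ℤ} {σ : Prop}

theorem IsFrame.inv_lo [Finite V] (hF : IsFrame E R B C Ng Nb Nc pos a b σ) {P Q : V}
    (hP : P ∈ B) (hQ : Q ∈ C) (hPQ : pos P < pos Q)
    (hno : ∀ x, (x ∈ B ∨ x ∈ C) → ¬ (pos P < pos x ∧ pos x < pos Q)) :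
    Inv R {x | x ∈ B ∧ pos x ≤ pos P} := by
  rintro x x' hxx ⟨hx, hle⟩
  have hx' : x' ∈ B := hF.invB _ _ hxx hx
  refine ⟨hx', ?_⟩
  by_contra hcon
  have h1 := hno x' (Or.inl hx')
  have h2 : pos x' ≠ pos Q := hF.d1 _ _ (Or.inl hx') (Or.inr hQ) (by
    rintro rfl
    exact hF.bc _ hx' hQ)
  have h3 : pos Q < pos x' := by omega
  by_cases hσ : σ
  · have h4 : ∀ y ∈ C, E x' y → E x y := by
      intro y hy hxy
      rw [hF.c1 _ hx' _ hy] at hxy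
      rw [hF.c1 _ hx _ hy]
      have := hxy.2 hσ
      exact ⟨fun _ => hσ, fun _ => by omega⟩
    have h5 := nested hF.eqt hF.invC (hF.eqt.symm hxx) h4 Q hQ (by
      rw [hF.c1 _ hx _ hQ]
      exact ⟨fun _ => hσ, fun _ => by omega⟩)
    rw [hF.c1 _ hx' _ hQ] at h5
    have := h5.2 hσ
    omega
  · have h4 : ∀ y ∈ C, E x y → E x' y := by
      intro y hy hxy
      rw [hF.c1 _ hx _ hy] at hxy
      rw [hF.c1 _ hx' _ hy]
      have : ¬ pos x < pos y := fun h => hσ (hxy.1 h)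
      exact ⟨fun h => by omega, fun h => absurd h hσ⟩
    have h5 := nested hF.eqt hF.invC hxx h4 Q hQ (by
      rw [hF.c1 _ hx' _ hQ]
      exact ⟨fun h => by omega, fun h => absurd h hσ⟩)
    rw [hF.c1 _ hx _ hQ] at h5
    exact hσ (h5.1 (by omega))

theorem IsFrame.inv_hi [Finite V] (hF : IsFrame E R B C Ng Nb Nc pos a b σ) {P Q : V}
    (hP : P ∈ B) (hQ : Q ∈ C) (hPQ : pos P < pos Q)
    (hno : ∀ x, (x ∈ B ∨ x ∈ C) → ¬ (pos P < pos x ∧ pos x < pos Q)) :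
    Inv R {y | y ∈ C ∧ pos Q ≤ pos y} := by
  rintro y y' hyy ⟨hy, hle⟩
  have hy' : y' ∈ C := hF.invC _ _ hyy hy
  refine ⟨hy', ?_⟩
  by_contra hcon
  have h1 := hno y' (Or.inr hy')
  have h2 : pos y' ≠ pos P := hF.d1 _ _ (Or.inr hy') (Or.inl hP) (by
    rintro rfl
    exact hF.bc _ hP hy')
  have h3 : pos y' < pos P := by omega
  have e1 : ∀ u ∈ C, ∀ v ∈ B, (E u v ↔ (pos v < pos u ↔ σ)) := by
    intro u hu v hv
    rw [← hF.c1 v hv u hu]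
    exact ⟨hF.symm _ _, hF.symm _ _⟩
  by_cases hσ : σ
  · have h4 : ∀ x ∈ B, E y' x → E y x := by
      intro x hx hxy
      rw [e1 _ hy' _ hx] at hxy
      rw [e1 _ hy _ hx]
      have := hxy.2 hσ
      exact ⟨fun _ => hσ, fun _ => by omega⟩
    have h5 := nested hF.eqt hF.invB (hF.eqt.symm hyy) h4 P hP (by
      rw [e1 _ hy _ hP]
      exact ⟨fun _ => hσ, fun _ => by omega⟩)
    rw [e1 _ hy' _ hP] at h5
    have := h5.2 hσ
    omega
  · have h4 : ∀ x ∈ B, E y x → E y' x := by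
      intro x hx hxy
      rw [e1 _ hy _ hx] at hxy
      rw [e1 _ hy' _ hx]
      have : ¬ pos x < pos y := fun h => hσ (hxy.1 h)
      exact ⟨fun h => by omega, fun h => absurd h hσ⟩
    have h5 := nested hF.eqt hF.invB hyy h4 P hP (by
      rw [e1 _ hy' _ hP]
      exact ⟨fun h => by omega, fun h => absurd h hσ⟩)
    rw [e1 _ hy _ hP] at h5
    exact hσ (h5.1 (by omega))

/-- A walk of chords starting inside of a chord `z` ends inside of it or meets it. -/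
theorem IsFrame.walk (hF : IsFrame E R B C Ng Nb Nc pos a b σ) {Z : Set V} {z u u' : V}
    (hz : z ∈ Ng) (hu : u ∈ Ng) (hZ : ∀ v ∈ Z, v ∈ Ng ∨ v ∈ Nb ∨ v ∈ Nc)
    (h : ReflTransGen (Within E Z) u u') (hin : a z < a u ∧ b u < b z) :
    u' ∈ Ng ∧ ((∃ m, ReflTransGen (Within E Z) u m ∧ E m z) ∨ (a z < a u' ∧ b u' < b z)) := by
  induction h with
  | refl => exact ⟨hu, Or.inr hin⟩
  | @tail m m' h1 h2 ih =>
    obtain ⟨hm, ih⟩ := ih
    have h3 : m' ∈ Ng := by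
      rcases hF.c6 _ hm _ h2.2.2 with h | h | h
      · exact absurd (hZ _ h2.2.1) (hF.bn _ (Or.inl h))
      · exact absurd (hZ _ h2.2.1) (hF.bn _ (Or.inr h))
      · exact h
    refine ⟨h3, ?_⟩
    rcases ih with ih | ih
    · exact Or.inl ih
    · by_cases hmz : E m' z
      · exact Or.inl ⟨m', h1.tail h2, hmz⟩
      · right
        have h4 := (hF.c3 _ hm _ h3).1 h2.2.2
        rw [hF.c3 _ h3 _ hz] at hmz
        have h5 := hF.ab _ hz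
        have h6 := hF.ab _ h3
        have h7 := hF.ab _ hm
        by_cases hne : m' = z
        · subst hne
          unfold Cross at h4
          omega
        · have h8 := hF.d4 _ h3 _ hz hne
          have h9 := hF.d3 _ h3 _ hz
          have h10 := hF.d3 _ hz _ h3
          unfold Cross at h4 hmz
          omega

end

end Pool.Agent.J4.H77.CG
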