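import Pool.Agent.J4.H77.CG.Frame

/-!
# Gaps between two points of a frame
-/

set_option autoImplicit false
set_option linter.unusedVariables false

namespace Pool.Agent.J4.H77.CG

open Relation

variable {V : Type}

/-- A gap `(p, q)` between two neighbouring points of different kinds. `L` (`Rr`) are the chords
without point between which meet the points on the left (on the right) only, `Z` those which meet
no points, `N2` those which meet both. -/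
structure IsGap (E R : V → V → Prop) (B C Ng Nb Nc : Set V) (a b : V → ℤ) (p q : ℤ)
    (L Rr Z N2 : Set V) : Prop where
  eqt : Equit E R
  symm : ∀ x y, E x y → E y x
  pq : p < q
  invL : Inv R L
  invR : Inv R Rr
  invZ : Inv R Z
  invN2 : Inv R N2
  sepN : ∀ x, x ∈ Ng ∨ x ∈ Nb ∨ x ∈ Nc → x ∉ B ∧ x ∉ C
  gb : ∀ x ∈ Ng, x ∉ Nb ∧ x ∉ Nc
  ab : ∀ z ∈ Ng, a z < b z
  ne : ∀ z ∈ Ng, a z ≠ p ∧ b z ≠ p ∧ a z ≠ q ∧ b z ≠ q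
  d3 : ∀ z ∈ Ng, ∀ z' ∈ Ng, a z ≠ b z'
  d4 : ∀ z ∈ Ng, ∀ z' ∈ Ng, z ≠ z' → a z ≠ a z' ∧ b z ≠ b z'
  c3 : ∀ z ∈ Ng, ∀ z' ∈ Ng, (E z z' ↔ Cross (a z) (b z) (a z') (b z'))
  c4 : ∀ z ∈ Nb, ∀ z' ∈ Nc, ¬ E z z'
  c6 : ∀ z ∈ Ng, ∀ o, E z o → o ∈ B ∨ o ∈ C ∨ o ∈ Ng
  att : ∀ z ∈ Ng, ∃ z', ReflTransGen (Within E Ng) z z' ∧ ∃ o, (o ∈ B ∨ o ∈ C) ∧ E z' o
  nopt : ∀ z ∈ Ng, p < a z → b z < q → ∀ x, x ∈ B ∨ x ∈ C → ¬ E z x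
  n2 : ∀ z, z ∈ N2 ↔ z ∈ Ng ∧ a z < p ∧ q < b z
  locL : ∀ z ∈ L, z ∈ Ng → a z < p ∧ b z < q
  locR : ∀ z ∈ Rr, z ∈ Ng → p < a z ∧ q < b z
  locZ : ∀ z ∈ Z, z ∈ Ng → b z < p ∨ (p < a z ∧ b z < q) ∨ q < a z
  memL : ∀ z ∈ L, z ∈ Ng ∨ z ∈ Nb
  memR : ∀ z ∈ Rr, z ∈ Ng ∨ z ∈ Nc
  memZ : ∀ z ∈ Z, z ∈ Ng ∨ z ∈ Nb ∨ z ∈ Nc
  cover : ∀ z ∈ Ng, z ∉ N2 → z ∈ L ∨ z ∈ Rr ∨ z ∈ Z
  ofL : ∀ z ∈ Ng, z ∉ N2 → a z < p → p < b z → z ∈ L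
  ofR : ∀ z ∈ Ng, z ∉ N2 → a z < q → q < b z → z ∈ Rr
  disLR : ∀ z ∈ L, z ∉ Rr
  disLZ : ∀ z ∈ L, z ∉ Z
  disRZ : ∀ z ∈ Rr, z ∉ Z

section
variable {E R : V → V → Prop} {B C Ng Nb Nc : Set V} {pos a b : V → ℤ} {σ : Prop}

theorem IsFrame.gap [Finite V] (hF : IsFrame E R B C Ng Nb Nc pos a b σ) {P Q : V}
    (hP : P ∈ B) (hQ : Q ∈ C) (hPQ : pos P < pos Q)
    (hno : ∀ x, (x ∈ B ∨ x ∈ C) → ¬ (pos P < pos x ∧ pos x < pos Q)) :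
    ∃ L Rr Z N2, IsGap E R B C Ng Nb Nc a b (pos P) (pos Q) L Rr Z N2 := by
  have hlo := hF.inv_lo hP hQ hPQ hno
  have hhi := hF.inv_hi hP hQ hPQ hno
  have hnl := Inv.nbr hF.eqt hlo
  have hnr := Inv.nbr hF.eqt hhi
  have hl0 : ∀ z ∈ Ng, (∃ y ∈ {x | x ∈ B ∧ pos x ≤ pos P}, E z y) → a z < pos P := by
    rintro z hz ⟨y, ⟨hy, hy2⟩, hzy⟩
    have h1 := (hF.c2 z hz y (Or.inl hy)).1 hzy
    omega
  have hr0 : ∀ z ∈ Ng, (∃ y ∈ {y | y ∈ C ∧ pos Q ≤ pos y}, E z y) → pos Q < b z := by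
    rintro z hz ⟨y, ⟨hy, hy2⟩, hzy⟩
    have h1 := (hF.c2 z hz y (Or.inr hy)).1 hzy
    omega
  have hl1 : ∀ z ∈ Ng, a z < pos P → pos P < b z →
      (∃ y ∈ {x | x ∈ B ∧ pos x ≤ pos P}, E z y) := fun z hz h1 h2 =>
    ⟨P, ⟨hP, le_refl _⟩, (hF.c2 z hz P (Or.inl hP)).2 ⟨h1, h2⟩⟩
  have hr1 : ∀ z ∈ Ng, a z < pos Q → pos Q < b z →
      (∃ y ∈ {y | y ∈ C ∧ pos Q ≤ pos y}, E z y) := fun z hz h1 h2 =>
    ⟨Q, ⟨hQ, le_refl _⟩, (hF.c2 z hz Q (Or.inr hQ)).2 ⟨h1, h2⟩⟩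
  have hne : ∀ z ∈ Ng, a z ≠ pos P ∧ b z ≠ pos P ∧ a z ≠ pos Q ∧ b z ≠ pos Q := fun z hz =>
    ⟨(hF.d2 z hz P (Or.inl hP)).1, (hF.d2 z hz P (Or.inl hP)).2,
      (hF.d2 z hz Q (Or.inr hQ)).1, (hF.d2 z hz Q (Or.inr hQ)).2⟩
  refine ⟨{z | (z ∈ Ng ∨ z ∈ Nb ∨ z ∈ Nc) ∧ (∃ y ∈ {x | x ∈ B ∧ pos x ≤ pos P}, E z y) ∧
      ¬ (∃ y ∈ {y | y ∈ C ∧ pos Q ≤ pos y}, E z y)},
    {z | (z ∈ Ng ∨ z ∈ Nb ∨ z ∈ Nc) ∧ ¬ (∃ y ∈ {x | x ∈ B ∧ pos x ≤ pos P}, E z y) ∧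
      (∃ y ∈ {y | y ∈ C ∧ pos Q ≤ pos y}, E z y)},
    {z | (z ∈ Ng ∨ z ∈ Nb ∨ z ∈ Nc) ∧ ¬ (∃ y ∈ {x | x ∈ B ∧ pos x ≤ pos P}, E z y) ∧
      ¬ (∃ y ∈ {y | y ∈ C ∧ pos Q ≤ pos y}, E z y)},
    {z | (z ∈ Ng ∨ z ∈ Nb ∨ z ∈ Nc) ∧ (∃ y ∈ {x | x ∈ B ∧ pos x ≤ pos P}, E z y) ∧
      (∃ y ∈ {y | y ∈ C ∧ pos Q ≤ pos y}, E z y)}, ?_⟩
  refine ⟨hF.eqt, hF.symm, hPQ, ?_, ?_, ?_, ?_, ?_, hF.gb, hF.ab, hne, hF.d3, hF.d4, hF.c3, hF.c4,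
    hF.c6, hF.att, ?_, ?_, ?_, ?_, ?_, ?_, ?_, ?_, ?_, ?_, ?_, ?_, ?_, ?_⟩
  · exact Inv.and hF.eqt hF.invN (Inv.and hF.eqt hnl (Inv.not hF.eqt hnr))
  · exact Inv.and hF.eqt hF.invN (Inv.and hF.eqt (Inv.not hF.eqt hnl) hnr)
  · exact Inv.and hF.eqt hF.invN (Inv.and hF.eqt (Inv.not hF.eqt hnl) (Inv.not hF.eqt hnr))
  · exact Inv.and hF.eqt hF.invN (Inv.and hF.eqt hnl hnr)
  · intro x hx
    exact ⟨fun h => hF.bn x (Or.inl h) hx, fun h => hF.bn x (Or.inr h) hx⟩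
  · intro z hz h1 h2 x hx hzx
    have h3 := (hF.c2 z hz x hx).1 hzx
    exact hno x hx ⟨by omega, by omega⟩
  · intro z
    constructor
    · rintro ⟨h1, h2, h3⟩
      have hz : z ∈ Ng := by
        rcases h1 with h | h | h
        · exact h
        · obtain ⟨y, ⟨hy, _⟩, hzy⟩ := h3
          exact absurd hzy (hF.c5 z h y hy)
        · obtain ⟨y, ⟨hy, _⟩, hzy⟩ := h2
          exact absurd hzy (hF.c5' z h y hy)
      exact ⟨hz, hl0 z hz h2, hr0 z hz h3⟩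
    · rintro ⟨hz, h1, h2⟩
      exact ⟨Or.inl hz, hl1 z hz h1 (by omega), hr1 z hz (by omega) h2⟩
  · rintro z ⟨_, h2, h3⟩ hz
    have h4 := hl0 z hz h2
    have h5 := hne z hz
    refine ⟨h4, ?_⟩
    by_contra hcon
    exact h3 (hr1 z hz (by omega) (by omega))
  · rintro z ⟨_, h2, h3⟩ hz
    have h4 := hr0 z hz h3
    have h5 := hne z hz
    refine ⟨?_, h4⟩
    by_contra hcon
    exact h2 (hl1 z hz (by omega) (by omega))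
  · rintro z ⟨_, h2, h3⟩ hz
    have h5 := hne z hz
    have h6 := hF.ab z hz
    by_contra hcon
    by_cases h7 : a z < pos P ∧ pos P < b z
    · exact h2 (hl1 z hz h7.1 h7.2)
    · by_cases h8 : a z < pos Q ∧ pos Q < b z
      · exact h3 (hr1 z hz h8.1 h8.2)
      · omega
  · rintro z ⟨h1, h2, h3⟩
    rcases h1 with h | h | h
    · exact Or.inl h
    · exact Or.inr h
    · obtain ⟨y, ⟨hy, _⟩, hzy⟩ := h2
      exact absurd hzy (hF.c5' z h y hy)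
  · rintro z ⟨h1, h2, h3⟩
    rcases h1 with h | h | h
    · exact Or.inl h
    · obtain ⟨y, ⟨hy, _⟩, hzy⟩ := h3
      exact absurd hzy (hF.c5 z h y hy)
    · exact Or.inr h
  · rintro z ⟨h1, _⟩
    exact h1
  · intro z hz h1
    have h0 : z ∈ Ng ∨ z ∈ Nb ∨ z ∈ Nc := Or.inl hz
    by_cases h2 : ∃ y ∈ {x | x ∈ B ∧ pos x ≤ pos P}, E z y <;>
      by_cases h3 : ∃ y ∈ {y | y ∈ C ∧ pos Q ≤ pos y}, E z y
    · exact absurd ⟨h0, h2, h3⟩ h1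
    · exact Or.inl ⟨h0, h2, h3⟩
    · exact Or.inr (Or.inl ⟨h0, h2, h3⟩)
    · exact Or.inr (Or.inr ⟨h0, h2, h3⟩)
  · intro z hz h1 h2 h3
    have h4 := hl1 z hz h2 h3
    exact ⟨Or.inl hz, h4, fun h5 => h1 ⟨Or.inl hz, h4, h5⟩⟩
  · intro z hz h1 h2 h3
    have h4 := hr1 z hz h2 h3
    exact ⟨Or.inl hz, fun h5 => h1 ⟨Or.inl hz, h5, h4⟩, h4⟩
  · rintro z ⟨_, h1, _⟩ ⟨_, h2, _⟩
    exact h2 h1
  · rintro z ⟨_, h1, _⟩ ⟨_, h2, _⟩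
    exact h2 h1
  · rintro z ⟨_, _, h1⟩ ⟨_, _, h2⟩
    exact h2 h1

end

theorem cross_neg {a b a' b' : ℤ} : Cross (-b) (-a) (-b') (-a') ↔ Cross a b a' b' := by
  unfold Cross
  omega

section
variable {E R : V → V → Prop} {B C Ng Nb Nc : Set V} {a b : V → ℤ} {p q : ℤ}
  {L Rr Z N2 : Set V}

/-- the mirror image -/
theorem IsGap.mirror (h : IsGap E R B C Ng Nb Nc a b p q L Rr Z N2) :
    IsGap E R C B Ng Nc Nb (fun z => - b z) (fun z => - a z) (-q) (-p) Rr L Z N2 where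
  eqt := h.eqt
  symm := h.symm
  pq := by have := h.pq; omega
  invL := h.invR
  invR := h.invL
  invZ := h.invZ
  invN2 := h.invN2
  sepN := fun x hx => (h.sepN x (by tauto)).symm
  gb := fun x hx => (h.gb x hx).symm
  ab := fun z hz => by have := h.ab z hz; omega
  ne := fun z hz => by have := h.ne z hz; omega
  d3 := fun z hz z' hz' => by have := h.d3 z' hz' z hz; omega
  d4 := fun z hz z' hz' hne => by have := h.d4 z hz z' hz' hne; omega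
  c3 := fun z hz z' hz' => by
    rw [h.c3 z hz z' hz']
    exact cross_neg.symm
  c4 := fun z hz z' hz' he => h.c4 z' hz' z hz (h.symm _ _ he)
  c6 := fun z hz o ho => by
    have := h.c6 z hz o ho
    tauto
  att := fun z hz => by
    obtain ⟨z', h1, o, ho, h2⟩ := h.att z hz
    exact ⟨z', h1, o, ho.symm, h2⟩
  nopt := fun z hz h1 h2 x hx => h.nopt z hz (by omega)
    (by omega) x hx.symm
  n2 := fun z => by
    rw [h.n2 z]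
    constructor
    · rintro ⟨h1, h2, h3⟩
      exact ⟨h1, by omega, by omega⟩
    · rintro ⟨h1, h2, h3⟩
      exact ⟨h1, by omega, by omega⟩
  locL := fun z hz hz' => by have := h.locR z hz hz'; omega
  locR := fun z hz hz' => by have := h.locL z hz hz'; omega
  locZ := fun z hz hz' => by have := h.locZ z hz hz'; omega
  memL := h.memR
  memR := h.memL
  memZ := fun z hz => by have := h.memZ z hz; tauto
  cover := fun z hz hz' => by have := h.cover z hz hz'; tauto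
  ofL := fun z hz h0 h1 h2 => h.ofR z hz h0 (by omega)
    (by omega)
  ofR := fun z hz h0 h1 h2 => h.ofL z hz h0 (by omega)
    (by omega)
  disLR := fun z hz hz' => h.disLR z hz' hz
  disLZ := h.disRZ
  disRZ := h.disLZ

end

end Pool.Agent.J4.H77.CG
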