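import Pool.Agent.J4.H77.CG.Arcs

/-!
# Rotations of chord diagrams
-/

set_option autoImplicit false

namespace Pool.Agent.J4.H77.CG

/-- the new first end -/
def ra (d M p q : ℤ) : ℤ := if p ≤ d ∧ d < q then q else if q ≤ d then p + M else p

/-- the new second end -/
def rb (d M p q : ℤ) : ℤ := if p ≤ d ∧ d < q then p + M else if q ≤ d then q + M else q

theorem ra_rb (d M p q : ℤ) (h : p < q) :
    (p ≤ d ∧ d < q ∧ ra d M p q = q ∧ rb d M p q = p + M) ∨
    (q ≤ d ∧ ra d M p q = p + M ∧ rb d M p q = q + M) ∨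
    (d < p ∧ ra d M p q = p ∧ rb d M p q = q) := by
  unfold ra rb
  split_ifs <;> omega

section
variable {V : Type} {E : V → V → Prop} {a b : V → ℤ}

theorem IsDiag.rot (hD : IsDiag E a b) (d M : ℤ) (hM : ∀ u v, b v < a u + M) :
    IsDiag E (fun v => ra d M (a v) (b v)) (fun v => rb d M (a v) (b v)) where
  ab := by
    intro v
    have h1 := hD.ab v
    have h2 := hM v v
    have h3 := ra_rb d M _ _ h1
    show ra d M (a v) (b v) < rb d M (a v) (b v)
    generalize ra d M (a v) (b v) = x at *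
    generalize rb d M (a v) (b v) = y at *
    omega
  ne1 := by
    intro u v
    have h1 := hD.ab v
    have h2 := hD.ab u
    have h3 := ra_rb d M _ _ h1
    have h4 := ra_rb d M _ _ h2
    have h5 := hM u v
    have h6 := hM v u
    have h7 := hM u u
    have h8 := hM v v
    have h9 := hD.ne1 u v
    have h10 := hD.ne1 v u
    show ra d M (a u) (b u) ≠ rb d M (a v) (b v)
    by_cases huv : u = v
    · subst huv
      generalize ra d M (a u) (b u) = x at *
      generalize rb d M (a u) (b u) = y at *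
      omega
    · have h11 := hD.ne2 u v huv
      generalize ra d M (a u) (b u) = x at *
      generalize rb d M (a u) (b u) = y at *
      generalize ra d M (a v) (b v) = x' at *
      generalize rb d M (a v) (b v) = y' at *
      omega
  ne2 := by
    intro u v huv
    have h1 := hD.ab v
    have h2 := hD.ab u
    have h3 := ra_rb d M _ _ h1
    have h4 := ra_rb d M _ _ h2
    have h5 := hM u v
    have h6 := hM v u
    have h7 := hM u u
    have h8 := hM v v
    have h9 := hD.ne1 u v
    have h10 := hD.ne1 v u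
    have h11 := hD.ne2 u v huv
    show ra d M (a u) (b u) ≠ ra d M (a v) (b v) ∧ rb d M (a u) (b u) ≠ rb d M (a v) (b v)
    generalize ra d M (a u) (b u) = x at *
    generalize rb d M (a u) (b u) = y at *
    generalize ra d M (a v) (b v) = x' at *
    generalize rb d M (a v) (b v) = y' at *
    omega
  adj := by
    intro u v
    rw [hD.adj u v]
    have h1 := hD.ab v
    have h2 := hD.ab u
    have h3 := ra_rb d M _ _ h1
    have h4 := ra_rb d M _ _ h2
    have h5 := hM u v
    have h6 := hM v u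
    have h7 := hM u u
    have h8 := hM v v
    have h9 := hD.ne1 u v
    have h10 := hD.ne1 v u
    show Cross (a u) (b u) (a v) (b v) ↔ Cross (ra d M (a u) (b u)) (rb d M (a u) (b u))
      (ra d M (a v) (b v)) (rb d M (a v) (b v))
    by_cases huv : u = v
    · subst huv
      generalize ra d M (a u) (b u) = x at *
      generalize rb d M (a u) (b u) = y at *
      unfold Cross
      omega
    · have h11 := hD.ne2 u v huv
      generalize ra d M (a u) (b u) = x at *
      generalize rb d M (a u) (b u) = y at *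
      generalize ra d M (a v) (b v) = x' at *
      generalize rb d M (a v) (b v) = y' at *
      unfold Cross
      rcases h3 with ⟨h31, h32, h33, h34⟩ | ⟨h31, h32, h33⟩ | ⟨h31, h32, h33⟩ <;>
        rcases h4 with ⟨h41, h42, h43, h44⟩ | ⟨h41, h42, h43⟩ | ⟨h41, h42, h43⟩ <;>
        subst_vars <;> constructor <;> intro h <;> omega

variable [Finite V]

theorem exists_M (a b : V → ℤ) : ∃ M, ∀ u v, b v < a u + M := by
  classical
  have := Fintype.ofFinite V
  obtain ⟨A, hA⟩ := (Set.finite_range a).bddBelow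
  obtain ⟨B, hB⟩ := (Set.finite_range b).bddAbove
  refine ⟨B - A + 1, fun u v => ?_⟩
  have h1 : A ≤ a u := hA ⟨u, rfl⟩
  have h2 : b v ≤ B := hB ⟨v, rfl⟩
  omega

/-- One may start at any chord. -/
theorem IsDiag.first (hD : IsDiag E a b) (v0 : V) :
    ∃ a' b', IsDiag E a' b' ∧ ∀ v, a' v0 ≤ a' v := by
  obtain ⟨M, hM⟩ := exists_M a b
  refine ⟨_, _, hD.rot (a v0 - 1) M hM, fun v => ?_⟩
  have h1 := ra_rb (a v0 - 1) M _ _ (hD.ab v0)
  have h2 := ra_rb (a v0 - 1) M _ _ (hD.ab v)
  have h3 := hD.ab v0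
  have h4 := hM v v0
  show ra (a v0 - 1) M (a v0) (b v0) ≤ ra (a v0 - 1) M (a v) (b v)
  generalize ra (a v0 - 1) M (a v0) (b v0) = x at *
  generalize rb (a v0 - 1) M (a v0) (b v0) = y at *
  generalize ra (a v0 - 1) M (a v) (b v) = x' at *
  generalize rb (a v0 - 1) M (a v) (b v) = y' at *
  omega

/-- One may start between any two adjacent ends. -/
theorem IsDiag.between (hD : IsDiag E a b) {p q : V} {i j : ℤ} (hi : i = a p ∨ i = b p)
    (hj : j = a q ∨ j = b q) (hij : i < j)
    (hno : ∀ v, ¬ (i < a v ∧ a v < j) ∧ ¬ (i < b v ∧ b v < j)) :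
    ∃ a' b', IsDiag E a' b' ∧ (∀ v, a' q ≤ a' v) ∧ ∀ v, b' v ≤ b' p := by
  obtain ⟨M, hM⟩ := exists_M a b
  refine ⟨_, _, hD.rot i M hM, fun v => ?_, fun v => ?_⟩
  · have h1 := ra_rb i M _ _ (hD.ab q)
    have h2 := ra_rb i M _ _ (hD.ab v)
    have h3 := hD.ab q
    have h4 := hM v q
    have h5 := hno v
    have h6 := hno q
    show ra i M (a q) (b q) ≤ ra i M (a v) (b v)
    generalize ra i M (a q) (b q) = x at *
    generalize rb i M (a q) (b q) = y at *
    generalize ra i M (a v) (b v) = x' at *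
    generalize rb i M (a v) (b v) = y' at *
    omega
  · have h1 := ra_rb i M _ _ (hD.ab p)
    have h2 := ra_rb i M _ _ (hD.ab v)
    have h3 := hD.ab p
    have h4 := hM p v
    show rb i M (a v) (b v) ≤ rb i M (a p) (b p)
    generalize ra i M (a p) (b p) = x at *
    generalize rb i M (a p) (b p) = y at *
    generalize ra i M (a v) (b v) = x' at *
    generalize rb i M (a v) (b v) = y' at *
    omega

/-- If there are at least three chords, then one of two given chords has an end adjacent to an end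
of a third one. -/
theorem IsDiag.near (hD : IsDiag E a b) {r s v0 : V} (hrs : r ≠ s) (hvr : v0 ≠ r) (hvs : v0 ≠ s) :
    ∃ w, w ≠ r ∧ w ≠ s ∧ ∃ a' b', IsDiag E a' b' ∧ (∀ v, b' v ≤ b' w) ∧
      ((∀ v, a' r ≤ a' v) ∨ ∀ v, a' s ≤ a' v) := by
  classical
  have := Fintype.ofFinite V
  obtain ⟨a, b, hD, hfirst⟩ := hD.first v0
  obtain ⟨q, hq, hqr, hqs⟩ : ∃ q, (q = r ∨ q = s) ∧ a q ≤ a r ∧ a q ≤ a s := by
    rcases le_total (a r) (a s) with h | h
    · exact ⟨r, Or.inl rfl, le_refl _, h⟩
    · exact ⟨s, Or.inr rfl, h, le_refl _⟩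
  have hq0 : v0 ≠ q := by
    rcases hq with rfl | rfl
    · exact hvr
    · exact hvs
  let P : Finset ℤ := ((Finset.univ.image a) ∪ (Finset.univ.image b)).filter (· < a q)
  have hP : P.Nonempty := by
    refine ⟨a v0, ?_⟩
    simp only [P, Finset.mem_filter, Finset.mem_union, Finset.mem_image, Finset.mem_univ, true_and]
    exact ⟨Or.inl ⟨v0, rfl⟩, lt_of_le_of_ne (hfirst q) (hD.ne2 v0 q hq0).1⟩
  have h1 := P.max'_mem hP
  set i := P.max' hP with hi
  simp only [P, Finset.mem_filter, Finset.mem_union, Finset.mem_image, Finset.mem_univ,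
    true_and] at h1
  obtain ⟨h2, h3⟩ := h1
  have hmax : ∀ k, ((∃ v, a v = k) ∨ ∃ v, b v = k) → k < a q → k ≤ i := by
    intro k hk1 hk2
    refine P.le_max' k ?_
    simp only [P, Finset.mem_filter, Finset.mem_union, Finset.mem_image, Finset.mem_univ,
      true_and]
    exact ⟨hk1, hk2⟩
  obtain ⟨w, hw⟩ : ∃ w, i = a w ∨ i = b w := by
    rcases h2 with ⟨w, hw⟩ | ⟨w, hw⟩
    · exact ⟨w, Or.inl hw.symm⟩
    · exact ⟨w, Or.inr hw.symm⟩
  have hwr : w ≠ r := by
    rintro rfl
    have := hD.ab w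
    omega
  have hws : w ≠ s := by
    rintro rfl
    have := hD.ab w
    omega
  obtain ⟨a', b', h4, h5, h6⟩ := hD.between hw (Or.inl rfl) h3 (fun v => ⟨fun h => by
    have := hmax (a v) (Or.inl ⟨v, rfl⟩) h.2
    omega, fun h => by
    have := hmax (b v) (Or.inr ⟨v, rfl⟩) h.2
    omega⟩)
  refine ⟨w, hwr, hws, a', b', h4, h6, ?_⟩
  rcases hq with rfl | rfl
  · exact Or.inl h5
  · exact Or.inr h5

end

end Pool.Agent.J4.H77.CG
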