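import Pool.Agent.J4.H77.CG.Step
import Pool.Agent.J4.H77.CG.Rot

/-!
# Circle graphs: the induction
-/

set_option autoImplicit false
set_option linter.unusedSectionVars false

namespace Pool.Agent.J4.H77.CG

open Relation Pool.Agent.W185.SRG

theorem path_subtype {V : Type} {E : V → V → Prop} {S : Set V} {x y : V}
    (h : ReflTransGen (Within E S) x y) (hx : x ∈ S) (hy : y ∈ S) :
    ReflTransGen (fun u v : S => E u.1 v.1) ⟨x, hx⟩ ⟨y, hy⟩ := by
  induction h with
  | refl => exact ReflTransGen.refl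
  | tail _ h2 ih => exact (ih h2.1).tail h2.2.2

section
variable {V W : Type} [Fintype V] [Fintype W] {G : SimpleGraph V} {H : SimpleGraph W} {N : ℕ}

/-- Vertices of a component which look the same are in a common side. -/
theorem common_side (hN : 5 ≤ N) {r s w : V} (hrs : G.Adj r s) (hwr : w ≠ r) (hws : w ≠ s)
    (hcw : ReflTransGen G.Adj r w) {S : Set V}
    (hS : ∀ v, v ∈ S ↔ (v ∈ Cls G.Adj r s w ∨ v = r ∨ v = s)) (hrS : r ∈ S) (hwS : w ∈ S)
    {a b : S → ℤ} (hD : IsDiag (fun u v : S => G.Adj u.1 v.1) a b)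
    (hr : ∀ v, a ⟨r, hrS⟩ ≤ a v) (hw : ∀ v, b v ≤ b ⟨w, hwS⟩) :
    ∀ x y, x ∈ Cls G.Adj r s w → x ≠ w → T G G N [(x, y), (r, r), (s, s), (w, w)] →
      ∃ U, Side G.Adj U ∧ x ∈ U ∧ y ∈ U ∧ U ⊆ Cls G.Adj r s w \ {w} := by
  classical
  intro x y hx hxw hxy
  have hsy : ∀ x y, G.Adj x y → G.Adj y x := fun _ _ h => h.symm
  let R : S → S → Prop := fun u v => T G G N [(u.1, v.1), (r, r), (s, s), (w, w)]
  have inv : ∀ u v : V, T G G N [(u, v), (r, r), (s, s), (w, w)] → (u ∈ S ↔ v ∈ S) := by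
    intro u v h
    have e1 : u ∈ Cls G.Adj r s w ↔ v ∈ Cls G.Adj r s w := h.cls (by omega) (y := w) (y' := w)
      (by simp) (by simp) (by simp) (by simp)
    have e2 : u = r ↔ v = r := h.eq_iff (a := (u, v)) (b := (r, r)) (by omega) (by simp) (by simp)
    have e3 : u = s ↔ v = s := h.eq_iff (a := (u, v)) (b := (s, s)) (by omega) (by simp) (by simp)
    rw [hS, hS, e1, e2, e3]
  have hE : Equit (fun u v : S => G.Adj u.1 v.1) R := by
    refine ⟨fun {u v} h => h.symm, fun {u v} h => ?_⟩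
    obtain ⟨β, hβ⟩ := T.step h (by simp only [List.length_cons, List.length_nil]; omega) (by simp)
    have h1 : ∀ z, T G G N [(z, β z), (r, r), (s, s), (w, w)] := fun z => (hβ z).mono (by
      intro e he
      simp only [List.mem_cons, List.not_mem_nil, or_false] at he ⊢
      tauto)
    refine ⟨β.subtypeEquiv fun z => inv z (β z) (h1 z), fun z => ⟨h1 z.1, ?_⟩⟩
    exact (hβ z.1).adj_iff (a := (u.1, v.1)) (b := (z.1, β z.1)) (by omega) (by simp) (by simp)
  have hS2 : S = {v | v ∈ Cls G.Adj r s w ∨ v = r ∨ v = s} := by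
    ext v
    exact hS v
  have hsS : s ∈ S := (hS s).2 (Or.inr (Or.inr rfl))
  have hpath : ∀ v (hv : v ∈ S), ReflTransGen (fun u v : S => G.Adj u.1 v.1) ⟨r, hrS⟩ ⟨v, hv⟩ := by
    intro v hv
    rcases (hS v).1 hv with h | h | h
    · have h1 := attached hsy hrs hwr hws hcw h
      rw [← hS2] at h1
      exact path_subtype h1 hrS hv
    · subst h
      exact ReflTransGen.refl
    · subst h
      exact ReflTransGen.single hrs
  have hconn : ∀ x y, ReflTransGen (fun u v : S => G.Adj u.1 v.1) x y := by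
    intro x y
    refine ReflTransGen.trans ?_ (hpath y.1 y.2)
    have h1 := hpath x.1 x.2
    have h2 : ∀ z, ReflTransGen (fun u v : S => G.Adj u.1 v.1) ⟨r, hrS⟩ z →
        ReflTransGen (fun u v : S => G.Adj u.1 v.1) z ⟨r, hrS⟩ := by
      intro z hz
      induction hz with
      | refl => exact ReflTransGen.refl
      | tail _ h3 ih => exact ReflTransGen.head (hsy _ _ h3) ih
    exact h2 x h1
  have hxr : x ≠ r ∧ x ≠ s := rd_ne hx.1 hwr hws
  have hxS : x ∈ S := (hS x).2 (Or.inl hx)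
  have hyS : y ∈ S := (inv x y hxy).1 hxS
  obtain ⟨U, h1, h2, h3, h4, h5⟩ := star (x := ⟨x, hxS⟩) (y := ⟨y, hyS⟩) hE hD hconn
    (r := ⟨r, hrS⟩) (w := ⟨w, hwS⟩) (fun h => hwr (congrArg Subtype.val h).symm) hr hw
    (fun v hv => by
      have e : r = r ↔ v.1 = r := T.eq_iff (a := (r, v.1)) (b := (r, r)) (by omega) hv (by simp)
        (by simp)
      exact Subtype.ext (e.1 rfl))
    (fun v hv => by
      have e : w = w ↔ v.1 = w := T.eq_iff (a := (w, v.1)) (b := (w, w)) (by omega) hv (by simp)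
        (by simp)
      exact Subtype.ext (e.1 rfl)) hxy (fun h => hxr.1 (congrArg Subtype.val h))
    (fun h => hxw (congrArg Subtype.val h))
  let U' : Set V := {v | ∃ h : v ∈ S, (⟨v, h⟩ : S) ∈ U}
  have h6 := side_lift (U := U') (x := x) hsy hrs hwr hws (by
      intro u u' hu hu' hn hn' ⟨p, ⟨hpS, hp⟩, hpu⟩ ⟨p', ⟨hpS', hp'⟩, hpu'⟩ v ⟨hvS, hv⟩ hvu
      have k1 : u ∈ S := (hS u).2 hu
      have k2 : u' ∈ S := (hS u').2 hu'
      exact h1 ⟨u, k1⟩ ⟨u', k2⟩ (fun h => hn ⟨k1, h⟩) (fun h => hn' ⟨k2, h⟩)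
        ⟨⟨p, hpS⟩, hp, hpu⟩ ⟨⟨p', hpS'⟩, hp', hpu'⟩ ⟨v, hvS⟩ hv hvu)
    (by
      rintro u ⟨huS, -⟩
      exact (hS u).1 huS)
    (by
      rintro ⟨h, h'⟩
      exact h4 h')
    (by
      rintro ⟨h, h'⟩
      exact h5 h') ⟨hxS, h2⟩ hx
  refine ⟨U', h6.1, ⟨hxS, h2⟩, ⟨hyS, h3⟩, ?_⟩
  intro u hu
  refine ⟨h6.2 hu, ?_⟩
  rintro rfl
  obtain ⟨h, h'⟩ := hu
  exact h5 h'

/-- **The induction.** -/
theorem induction_step (hN : 5 ≤ N) {a b : V → ℤ} (hG : IsDiag G.Adj a b) (n : ℕ) :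
    ∀ (r s : V) (r' s' : W) (x : V) (x' : W), G.Adj r s → x ≠ r → x ≠ s →
      ReflTransGen G.Adj r x → (Cls G.Adj r s x).ncard < n →
      T G H N [(x, x'), (r, r'), (s, s')] →
      ∃ f, IsOv G H r s r' s' (Cls G.Adj r s x) (Cls H.Adj r' s' x') f := by
  classical
  induction n with
  | zero =>
    intro r s r' s' x x' _ _ _ _ hn
    omega
  | succ n ih =>
    intro r s r' s' x x' hrs hxr hxs hcx hn hT
    have hsy : ∀ x y, G.Adj x y → G.Adj y x := fun _ _ h => h.symm
    have hsy' : ∀ x y, H.Adj x y → H.Adj y x := fun _ _ h => h.symm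
    let S : Set V := {v | v ∈ Cls G.Adj r s x ∨ v = r ∨ v = s}
    have hrS : r ∈ S := Or.inr (Or.inl rfl)
    have hsS : s ∈ S := Or.inr (Or.inr rfl)
    have hxS : x ∈ S := Or.inl (cls_self x)
    have hD : IsDiag (fun u v : S => G.Adj u.1 v.1) (fun v => a v.1) (fun v => b v.1) :=
      { ab := fun v => hG.ab v.1
        ne1 := fun u v => hG.ne1 u.1 v.1
        ne2 := fun u v huv => hG.ne2 u.1 v.1 fun h => huv (Subtype.ext h)
        adj := fun u v => hG.adj u.1 v.1 }
    obtain ⟨w, hwr, hws, a', b', hD', hlast, hfirst⟩ := hD.near (r := ⟨r, hrS⟩) (s := ⟨s, hsS⟩)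
      (v0 := ⟨x, hxS⟩) (fun h => hrs.ne (congrArg Subtype.val h))
      (fun h => hxr (congrArg Subtype.val h)) (fun h => hxs (congrArg Subtype.val h))
    obtain ⟨w, hwS⟩ := w
    have hwr' : w ≠ r := fun h => hwr (Subtype.ext h)
    have hws' : w ≠ s := fun h => hws (Subtype.ext h)
    have hwC : w ∈ Cls G.Adj r s x := by
      rcases hwS with h | h | h
      · exact h
      · exact absurd h hwr'
      · exact absurd h hws'
    have hcw : ReflTransGen G.Adj r w := attached' hrs hxr hxs hcx hwC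
    have hC : Cls G.Adj r s w = Cls G.Adj r s x := cls_eq hwC
    obtain ⟨w', hT'⟩ := hT.forth (by simp only [List.length_cons, List.length_nil]; omega)
      (by simp) w
    have hC' : Cls H.Adj r' s' w' = Cls H.Adj r' s' x' := by
      refine cls_eq ?_
      exact (hT'.cls (by omega) (y := x) (y' := x') (z := w) (z' := w') (r := r) (r' := r')
        (s := s) (s' := s') (by simp) (by simp) (by simp) (by simp)).1 hwC
    have ih' : ∀ (r₁ s₁ : V) (r₁' s₁' : W) (y : V) (y' : W), G.Adj r₁ s₁ → y ≠ r₁ → y ≠ s₁ →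
      ReflTransGen G.Adj r₁ y → (Cls G.Adj r₁ s₁ y).ncard < (Cls G.Adj r s x).ncard →
      T G H N [(y, y'), (r₁, r₁'), (s₁, s₁')] →
      ∃ f, IsOv G H r₁ s₁ r₁' s₁' (Cls G.Adj r₁ s₁ y) (Cls H.Adj r₁' s₁' y') f := by
      intro r₁ s₁ r₁' s₁' y y' h1 h2 h3 h4 h5 h6
      exact ih r₁ s₁ r₁' s₁' y y' h1 h2 h3 h4 (by omega) h6
    rcases hfirst with hfirst | hfirst
    · have h1 : T G H N [(r, r'), (s, s'), (w, w')] := hT'.mono (by
        intro e he
        simp only [List.mem_cons, List.not_mem_nil, or_false] at he ⊢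
        tauto)
      have h2 := common_side (N := N) hN hrs hwr' hws' hcw (S := S) (fun v => by rw [hC]; rfl)
        hrS hwS hD' hfirst hlast
      have h3 := main_step hN hrs hwr' hws' hcw h1 h2 (by rw [hC]; exact ih')
      rw [hC, hC'] at h3
      exact h3
    · have h1 : T G H N [(s, s'), (r, r'), (w, w')] := hT'.mono (by
        intro e he
        simp only [List.mem_cons, List.not_mem_nil, or_false] at he ⊢
        tauto)
      have hcw' : ReflTransGen G.Adj s w := ReflTransGen.head hrs.symm hcw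
      have hC2 : Cls G.Adj s r w = Cls G.Adj r s x := (cls_swap hsy w).trans hC
      have hC2' : Cls H.Adj s' r' w' = Cls H.Adj r' s' x' := (cls_swap hsy' w').trans hC'
      have h2 := common_side (N := N) hN hrs.symm hws' hwr' hcw' (S := S) (fun v => by
        rw [hC2]
        exact ⟨fun h => h.imp_right Or.symm, fun h => h.imp_right Or.symm⟩)
        hsS hwS hD' hfirst hlast
      have h3 := main_step hN hrs.symm hws' hwr' hcw' h1 h2 (by rw [hC2]; exact ih')
      rw [hC2, hC2'] at h3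
      obtain ⟨f, hf⟩ := h3
      exact ⟨f, hf.swap⟩

end

end Pool.Agent.J4.H77.CG
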