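import Pool.Agent.J4.H77.CG.Cut

/-!
# The cut lemma
-/

set_option autoImplicit false
set_option linter.unusedVariables false

namespace Pool.Agent.J4.H77.CG

open Relation

variable {V : Type}

theorem IsFrame.swap {E R : V → V → Prop} {B C Ng Nb Nc : Set V} {pos a b : V → ℤ} {σ : Prop}
    (h : IsFrame E R B C Ng Nb Nc pos a b σ) : IsFrame E R C B Ng Nc Nb pos a b (¬ σ) where
  eqt := h.eqt
  symm := h.symm
  invB := h.invC
  invC := h.invB
  invN := by
    have e : {x | x ∈ Ng ∨ x ∈ Nc ∨ x ∈ Nb} = {x | x ∈ Ng ∨ x ∈ Nb ∨ x ∈ Nc} := by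
      ext x
      constructor <;>
      · intro h
        rcases h with h | h | h
        · exact Or.inl h
        · exact Or.inr (Or.inr h)
        · exact Or.inr (Or.inl h)
    rw [e]
    exact h.invN
  bc := fun x hx hx' => h.bc x hx' hx
  bn := fun x hx hx' => h.bn x hx.symm (by tauto)
  gb := fun x hx => (h.gb x hx).symm
  ab := h.ab
  d1 := fun x y hx hy => h.d1 x y hx.symm hy.symm
  d2 := fun z hz x hx => h.d2 z hz x hx.symm
  d3 := h.d3
  d4 := h.d4
  c1 := fun x hx y hy => by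
    have h1 := h.c1 y hy x hx
    have h2 := h.d1 x y (Or.inr hx) (Or.inl hy) (by
      rintro rfl
      exact h.bc x hy hx)
    have h3 : E x y ↔ E y x := ⟨h.symm _ _, h.symm _ _⟩
    rw [h3, h1]
    constructor
    · intro h4
      constructor
      · intro h5 h6
        have := h4.2 h6
        omega
      · intro h5
        by_contra h6
        exact h5 (h4.1 (by omega))
    · intro h4
      constructor
      · intro h5
        by_contra h6
        have := h4.2 h6
        omega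
      · intro h5
        by_contra h6
        exact h4.1 (by omega) h5
  c2 := fun z hz x hx => h.c2 z hz x hx.symm
  c3 := h.c3
  c4 := fun z hz z' hz' he => h.c4 z' hz' z hz (h.symm _ _ he)
  c5 := h.c5'
  c5' := h.c5
  c6 := fun z hz o ho => by
    have := h.c6 z hz o ho
    tauto
  att := fun z hz => by
    obtain ⟨z', h1, o, ho, h2⟩ := h.att z hz
    exact ⟨z', h1, o, ho.symm, h2⟩

open Classical in
/-- the ends of the linked chords in the gap -/
noncomputable def ps (E : V → V → Prop) (a b : V → ℤ) (L Rr Z : Set V) (z : V) : ℤ :=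
  if z ∈ St E L Rr Z then b z else a z

section
variable {E R : V → V → Prop} {B C Ng Nb Nc : Set V} {a b : V → ℤ} {p q : ℤ}
  {L Rr Z N2 : Set V}

theorem ps_left {z : V} (hz : z ∈ St E L Rr Z) : ps E a b L Rr Z z = b z := by
  unfold ps
  rw [if_pos hz]

theorem IsGap.ps_right (h : IsGap E R B C Ng Nb Nc a b p q L Rr Z N2) {z : V}
    (hz : z ∈ St E Rr L Z) : ps E a b L Rr Z z = a z := by
  unfold ps
  rw [if_neg fun h' => h.disLR z h'.1 hz.1]

theorem IsGap.conn_ng (h : IsGap E R B C Ng Nb Nc a b p q L Rr Z N2) {m m' : V}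
    (he : ReflTransGen (Within E Z) m m') (hm : m ∈ Ng) : m' ∈ Ng := by
  induction he with
  | refl => exact hm
  | tail _ h4 ih => exact h.step_mid ih h4

theorem IsGap.MM_ng (h : IsGap E R B C Ng Nb Nc a b p q L Rr Z N2) {m : V}
    (hm : m ∈ MM E L Rr Z) : m ∈ Ng := by
  obtain ⟨h1, m', ⟨t, ht, he⟩, hc⟩ := hm
  have htg : t ∈ Ng := by
    rcases ht with ht | ht
    · exact (h.loc_St ht).1
    · exact (h.loc_St' ht).1
  have h2 : m' ∈ Ng := h.ng_of_adj htg (h.memZ m' (within_mem hc h1)) (h.symm _ _ he)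
  exact h.conn_ng (within_symm h.symm hc) h2

theorem MM_conn (hs : ∀ x y, E x y → E y x) {m m' : V} (hm : m ∈ MM E L Rr Z)
    (h : ReflTransGen (Within E Z) m m') : m' ∈ MM E L Rr Z := by
  obtain ⟨h1, m1, h2, h3⟩ := hm
  exact ⟨within_mem h h1, m1, h2, (within_symm hs h).trans h3⟩

/-- the frame of the linked chords -/
theorem IsGap.inner (h : IsGap E R B C Ng Nb Nc a b p q L Rr Z N2) :
    IsFrame (Within E {z | z ∈ St E L Rr Z ∨ z ∈ St E Rr L Z ∨ z ∈ MM E L Rr Z}) R
      (St E L Rr Z) (St E Rr L Z)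
      {m | m ∈ MM E L Rr Z ∧ m ∈ Ng ∧ p < a m ∧ b m < q}
      {m | m ∈ MM E L Rr Z ∧ m ∈ Ng ∧ b m < p}
      {m | m ∈ MM E L Rr Z ∧ m ∈ Ng ∧ q < a m} (ps E a b L Rr Z) a b False := by
  have hW : Inv R {z | z ∈ St E L Rr Z ∨ z ∈ St E Rr L Z ∨ z ∈ MM E L Rr Z} :=
    Inv.or h.eqt h.inv_St (Inv.or h.eqt h.inv_St' h.inv_MM)
  have hw : ∀ {x y : V}, x ∈ {z | z ∈ St E L Rr Z ∨ z ∈ St E Rr L Z ∨ z ∈ MM E L Rr Z} →
      y ∈ {z | z ∈ St E L Rr Z ∨ z ∈ St E Rr L Z ∨ z ∈ MM E L Rr Z} →
      (Within E {z | z ∈ St E L Rr Z ∨ z ∈ St E Rr L Z ∨ z ∈ MM E L Rr Z} x y ↔ E x y) :=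
    fun hx hy => ⟨fun h' => h'.2.2, fun h' => ⟨hx, hy, h'⟩⟩
  have hall : {x | (x ∈ MM E L Rr Z ∧ x ∈ Ng ∧ p < a x ∧ b x < q) ∨
      (x ∈ MM E L Rr Z ∧ x ∈ Ng ∧ b x < p) ∨ (x ∈ MM E L Rr Z ∧ x ∈ Ng ∧ q < a x)} =
      MM E L Rr Z := by
    ext x
    constructor
    · rintro (h1 | h1 | h1)
      · exact h1.1
      · exact h1.1
      · exact h1.1
    · intro h1
      have h2 := h.MM_ng h1
      rcases h.locZ x h1.1 h2 with h3 | h3 | h3
      · exact Or.inr (Or.inl ⟨h1, h2, h3⟩)
      · exact Or.inl ⟨h1, h2, h3⟩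
      · exact Or.inr (Or.inr ⟨h1, h2, h3⟩)
  refine
    { eqt := h.eqt.within hW
      symm := fun x y hxy => hxy.symm h.symm
      invB := h.inv_St
      invC := h.inv_St'
      invN := ?_
      bc := fun x hx hx' => h.disLR x hx.1 hx'.1
      bn := ?_
      gb := ?_
      ab := fun z hz => h.ab z hz.2.1
      d1 := ?_
      d2 := ?_
      d3 := fun z hz z' hz' => h.d3 z hz.2.1 z' hz'.2.1
      d4 := fun z hz z' hz' => h.d4 z hz.2.1 z' hz'.2.1
      c1 := ?_
      c2 := ?_
      c3 := ?_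
      c4 := ?_
      c5 := ?_
      c5' := ?_
      c6 := ?_
      att := ?_ }
  · show Inv R {x | (x ∈ MM E L Rr Z ∧ x ∈ Ng ∧ p < a x ∧ b x < q) ∨
      (x ∈ MM E L Rr Z ∧ x ∈ Ng ∧ b x < p) ∨ (x ∈ MM E L Rr Z ∧ x ∈ Ng ∧ q < a x)}
    rw [hall]
    exact h.inv_MM
  · intro x hx hx'
    have h1 : x ∈ Z := by
      rcases hx' with h1 | h1 | h1
      · exact h1.1.1
      · exact h1.1.1
      · exact h1.1.1
    rcases hx with h2 | h2
    · exact h.disLZ x h2.1 h1
    · exact h.disRZ x h2.1 h1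
  · rintro x ⟨_, h1, h2, h3⟩
    have h4 := h.ab x h1
    exact ⟨fun h5 => by have := h5.2.2; omega, fun h5 => by have := h5.2.2; omega⟩
  · intro x y hx hy hne
    rcases hx with hx | hx <;> rcases hy with hy | hy
    · rw [ps_left hx, ps_left hy]
      exact (h.d4 x (h.loc_St hx).1 y (h.loc_St hy).1 hne).2
    · rw [ps_left hx, h.ps_right hy]
      exact (h.d3 y (h.loc_St' hy).1 x (h.loc_St hx).1).symm
    · rw [ps_left hy, h.ps_right hx]
      exact (h.d3 x (h.loc_St' hx).1 y (h.loc_St hy).1)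
    · rw [h.ps_right hx, h.ps_right hy]
      exact (h.d4 x (h.loc_St' hx).1 y (h.loc_St' hy).1 hne).1
  · rintro z ⟨hzM, hz, _, _⟩ x hx
    rcases hx with hx | hx
    · rw [ps_left hx]
      have hne : z ≠ x := by
        rintro rfl
        exact h.disLZ z hx.1 hzM.1
      exact ⟨h.d3 z hz x (h.loc_St hx).1, (h.d4 z hz x (h.loc_St hx).1 hne).2⟩
    · rw [h.ps_right hx]
      have hne : z ≠ x := by
        rintro rfl
        exact h.disRZ z hx.1 hzM.1
      exact ⟨(h.d4 z hz x (h.loc_St' hx).1 hne).1, (h.d3 x (h.loc_St' hx).1 z hz).symm⟩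
  · intro x hx y hy
    rw [hw (Or.inl hx) (Or.inr (Or.inl hy)), ps_left hx, h.ps_right hy]
    have h1 := h.loc_St hx
    have h2 := h.loc_St' hy
    have h3 := h.d3 y h2.1 x h1.1
    rw [h.c3 x h1.1 y h2.1]
    constructor
    · intro h4
      constructor
      · intro h5
        unfold Cross at h4
        omega
      · exact False.elim
    · intro h4
      have h5 : ¬ b x < a y := fun h6 => h4.1 h6
      unfold Cross
      omega
  · rintro z ⟨hzM, hz, h1, h2⟩ x hx
    rcases hx with hx | hx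
    · rw [hw (Or.inr (Or.inr hzM)) (Or.inl hx), ps_left hx]
      have h3 := h.loc_St hx
      rw [h.c3 z hz x h3.1]
      have h5 := h.ab z hz
      unfold Cross
      constructor <;> intro h4 <;> omega
    · rw [hw (Or.inr (Or.inr hzM)) (Or.inr (Or.inl hx)), h.ps_right hx]
      have h3 := h.loc_St' hx
      rw [h.c3 z hz x h3.1]
      have h5 := h.ab z hz
      unfold Cross
      constructor <;> intro h4 <;> omega
  · rintro z ⟨hzM, hz, h1, h2⟩ z' ⟨hzM', hz', h1', h2'⟩
    rw [hw (Or.inr (Or.inr hzM)) (Or.inr (Or.inr hzM'))]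
    exact h.c3 z hz z' hz'
  · rintro z ⟨hzM, hz, h1⟩ z' ⟨hzM', hz', h1'⟩ he
    have h2 := (h.c3 z hz z' hz').1 he.2.2
    have h3 := h.pq
    unfold Cross at h2
    omega
  · rintro z ⟨hzM, hz, h1⟩ y hy he
    have h4 := h.loc_St' hy
    have h2 := (h.c3 z hz y h4.1).1 he.2.2
    unfold Cross at h2
    omega
  · rintro z ⟨hzM, hz, h1⟩ y hy he
    have h4 := h.loc_St hy
    have h2 := (h.c3 z hz y h4.1).1 he.2.2
    unfold Cross at h2
    omega
  · rintro z ⟨hzM, hz, h1, h2⟩ o he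
    rcases he.2.1 with h3 | h3 | h3
    · exact Or.inl h3
    · exact Or.inr (Or.inl h3)
    · refine Or.inr (Or.inr ⟨h3, ?_⟩)
      exact h.conn_mid (ReflTransGen.single ⟨hzM.1, h3.1, he.2.2⟩) hz h1 h2
  · rintro z ⟨hzM, hz, h1, h2⟩
    obtain ⟨h3, m', ⟨t, ht, he⟩, hc⟩ := id hzM
    have key : ∀ s, ReflTransGen (Within E Z) z s →
        ReflTransGen (Within (Within E {z | z ∈ St E L Rr Z ∨ z ∈ St E Rr L Z ∨ z ∈ MM E L Rr Z})
          {m | m ∈ MM E L Rr Z ∧ m ∈ Ng ∧ p < a m ∧ b m < q}) z s := by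
      intro s hs
      induction hs with
      | refl => exact ReflTransGen.refl
      | @tail u v hu huv ih =>
        have e1 := MM_conn h.symm hzM hu
        have e2 := MM_conn h.symm hzM (hu.tail huv)
        refine ih.tail ⟨⟨e1, h.conn_mid hu hz h1 h2⟩, ⟨e2, h.conn_mid (hu.tail huv) hz h1 h2⟩,
          Or.inr (Or.inr e1), Or.inr (Or.inr e2), huv.2.2⟩
    refine ⟨m', key m' hc, t, ht, Or.inr (Or.inr (MM_conn h.symm hzM hc)), ?_, he⟩
    rcases ht with ht | ht
    · exact Or.inl ht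
    · exact Or.inr (Or.inl ht)

end

/-- **The cut lemma.** There is an invariant cut between two neighbouring points of different
kinds. -/
theorem cut [Finite V] {R : V → V → Prop} (n : ℕ) : ∀ {E : V → V → Prop} {B C Ng Nb Nc : Set V}
    {pos a b : V → ℤ} {σ : Prop}, IsFrame E R B C Ng Nb Nc pos a b σ → Ng.ncard ≤ n →
    ∀ P ∈ B, ∀ Q ∈ C, pos P < pos Q →
    (∀ x, (x ∈ B ∨ x ∈ C) → ¬ (pos P < pos x ∧ pos x < pos Q)) →
    ∃ e, pos P ≤ e ∧ e < pos Q ∧ Inv R {z | z ∈ Ng ∧ a z ≤ e ∧ e < b z} := by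
  classical
  induction n with
  | zero =>
    intro E B C Ng Nb Nc pos a b σ hF hn P hP Q hQ hPQ hno
    have h1 : Ng = ∅ := (Set.ncard_eq_zero (Set.toFinite _)).1 (Nat.le_zero.1 hn)
    refine ⟨pos P, le_refl _, hPQ, ?_⟩
    rintro x y _ ⟨h2, _⟩
    rw [h1] at h2
    exact absurd h2 (Set.notMem_empty x)
  | succ n ih =>
    intro E B C Ng Nb Nc pos a b σ hF hn P hP Q hQ hPQ hno
    obtain ⟨L, Rr, Z, N2, h⟩ := hF.gap hP hQ hPQ hno
    by_cases hfree : ∃ e, pos P ≤ e ∧ e < pos Q ∧ ∀ z ∈ Ng, z ∉ N2 → ¬ (a z ≤ e ∧ e < b z)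
    · obtain ⟨e, h1, h2, h3⟩ := hfree
      refine ⟨e, h1, h2, ?_⟩
      have e1 : {z | z ∈ Ng ∧ a z ≤ e ∧ e < b z} = N2 := by
        ext z
        constructor
        · rintro ⟨h4, h5⟩
          by_contra h6
          exact h3 z h4 h6 h5
        · intro h4
          have h5 := (h.n2 z).1 h4
          exact ⟨h5.1, by omega, by omega⟩
      rw [e1]
      exact h.invN2
    · have hcov : ∀ e, pos P ≤ e → e < pos Q → ∃ z ∈ Ng, z ∉ N2 ∧ a z ≤ e ∧ e < b z := by
        intro e h1 h2
        by_contra hcon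
        refine hfree ⟨e, h1, h2, fun z hz hz2 hz3 => hcon ⟨z, hz, hz2, hz3⟩⟩
      obtain ⟨⟨l0, hl0⟩, ⟨r0, hr0⟩⟩ := h.linked hcov
      have hF1 := h.inner
      have hcard : {m | m ∈ MM E L Rr Z ∧ m ∈ Ng ∧ pos P < a m ∧ b m < pos Q}.ncard ≤ n := by
        have h1 : {m | m ∈ MM E L Rr Z ∧ m ∈ Ng ∧ pos P < a m ∧ b m < pos Q}.ncard < Ng.ncard := by
          refine Set.ncard_lt_ncard ⟨fun m hm => hm.2.1, fun hsub => ?_⟩ (Set.toFinite _)
          have h2 := hsub (h.loc_St hl0).1
          have h3 := h.loc_St hl0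
          have h4 := h2.2.2
          omega
        omega
      by_cases hcase : ∃ y ∈ St E Rr L Z, ∃ z ∈ St E L Rr Z, a y < b z
      · -- a linked chord of `Rr` starts before a linked chord of `L` ends
        obtain ⟨w, hw, hwmin⟩ : ∃ w ∈ {w : V × V | w.1 ∈ St E Rr L Z ∧ w.2 ∈ St E L Rr Z ∧
            a w.1 < b w.2}, ∀ v ∈ {w : V × V | w.1 ∈ St E Rr L Z ∧ w.2 ∈ St E L Rr Z ∧
            a w.1 < b w.2}, b w.2 - a w.1 ≤ b v.2 - a v.1 := by
          refine Set.exists_min_image _ (fun w : V × V => b w.2 - a w.1) (Set.toFinite _) ?_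
          obtain ⟨y, hy, z, hz, hyz⟩ := hcase
          exact ⟨(y, z), hy, hz, hyz⟩
        obtain ⟨y0, z0⟩ := w
        obtain ⟨hy0, hz0, hyz⟩ := hw
        simp only at hy0 hz0 hyz hwmin
        have e1 : ps E a b L Rr Z y0 = a y0 := h.ps_right hy0
        have e2 : ps E a b L Rr Z z0 = b z0 := ps_left hz0
        have hno' : ∀ x, (x ∈ St E Rr L Z ∨ x ∈ St E L Rr Z) →
            ¬ (ps E a b L Rr Z y0 < ps E a b L Rr Z x ∧
              ps E a b L Rr Z x < ps E a b L Rr Z z0) := by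
          rintro x (hx | hx) ⟨h1, h2⟩
          · rw [e1, h.ps_right hx] at h1
            rw [e2, h.ps_right hx] at h2
            have := hwmin (x, z0) ⟨hx, hz0, h2⟩
            simp only at this
            omega
          · rw [e1, ps_left hx] at h1
            rw [e2, ps_left hx] at h2
            have := hwmin (y0, x) ⟨hy0, hx, h1⟩
            simp only at this
            omega
        have hlt : ps E a b L Rr Z y0 < ps E a b L Rr Z z0 := by
          rw [e1, e2]
          exact hyz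
        obtain ⟨e, h1, h2, h3⟩ := ih hF1.swap hcard y0 hy0 z0 hz0 hlt hno'
        have h4 := hF1.swap.inv_lo hy0 hz0 hlt hno'
        have h5 := hF1.swap.inv_hi hy0 hz0 hlt hno'
        rw [e1] at h1
        rw [e2] at h2
        have h6 := h.loc_St' hy0
        have h7 := h.loc_St hz0
        refine ⟨e, by omega, by omega, ?_⟩
        rw [h.cut_eq (Or.inr ⟨y0, hy0, h1⟩) (Or.inl ⟨z0, hz0, h2⟩)]
        refine Inv.or h.eqt h.invN2 (Inv.or h.eqt ?_ (Inv.or h.eqt ?_ ?_))
        · have e3 : {z | z ∈ St E L Rr Z ∧ e < b z} = {y | y ∈ St E L Rr Z ∧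
              ps E a b L Rr Z z0 ≤ ps E a b L Rr Z y} := by
            ext z
            constructor
            · rintro ⟨h8, h9⟩
              refine ⟨h8, ?_⟩
              have h10 := hno' z (Or.inr h8)
              rw [e1, e2, ps_left h8] at h10
              rw [e2, ps_left h8]
              omega
            · rintro ⟨h8, h9⟩
              rw [e2, ps_left h8] at h9
              exact ⟨h8, by omega⟩
          rw [e3]
          exact h5
        · have e3 : {z | z ∈ St E Rr L Z ∧ a z ≤ e} = {y | y ∈ St E Rr L Z ∧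
              ps E a b L Rr Z y ≤ ps E a b L Rr Z y0} := by
            ext z
            constructor
            · rintro ⟨h8, h9⟩
              refine ⟨h8, ?_⟩
              have h10 := hno' z (Or.inl h8)
              rw [e1, e2, h.ps_right h8] at h10
              rw [e1, h.ps_right h8]
              omega
            · rintro ⟨h8, h9⟩
              rw [e1, h.ps_right h8] at h9
              exact ⟨h8, by omega⟩
          rw [e3]
          exact h4
        · exact h3
      · -- all linked chords of `L` end before those of `Rr` start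
        obtain ⟨z0, hz0, hz0max⟩ := Set.exists_max_image (St E L Rr Z) b (Set.toFinite _) ⟨l0, hl0⟩
        obtain ⟨y0, hy0, hy0min⟩ := Set.exists_min_image (St E Rr L Z) a (Set.toFinite _) ⟨r0, hr0⟩
        have h6 := h.loc_St' hy0
        have h7 := h.loc_St hz0
        have hlt0 : b z0 < a y0 := by
          have h1 : ¬ a y0 < b z0 := fun h' => hcase ⟨y0, hy0, z0, hz0, h'⟩
          have h2 := h.d3 y0 h6.1 z0 h7.1
          omega
        have e1 : ps E a b L Rr Z y0 = a y0 := h.ps_right hy0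
        have e2 : ps E a b L Rr Z z0 = b z0 := ps_left hz0
        have hno' : ∀ x, (x ∈ St E L Rr Z ∨ x ∈ St E Rr L Z) →
            ¬ (ps E a b L Rr Z z0 < ps E a b L Rr Z x ∧
              ps E a b L Rr Z x < ps E a b L Rr Z y0) := by
          rintro x (hx | hx) ⟨h1, h2⟩
          · rw [e2, ps_left hx] at h1
            have := hz0max x hx
            omega
          · rw [e1, h.ps_right hx] at h2
            have := hy0min x hx
            omega
        have hlt : ps E a b L Rr Z z0 < ps E a b L Rr Z y0 := by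
          rw [e1, e2]
          exact hlt0
        obtain ⟨e, h1, h2, h3⟩ := ih hF1 hcard z0 hz0 y0 hy0 hlt hno'
        rw [e2] at h1
        rw [e1] at h2
        refine ⟨e, by omega, by omega, ?_⟩
        rw [h.cut_eq (Or.inl ⟨z0, hz0, h1⟩) (Or.inr ⟨y0, hy0, h2⟩)]
        refine Inv.or h.eqt h.invN2 (Inv.or h.eqt ?_ (Inv.or h.eqt ?_ ?_))
        · rintro x y _ ⟨h8, h9⟩
          have := hz0max x h8
          omega
        · rintro x y _ ⟨h8, h9⟩
          have := hy0min x h8
          omega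
        · exact h3

end Pool.Agent.J4.H77.CG
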