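import Pool.Agent.J4.H77.CG.Gap

/-!
# Chords which link the two sides of a gap
-/

set_option autoImplicit false
set_option linter.unusedVariables false

namespace Pool.Agent.J4.H77.CG

open Relation

variable {V : Type}

/-- The chords of `Z` whose component in `Z` meets both `L` and `Rr`. -/
def MZ (E : V → V → Prop) (L Rr Z : Set V) : Set V :=
  {m | m ∈ Z ∧ (∃ m' ∈ {x | ∃ z ∈ L, E x z}, ReflTransGen (Within E Z) m m') ∧
    (∃ m' ∈ {x | ∃ z ∈ Rr, E x z}, ReflTransGen (Within E Z) m m')}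

/-- The chords of `L` which are linked to `Rr`. -/
def St (E : V → V → Prop) (L Rr Z : Set V) : Set V :=
  {z | z ∈ L ∧ ((∃ y ∈ Rr, E z y) ∨ ∃ m ∈ MZ E L Rr Z, E z m)}

/-- The chords of `Z` whose component meets a linked chord. -/
def MM (E : V → V → Prop) (L Rr Z : Set V) : Set V :=
  {m | m ∈ Z ∧ ∃ m' ∈ {x | ∃ z ∈ {z | z ∈ St E L Rr Z ∨ z ∈ St E Rr L Z}, E x z},
    ReflTransGen (Within E Z) m m'}

theorem MZ_comm (E : V → V → Prop) (L Rr Z : Set V) : MZ E L Rr Z = MZ E Rr L Z := by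
  ext m
  unfold MZ
  constructor
  · rintro ⟨h1, h2, h3⟩
    exact ⟨h1, h3, h2⟩
  · rintro ⟨h1, h2, h3⟩
    exact ⟨h1, h3, h2⟩

theorem MM_comm (E : V → V → Prop) (L Rr Z : Set V) : MM E L Rr Z = MM E Rr L Z := by
  ext m
  unfold MM
  constructor
  · rintro ⟨h1, m', ⟨z, h2, h3⟩, h4⟩
    exact ⟨h1, m', ⟨z, Or.symm h2, h3⟩, h4⟩
  · rintro ⟨h1, m', ⟨z, h2, h3⟩, h4⟩
    exact ⟨h1, m', ⟨z, Or.symm h2, h3⟩, h4⟩

section
variable {E R : V → V → Prop} {B C Ng Nb Nc : Set V} {a b : V → ℤ} {p q : ℤ}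
  {L Rr Z N2 : Set V}

theorem IsGap.inv_MZ (h : IsGap E R B C Ng Nb Nc a b p q L Rr Z N2) : Inv R (MZ E L Rr Z) :=
  Inv.and h.eqt h.invZ (Inv.and h.eqt (Inv.reach h.eqt h.invZ (Inv.nbr h.eqt h.invL))
    (Inv.reach h.eqt h.invZ (Inv.nbr h.eqt h.invR)))

theorem IsGap.inv_St (h : IsGap E R B C Ng Nb Nc a b p q L Rr Z N2) : Inv R (St E L Rr Z) :=
  Inv.and h.eqt h.invL (Inv.or h.eqt (Inv.nbr h.eqt h.invR) (Inv.nbr h.eqt h.inv_MZ))

theorem IsGap.inv_St' (h : IsGap E R B C Ng Nb Nc a b p q L Rr Z N2) : Inv R (St E Rr L Z) :=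
  h.mirror.inv_St

theorem IsGap.inv_MM (h : IsGap E R B C Ng Nb Nc a b p q L Rr Z N2) : Inv R (MM E L Rr Z) :=
  Inv.and h.eqt h.invZ (Inv.reach h.eqt h.invZ
    (Inv.nbr h.eqt (Inv.or h.eqt h.inv_St h.inv_St')))

/-- neighbours of chords between within `N` are between -/
theorem IsGap.ng_of_adj (h : IsGap E R B C Ng Nb Nc a b p q L Rr Z N2) {z z' : V} (hz : z ∈ Ng)
    (hz' : z' ∈ Ng ∨ z' ∈ Nb ∨ z' ∈ Nc) (he : E z z') : z' ∈ Ng := by
  rcases h.c6 z hz z' he with h1 | h1 | h1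
  · exact absurd h1 (h.sepN z' hz').1
  · exact absurd h1 (h.sepN z' hz').2
  · exact h1

theorem IsGap.step_mid (h : IsGap E R B C Ng Nb Nc a b p q L Rr Z N2) {m m' : V} (hm : m ∈ Ng)
    (he : Within E Z m m') : m' ∈ Ng := h.ng_of_adj hm (h.memZ m' he.2.1) he.2.2

theorem IsGap.conn_mid (h : IsGap E R B C Ng Nb Nc a b p q L Rr Z N2) {m m' : V}
    (he : ReflTransGen (Within E Z) m m') (hm : m ∈ Ng) (h1 : p < a m) (h2 : b m < q) :
    m' ∈ Ng ∧ p < a m' ∧ b m' < q := by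
  induction he with
  | refl => exact ⟨hm, h1, h2⟩
  | @tail u v _ h4 ih =>
    obtain ⟨h5, h6, h7⟩ := ih
    have h8 := h.step_mid h5 h4
    refine ⟨h8, ?_⟩
    have h9 := h.locZ v h4.2.1 h8
    have h10 := (h.c3 u h5 v h8).1 h4.2.2
    have h11 := h.ab u h5
    have h12 := h.ab v h8
    unfold Cross at h10
    omega

theorem IsGap.conn_left (h : IsGap E R B C Ng Nb Nc a b p q L Rr Z N2) {m m' : V}
    (he : ReflTransGen (Within E Z) m m') (hm : m ∈ Ng) (h1 : b m < p) :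
    m' ∈ Ng ∧ b m' < p := by
  induction he with
  | refl => exact ⟨hm, h1⟩
  | @tail u v _ h4 ih =>
    obtain ⟨h5, h6⟩ := ih
    have h8 := h.step_mid h5 h4
    refine ⟨h8, ?_⟩
    have h9 := h.locZ v h4.2.1 h8
    have h10 := (h.c3 u h5 v h8).1 h4.2.2
    have h11 := h.ab u h5
    have h12 := h.ab v h8
    have h13 := h.pq
    unfold Cross at h10
    omega

theorem IsGap.conn_right (h : IsGap E R B C Ng Nb Nc a b p q L Rr Z N2) {m m' : V}
    (he : ReflTransGen (Within E Z) m m') (hm : m ∈ Ng) (h1 : q < a m) :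
    m' ∈ Ng ∧ q < a m' := by
  have := h.mirror.conn_left he hm (by omega)
  exact ⟨this.1, by omega⟩

theorem IsGap.conn_nb (h : IsGap E R B C Ng Nb Nc a b p q L Rr Z N2) {m m' : V}
    (he : ReflTransGen (Within E Z) m m') (hm : m ∈ Nb) : m' ∈ Nb := by
  induction he with
  | refl => exact hm
  | @tail u v _ h4 ih =>
    rcases h.memZ v h4.2.1 with h5 | h5 | h5
    · have := h.ng_of_adj h5 (Or.inr (Or.inl ih)) (h.symm _ _ h4.2.2)
      exact absurd ih (h.gb u this).1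
    · exact h5
    · exact absurd h4.2.2 (h.c4 u ih v h5)

theorem IsGap.conn_nc (h : IsGap E R B C Ng Nb Nc a b p q L Rr Z N2) {m m' : V}
    (he : ReflTransGen (Within E Z) m m') (hm : m ∈ Nc) : m' ∈ Nc := h.mirror.conn_nb he hm

/-- `Nb` does not meet `Rr` -/
theorem IsGap.nb_R (h : IsGap E R B C Ng Nb Nc a b p q L Rr Z N2) {m y : V} (hm : m ∈ Nb)
    (hy : y ∈ Rr) : ¬ E m y := by
  intro he
  rcases h.memR y hy with h1 | h1
  · have := h.ng_of_adj h1 (Or.inr (Or.inl hm)) (h.symm _ _ he)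
    exact (h.gb m this).1 hm
  · exact h.c4 m hm y h1 he

theorem IsGap.nc_L (h : IsGap E R B C Ng Nb Nc a b p q L Rr Z N2) {m y : V} (hm : m ∈ Nc)
    (hy : y ∈ L) : ¬ E m y := h.mirror.nb_R hm hy

theorem IsGap.loc_MZ (h : IsGap E R B C Ng Nb Nc a b p q L Rr Z N2) {m : V}
    (hm : m ∈ MZ E L Rr Z) : m ∈ Ng ∧ p < a m ∧ b m < q := by
  obtain ⟨h1, ⟨m1, ⟨z, hz, hmz⟩, h2⟩, ⟨m2, ⟨y, hy, hmy⟩, h3⟩⟩ := hm
  have hmg : m ∈ Ng := by
    rcases h.memZ m h1 with h4 | h4 | h4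
    · exact h4
    · exact absurd hmy (h.nb_R (h.conn_nb h3 h4) hy)
    · exact absurd hmz (h.nc_L (h.conn_nc h2 h4) hz)
  refine ⟨hmg, ?_⟩
  rcases h.locZ m h1 hmg with h4 | h4 | h4
  · exfalso
    obtain ⟨h5, h6⟩ := h.conn_left h3 hmg h4
    have h7 : y ∈ Ng := h.ng_of_adj h5 (by rcases h.memR y hy with h | h <;> tauto) hmy
    have h8 := (h.c3 m2 h5 y h7).1 hmy
    have h9 := h.locR y hy h7
    unfold Cross at h8
    omega
  · exact h4
  · exfalso
    obtain ⟨h5, h6⟩ := h.conn_right h2 hmg h4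
    have h7 : z ∈ Ng := h.ng_of_adj h5 (by rcases h.memL z hz with h | h <;> tauto) hmz
    have h8 := (h.c3 m1 h5 z h7).1 hmz
    have h9 := h.locL z hz h7
    unfold Cross at h8
    omega

theorem IsGap.loc_St (h : IsGap E R B C Ng Nb Nc a b p q L Rr Z N2) {z : V}
    (hz : z ∈ St E L Rr Z) : z ∈ Ng ∧ a z < p ∧ p < b z ∧ b z < q := by
  obtain ⟨h1, h2⟩ := hz
  rcases h2 with ⟨y, hy, he⟩ | ⟨m, hm, he⟩
  · have hzg : z ∈ Ng := by
      rcases h.memL z h1 with h3 | h3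
      · exact h3
      · exact absurd he (h.nb_R h3 hy)
    have hyg : y ∈ Ng := h.ng_of_adj hzg (by rcases h.memR y hy with h | h <;> tauto) he
    have h3 := h.locL z h1 hzg
    have h4 := h.locR y hy hyg
    have h5 := (h.c3 z hzg y hyg).1 he
    unfold Cross at h5
    exact ⟨hzg, by omega, by omega, by omega⟩
  · obtain ⟨h6, h7, h8⟩ := h.loc_MZ hm
    have hzg : z ∈ Ng :=
      h.ng_of_adj h6 (by rcases h.memL z h1 with h | h <;> tauto) (h.symm _ _ he)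
    have h3 := h.locL z h1 hzg
    have h5 := (h.c3 z hzg m h6).1 he
    unfold Cross at h5
    exact ⟨hzg, by omega, by omega, by omega⟩

theorem IsGap.loc_St' (h : IsGap E R B C Ng Nb Nc a b p q L Rr Z N2) {z : V}
    (hz : z ∈ St E Rr L Z) : z ∈ Ng ∧ p < a z ∧ a z < q ∧ q < b z := by
  have := h.mirror.loc_St hz
  exact ⟨this.1, by omega, by omega, by omega⟩

/-- a chord of `Z` connected to one of `MZ` is in `MZ` -/
theorem MZ_conn (hs : ∀ x y, E x y → E y x) {m m' : V} (hm : m ∈ MZ E L Rr Z)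
    (h : ReflTransGen (Within E Z) m m') : m' ∈ MZ E L Rr Z := by
  obtain ⟨h1, ⟨m1, h2, h3⟩, ⟨m2, h4, h5⟩⟩ := hm
  exact ⟨within_mem h h1, ⟨m1, h2, (within_symm hs h).trans h3⟩,
    ⟨m2, h4, (within_symm hs h).trans h5⟩⟩

/-- A walk of chords of `Z` starting inside of a chord `z` ends inside of it or meets it. -/
theorem IsGap.walk (h : IsGap E R B C Ng Nb Nc a b p q L Rr Z N2) {z u u' : V}
    (hz : z ∈ Ng) (hu : u ∈ Ng) (hw : ReflTransGen (Within E Z) u u')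
    (hin : a z < a u ∧ b u < b z) :
    u' ∈ Ng ∧ ((∃ m, ReflTransGen (Within E Z) u m ∧ E m z) ∨ (a z < a u' ∧ b u' < b z)) := by
  induction hw with
  | refl => exact ⟨hu, Or.inr hin⟩
  | @tail m m' h1 h2 ih =>
    obtain ⟨hm, ih⟩ := ih
    have h3 : m' ∈ Ng := h.step_mid hm h2
    refine ⟨h3, ?_⟩
    rcases ih with ih | ih
    · exact Or.inl ih
    · by_cases hmz : E m' z
      · exact Or.inl ⟨m', h1.tail h2, hmz⟩
      · right
        have h4 := (h.c3 _ hm _ h3).1 h2.2.2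
        rw [h.c3 _ h3 _ hz] at hmz
        have h5 := h.ab _ hz
        have h6 := h.ab _ h3
        have h7 := h.ab _ hm
        by_cases hne : m' = z
        · subst hne
          unfold Cross at h4
          omega
        · have h8 := h.d4 _ h3 _ hz hne
          have h9 := h.d3 _ h3 _ hz
          have h10 := h.d3 _ hz _ h3
          unfold Cross at h4 hmz
          omega

/-- a chord of `L` over an end of a chord of `Rr` -/
theorem IsGap.L_over_R (h : IsGap E R B C Ng Nb Nc a b p q L Rr Z N2) {z y : V} (hz : z ∈ L)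
    (hzg : z ∈ Ng) (hy : y ∈ Rr) (hyg : y ∈ Ng) (hlt : a y < b z) : E z y := by
  have h3 := h.locL z hz hzg
  have h4 := h.locR y hy hyg
  rw [h.c3 z hzg y hyg]
  unfold Cross
  omega

/-- a chord of `L` over an end of a chord of `MZ` -/
theorem IsGap.L_over_MZ (h : IsGap E R B C Ng Nb Nc a b p q L Rr Z N2) {z m : V} (hz : z ∈ L)
    (hzg : z ∈ Ng) (hm : m ∈ MZ E L Rr Z) (hlt : a m < b z) : z ∈ St E L Rr Z := by
  by_contra hcon
  obtain ⟨h1, h2, h3⟩ := h.loc_MZ hm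
  have h4 := h.locL z hz hzg
  have hno : ∀ m' ∈ MZ E L Rr Z, ¬ E m' z := fun m' hm' he =>
    hcon ⟨hz, Or.inr ⟨m', hm', h.symm _ _ he⟩⟩
  have h5 := hno m hm
  rw [h.c3 m h1 z hzg] at h5
  have hne : m ≠ z := by
    rintro rfl
    exact h.disLZ m hz hm.1
  have h6 := h.d4 m h1 z hzg hne
  have h7 := h.d3 m h1 z hzg
  have hin : a z < a m ∧ b m < b z := by
    unfold Cross at h5
    omega
  obtain ⟨_, _, ⟨m2, ⟨y, hy, hmy⟩, h8⟩⟩ := id hm
  obtain ⟨h9, h10⟩ := h.walk hzg h1 h8 hin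
  rcases h10 with ⟨m', h11, h12⟩ | h11
  · exact hno m' (MZ_conn h.symm hm h11) h12
  · have hyg : y ∈ Ng := h.ng_of_adj h9 (by rcases h.memR y hy with h | h <;> tauto) hmy
    have h12 := (h.c3 m2 h9 y hyg).1 hmy
    have h13 := h.locR y hy hyg
    refine hcon ⟨hz, Or.inl ⟨y, hy, h.L_over_R hz hzg hy hyg ?_⟩⟩
    unfold Cross at h12
    omega

/-- the linked chords are the last ones -/
theorem IsGap.St_up (h : IsGap E R B C Ng Nb Nc a b p q L Rr Z N2) {z z0 : V} (hz : z ∈ L)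
    (hzg : z ∈ Ng) (hz0 : z0 ∈ St E L Rr Z) (hlt : b z0 < b z) : z ∈ St E L Rr Z := by
  obtain ⟨h1, h2, h3, h4⟩ := h.loc_St hz0
  obtain ⟨h5, h6⟩ := hz0
  rcases h6 with ⟨y, hy, he⟩ | ⟨m, hm, he⟩
  · have hyg : y ∈ Ng := h.ng_of_adj h1 (by rcases h.memR y hy with h | h <;> tauto) he
    have h7 := (h.c3 z0 h1 y hyg).1 he
    have h8 := h.locR y hy hyg
    refine ⟨hz, Or.inl ⟨y, hy, h.L_over_R hz hzg hy hyg ?_⟩⟩
    unfold Cross at h7
    omega
  · obtain ⟨h7, h8, h9⟩ := h.loc_MZ hm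
    have h10 := (h.c3 z0 h1 m h7).1 he
    refine h.L_over_MZ hz hzg hm ?_
    unfold Cross at h10
    omega

theorem IsGap.St_over (h : IsGap E R B C Ng Nb Nc a b p q L Rr Z N2) {z y : V} (hz : z ∈ L)
    (hzg : z ∈ Ng) (hy : y ∈ St E Rr L Z) (hlt : a y < b z) : z ∈ St E L Rr Z :=
  ⟨hz, Or.inl ⟨y, hy.1, h.L_over_R hz hzg hy.1 (h.loc_St' hy).1 hlt⟩⟩

end

end Pool.Agent.J4.H77.CG
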