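import Pool.Agent.J4.H77.CG.Ind

/-!
# Circle graphs: conclusion
-/

set_option autoImplicit false
set_option linter.unusedSectionVars false

namespace Pool.Agent.J4.H77.CG

open Relation Pool.Agent.W185.SRG

section
variable {V W : Type} [Fintype V] [Fintype W] {G : SimpleGraph V} {H : SimpleGraph W} {N : ℕ}

/-- Isomorphisms over two vertices extend to the two vertices. -/
theorem IsOv.extend {r s : V} {r' s' : W} {F : Set V} {F' : Set W} {f : V → W}
    (hf : IsOv G H r s r' s' F F' f) (hrs : G.Adj r s) (hrs' : H.Adj r' s') (hr : r ∉ F)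
    (hs : s ∉ F) (hr' : r' ∉ F') (hs' : s' ∉ F') :
    ∃ g : V → W, Set.BijOn g (insert r (insert s F)) (insert r' (insert s' F')) ∧
      ∀ u ∈ insert r (insert s F), ∀ v ∈ insert r (insert s F),
        (G.Adj u v ↔ H.Adj (g u) (g v)) := by
  classical
  let g : V → W := Function.update (Function.update f s s') r r'
  have hgr : g r = r' := Function.update_self _ _ _
  have hgs : g s = s' := by
    show Function.update (Function.update f s s') r r' s = s'
    rw [Function.update_of_ne hrs.ne', Function.update_self]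
  have hgf : ∀ u ∈ F, g u = f u := by
    intro u hu
    have hur : u ≠ r := by
      rintro rfl
      exact hr hu
    have hus : u ≠ s := by
      rintro rfl
      exact hs hu
    show Function.update (Function.update f s s') r r' u = f u
    rw [Function.update_of_ne hur, Function.update_of_ne hus]
  have h1 : Set.BijOn g F F' := hf.bij.congr fun u hu => (hgf u hu).symm
  have h2 : Set.BijOn g (insert s F) (insert s' F') := by
    have := h1.insert (a := s) (by rw [hgs]; exact hs')
    rwa [hgs] at this
  have h3 : Set.BijOn g (insert r (insert s F)) (insert r' (insert s' F')) := by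
    have := h2.insert (a := r) (by
      rw [hgr]
      rintro (h | h)
      · exact hrs'.ne h
      · exact hr' h)
    rwa [hgr] at this
  refine ⟨g, h3, ?_⟩
  have k1 : ∀ u ∈ insert r (insert s F), (G.Adj r u ↔ H.Adj r' (g u)) := by
    rintro u (rfl | rfl | hu)
    · rw [hgr]
      exact ⟨fun h => absurd h (G.irrefl), fun h => absurd h (H.irrefl)⟩
    · rw [hgs]
      exact ⟨fun _ => hrs', fun _ => hrs⟩
    · rw [hgf u hu]
      exact hf.adjr u hu
  have k2 : ∀ u ∈ insert r (insert s F), (G.Adj s u ↔ H.Adj s' (g u)) := by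
    rintro u (rfl | rfl | hu)
    · rw [hgr]
      exact ⟨fun _ => hrs'.symm, fun _ => hrs.symm⟩
    · rw [hgs]
      exact ⟨fun h => absurd h (G.irrefl), fun h => absurd h (H.irrefl)⟩
    · rw [hgf u hu]
      exact hf.adjs u hu
  rintro u hu v hv
  rcases hu with rfl | rfl | hu
  · rw [hgr]
    exact k1 v hv
  · rw [hgs]
    exact k2 v hv
  · rcases hv with rfl | rfl | hv
    · rw [hgr, G.adj_comm, H.adj_comm]
      exact k1 u (Or.inr (Or.inr hu))
    · rw [hgs, G.adj_comm, H.adj_comm]
      exact k2 u (Or.inr (Or.inr hu))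
    · rw [hgf u hu, hgf v hv]
      exact hf.adj u hu v hv

theorem conn_comm {V : Type} {G : SimpleGraph V} {x y : V} (h : ReflTransGen G.Adj x y) :
    ReflTransGen G.Adj y x := by
  induction h with
  | refl => exact ReflTransGen.refl
  | tail _ h2 ih => exact ReflTransGen.head h2.symm ih

/-- Components of equivalent vertices are isomorphic. -/
theorem component_iso (hN : 5 ≤ N) {a b : V → ℤ} (hG : IsDiag G.Adj a b) {x : V} {x' : W}
    (hT : T G H N [(x, x')]) :
    ∃ f : V → W, Set.BijOn f {y | ReflTransGen G.Adj x y} {y | ReflTransGen H.Adj x' y} ∧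
      ∀ u ∈ {y | ReflTransGen G.Adj x y}, ∀ v ∈ {y | ReflTransGen G.Adj x y},
        (G.Adj u v ↔ H.Adj (f u) (f v)) := by
  classical
  by_cases hx : ∃ s, G.Adj x s
  · obtain ⟨s, hxs⟩ := hx
    obtain ⟨s', h1⟩ := hT.forth (by simp only [List.length_cons, List.length_nil]; omega)
      (by simp) s
    have hxs' : H.Adj x' s' := (h1.adj_iff (a := (x, x')) (b := (s, s')) (by omega) (by simp)
      (by simp)).1 hxs
    have key : ∀ {X : Type} (K : SimpleGraph X) (p q : X), K.Adj p q →
        Clo K.Adj p q {y | ReflTransGen K.Adj p y ∧ y ≠ p ∧ y ≠ q} := by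
      rintro X K p q hpq y ⟨h2, h3, h4⟩ z ⟨-, -, h5, h6, h7⟩
      refine ⟨?_, h5, h6⟩
      by_contra hcon
      apply h7
      constructor
      · intro h
        exact absurd (h2.tail h) hcon
      · intro h
        exact absurd ((ReflTransGen.single hpq).tail h.2) hcon
    obtain ⟨β, hβ⟩ := h1.step (by simp only [List.length_cons, List.length_nil]; omega) (by simp)
    have hβ' : ∀ y, T G H N [(y, β y), (x, x'), (s, s')] := fun y => (hβ y).mono (by
      intro e he
      simp only [List.mem_cons, List.not_mem_nil, or_false] at he ⊢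
      tauto)
    obtain ⟨f, hf⟩ := closed_step (by omega) (key G x s hxs) (key H x' s' hxs')
      (fun h => h.2.1 rfl) (fun h => h.2.2 rfl) β hβ' (fun y => by
        have e1 : ReflTransGen G.Adj x y ↔ ReflTransGen H.Adj x' (β y) :=
          (hβ y).conn (by omega) (by simp) (by simp)
        have e2 : y = x ↔ β y = x' := (hβ y).eq_iff (a := (y, β y)) (b := (x, x')) (by omega)
          (by simp) (by simp)
        have e3 : y = s ↔ β y = s' := (hβ y).eq_iff (a := (y, β y)) (b := (s, s')) (by omega)
          (by simp) (by simp)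
        exact and_congr e1 (and_congr (not_congr e2) (not_congr e3))) (by
        rintro y ⟨h2, h3, h4⟩
        exact induction_step hN hG _ x s x' s' y (β y) hxs h3 h4 h2 (Nat.lt_succ_self _) (hβ' y))
    obtain ⟨g, hg1, hg2⟩ := hf.extend hxs hxs' (fun h => h.2.1 rfl) (fun h => h.2.2 rfl)
      (fun h => h.2.1 rfl) (fun h => h.2.2 rfl)
    have e : ∀ {X : Type} (K : SimpleGraph X) (p q : X), K.Adj p q →
        insert p (insert q {y | ReflTransGen K.Adj p y ∧ y ≠ p ∧ y ≠ q}) =
          {y | ReflTransGen K.Adj p y} := by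
      intro X K p q hpq
      ext y
      constructor
      · rintro (rfl | rfl | h)
        · exact ReflTransGen.refl
        · exact ReflTransGen.single hpq
        · exact h.1
      · intro h
        by_cases h1 : y = p
        · exact Or.inl h1
        · by_cases h2 : y = q
          · exact Or.inr (Or.inl h2)
          · exact Or.inr (Or.inr ⟨h, h1, h2⟩)
    rw [e G x s hxs] at hg1 hg2
    rw [e H x' s' hxs'] at hg1
    exact ⟨g, hg1, hg2⟩
  · have hx' : ¬ ∃ s, H.Adj x' s := by
      rintro ⟨s', hs'⟩
      obtain ⟨s, h1⟩ := hT.back (by simp only [List.length_cons, List.length_nil]; omega)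
        (by simp) s'
      exact hx ⟨s, (h1.adj_iff (a := (x, x')) (b := (s, s')) (by omega) (by simp)
        (by simp)).2 hs'⟩
    have e : ∀ {X : Type} (K : SimpleGraph X) (p : X), (¬ ∃ q, K.Adj p q) →
        {y | ReflTransGen K.Adj p y} = {p} := by
      intro X K p hp
      ext y
      constructor
      · intro h
        rcases ReflTransGen.cases_head h with h1 | ⟨c, h1, -⟩
        · exact h1.symm
        · exact absurd ⟨c, h1⟩ hp
      · intro h
        have h : y = p := h
        subst h
        exact ReflTransGen.refl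
    rw [e G x hx, e H x' hx']
    refine ⟨fun _ => x', ⟨fun _ _ => rfl, ?_, ?_⟩, ?_⟩
    · rintro u hu v hv -
      have hu : u = x := hu
      have hv : v = x := hv
      rw [hu, hv]
    · intro y hy
      have hy : y = x' := hy
      exact ⟨x, rfl, hy.symm⟩
    · rintro u hu v hv
      have hu : u = x := hu
      have hv : v = x := hv
      subst hu
      subst hv
      exact ⟨fun h => absurd h (G.irrefl), fun h => absurd h (H.irrefl)⟩

/-- **Circle graphs are identified by the five-dimensional method.** -/
theorem main (hN : 5 ≤ N) {a b : V → ℤ} (hG : IsDiag G.Adj a b) (h : WLEquivalent N G H) :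
    Nonempty (G ≃g H) := by
  classical
  rcases isEmpty_or_nonempty V with hV | ⟨⟨v0⟩⟩
  · obtain ⟨ψ, -⟩ := h
    have hW : IsEmpty W := by
      refine ⟨fun w => ?_⟩
      exact hV.false ((ψ.symm fun _ => w) ⟨0, by omega⟩)
    exact ⟨⟨Equiv.equivOfIsEmpty V W, fun {a} => (hV.false a).elim⟩⟩
  obtain ⟨β, hβ⟩ := T.start h (by omega) v0
  obtain ⟨f, hf, hΦ⟩ := exists_matching (ReflTransGen G.Adj) (ReflTransGen H.Adj)
    ⟨fun x => ReflTransGen.refl, fun h => conn_comm h, fun h h' => h.trans h'⟩
    ⟨fun x => ReflTransGen.refl, fun h => conn_comm h, fun h h' => h.trans h'⟩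
    Set.univ Set.univ (fun _ _ _ _ => trivial) (fun _ _ _ _ => trivial) β
    (fun _ => Iff.rfl)
    (fun x x' f => Set.BijOn f {y | ReflTransGen G.Adj x y} {y | ReflTransGen H.Adj x' y} ∧
      ∀ u ∈ {y | ReflTransGen G.Adj x y}, ∀ v ∈ {y | ReflTransGen G.Adj x y},
        (G.Adj u v ↔ H.Adj (f u) (f v)))
    (fun x x' f h => h.1)
    (fun x y x' y' f h h' h'' => by
      have e1 : {z | ReflTransGen G.Adj y z} = {z | ReflTransGen G.Adj x z} := by
        ext z
        exact ⟨fun k => ReflTransGen.trans h k, fun k => ReflTransGen.trans (conn_comm h) k⟩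
      have e2 : {z | ReflTransGen H.Adj y' z} = {z | ReflTransGen H.Adj x' z} := by
        ext z
        exact ⟨fun k => ReflTransGen.trans h' k, fun k => ReflTransGen.trans (conn_comm h') k⟩
      rw [e1, e2]
      exact h'')
    (fun x x' f g h h' => by
      refine ⟨h'.1.congr h, ?_⟩
      intro u hu v hv
      rw [← h u hu, ← h v hv]
      exact h'.2 u hu v hv)
    (fun x _ => component_iso hN hG (hβ x))
  have hinj : Function.Injective f := fun x y hxy => hf.injOn trivial trivial hxy
  have hsurj : Function.Surjective f := fun y => by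
    obtain ⟨x, -, hx⟩ := hf.surjOn (Set.mem_univ y)
    exact ⟨x, hx⟩
  refine ⟨⟨Equiv.ofBijective f ⟨hinj, hsurj⟩, ?_⟩⟩
  intro u v
  show H.Adj (f u) (f v) ↔ G.Adj u v
  obtain ⟨h1, h2⟩ := hΦ u trivial
  constructor
  · intro h3
    have h4 : f v ∈ {y | ReflTransGen H.Adj (f u) y} := ReflTransGen.single h3
    obtain ⟨u1, h5, h6⟩ := h1.surjOn h4
    have h7 := hinj h6
    subst h7
    exact (h2 u ReflTransGen.refl u1 h5).2 h3
  · intro h3
    exact (h2 u ReflTransGen.refl v (ReflTransGen.single h3)).1 h3

end

end Pool.Agent.J4.H77.CG
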