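import Pool.Agent.J4.H77.CG.Dig
import Pool.Agent.J4.H77.CG.Tup
import Pool.Agent.J4.H77.CG.Match

/-!
# The digraph of an edge is preserved
-/

set_option autoImplicit false
set_option linter.unusedSectionVars false

namespace Pool.Agent.J4.H77.CG

open Relation Pool.Agent.W185.SRG

section
variable {V W : Type} [Fintype V] [Fintype W] {G : SimpleGraph V} {H : SimpleGraph W} {N : ℕ}

theorem T.arc (hN : 2 ≤ N) {L : List (V × W)} (h : T G H N L) {r s y z : V} {r' s' y' z' : W}
    (hy : (y, y') ∈ L) (hz : (z, z') ∈ L) (hr : (r, r') ∈ L) (hs : (s, s') ∈ L) :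
    Arc G.Adj r s y z ↔ Arc H.Adj r' s' y' z' := by
  have e1 : y = r ↔ y' = r' := h.eq_iff hN hy hr
  have e2 : y = s ↔ y' = s' := h.eq_iff hN hy hs
  have e3 : z = r ↔ z' = r' := h.eq_iff hN hz hr
  have e4 : z = s ↔ z' = s' := h.eq_iff hN hz hs
  have e5 : G.Adj y z ↔ H.Adj y' z' := h.adj_iff hN hy hz
  have e6 : G.Adj r y ↔ H.Adj r' y' := h.adj_iff hN hr hy
  have e7 : G.Adj s z ↔ H.Adj s' z' := h.adj_iff hN hs hz
  unfold Arc
  rw [e5, e6, e7]
  simp only [ne_eq, e1, e2, e3, e4]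

theorem T.rd_aux (hN : 4 ≤ N) {r s y z : V} {r' s' y' z' : W}
    (h : T G H N [(y, y'), (z, z'), (r, r'), (s, s')]) (hd : RD G.Adj r s y z) :
    RD H.Adj r' s' y' z' := by
  revert y'
  induction hd using ReflTransGen.head_induction_on with
  | refl =>
    intro y' h
    have e : z = z ↔ y' = z' := h.eq_iff (a := (z, y')) (b := (z, z')) (by omega) (by simp)
      (by simp)
    rw [e.1 rfl]
    exact ReflTransGen.refl
  | @head y c h1 _ ih =>
    intro y' h
    obtain ⟨β, hβ⟩ := h.step (by simpa using hN) (by simp)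
    have h2 := hβ c
    have h3 : T G H N [(c, β c), (z, z'), (r, r'), (s, s')] := h2.mono (by
      intro e he
      simp only [List.mem_cons, List.not_mem_nil, or_false] at he ⊢
      tauto)
    exact ReflTransGen.head ((h2.arc (by omega) (by simp) (by simp) (by simp) (by simp)).1 h1)
      (ih h3)

theorem T.rd (hN : 4 ≤ N) {L : List (V × W)} (h : T G H N L) {r s y z : V} {r' s' y' z' : W}
    (hy : (y, y') ∈ L) (hz : (z, z') ∈ L) (hr : (r, r') ∈ L) (hs : (s, s') ∈ L) :
    RD G.Adj r s y z ↔ RD H.Adj r' s' y' z' := by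
  have h1 : T G H N [(y, y'), (z, z'), (r, r'), (s, s')] := h.mono (by
    intro e he
    simp only [List.mem_cons, List.not_mem_nil, or_false] at he
    rcases he with rfl | rfl | rfl | rfl <;> assumption)
  exact ⟨h1.rd_aux hN, T.rd_aux hN (h1.symm)⟩

theorem T.cls (hN : 4 ≤ N) {L : List (V × W)} (h : T G H N L) {r s y z : V} {r' s' y' z' : W}
    (hy : (y, y') ∈ L) (hz : (z, z') ∈ L) (hr : (r, r') ∈ L) (hs : (s, s') ∈ L) :
    z ∈ Cls G.Adj r s y ↔ z' ∈ Cls H.Adj r' s' y' :=
  and_congr (h.rd hN hy hz hr hs) (h.rd hN hz hy hr hs)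

theorem T.conn_aux (hN : 2 ≤ N) {y z : V} {y' z' : W}
    (h : T G H N [(y, y'), (z, z')]) (hd : ReflTransGen G.Adj y z) :
    ReflTransGen H.Adj y' z' := by
  revert y'
  induction hd using ReflTransGen.head_induction_on with
  | refl =>
    intro y' h
    have e : z = z ↔ y' = z' := h.eq_iff (a := (z, y')) (b := (z, z')) (by omega) (by simp)
      (by simp)
    rw [e.1 rfl]
  | @head y c h1 _ ih =>
    intro y' h
    obtain ⟨β, hβ⟩ := h.step (by simpa using hN) (by simp)
    have h2 := hβ c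
    have h3 : T G H N [(c, β c), (z, z')] := h2.mono (by
      intro e he
      simp only [List.mem_cons, List.not_mem_nil, or_false] at he ⊢
      tauto)
    have h4 : G.Adj y c ↔ H.Adj y' (β c) := h2.adj_iff (a := (y, y')) (b := (c, β c)) hN (by simp)
      (by simp)
    exact ReflTransGen.head (h4.1 h1) (ih h3)

theorem T.conn (hN : 2 ≤ N) {L : List (V × W)} (h : T G H N L) {y z : V} {y' z' : W}
    (hy : (y, y') ∈ L) (hz : (z, z') ∈ L) :
    ReflTransGen G.Adj y z ↔ ReflTransGen H.Adj y' z' := by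
  have h1 : T G H N [(y, y'), (z, z')] := h.mono (by
    intro e he
    simp only [List.mem_cons, List.not_mem_nil, or_false] at he
    rcases he with rfl | rfl <;> assumption)
  exact ⟨h1.conn_aux hN, T.conn_aux hN (h1.symm)⟩

theorem T.lev (hN : 4 ≤ N) {L : List (V × W)} (h : T G H N L) {r s y : V} {r' s' y' : W}
    (hy : (y, y') ∈ L) (hr : (r, r') ∈ L) (hs : (s, s') ∈ L) :
    lev G.Adj r s y = lev H.Adj r' s' y' := by
  have h1 : T G H N [(y, y'), (r, r'), (s, s')] := h.mono (by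
    intro e he
    simp only [List.mem_cons, List.not_mem_nil, or_false] at he
    rcases he with rfl | rfl | rfl <;> assumption)
  obtain ⟨β, hβ⟩ := h1.step (by
    simp only [List.length_cons, List.length_nil]
    omega) (by simp)
  have h2 : ∀ z, RD G.Adj r s y z ↔ RD H.Adj r' s' y' (β z) := fun z =>
    (hβ z).rd hN (by simp) (by simp) (by simp) (by simp)
  unfold CG.lev
  have e : {z | RD H.Adj r' s' y' z} = β '' {z | RD G.Adj r s y z} := by
    ext z
    constructor
    · intro hz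
      refine ⟨β.symm z, ?_, β.apply_symm_apply z⟩
      show RD G.Adj r s y (β.symm z)
      rw [h2, β.apply_symm_apply]
      exact hz
    · rintro ⟨z, hz, rfl⟩
      exact (h2 z).1 hz
  rw [e, Set.ncard_image_of_injective _ β.injective]

end

/-- isomorphisms over two vertices -/
structure IsOv {V W : Type} (G : SimpleGraph V) (H : SimpleGraph W) (r s : V) (r' s' : W)
    (C : Set V) (C' : Set W) (f : V → W) : Prop where
  bij : Set.BijOn f C C'
  adjr : ∀ u ∈ C, (G.Adj r u ↔ H.Adj r' (f u))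
  adjs : ∀ u ∈ C, (G.Adj s u ↔ H.Adj s' (f u))
  adj : ∀ u ∈ C, ∀ v ∈ C, (G.Adj u v ↔ H.Adj (f u) (f v))

section
variable {V W : Type} [Fintype V] [Fintype W] {G : SimpleGraph V} {H : SimpleGraph W} {N : ℕ}

theorem IsOv.swap {r s : V} {r' s' : W} {C : Set V} {C' : Set W} {f : V → W}
    (h : IsOv G H r s r' s' C C' f) : IsOv G H s r s' r' C C' f :=
  ⟨h.bij, h.adjs, h.adjr, h.adj⟩

/-- **The step for closed sets.** -/
theorem closed_step (hN : 4 ≤ N) {r s : V} {r' s' : W} {F : Set V} {F' : Set W}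
    (hF : Clo G.Adj r s F) (hF' : Clo H.Adj r' s' F') (hrF : r ∉ F) (hsF : s ∉ F) (β : V ≃ W)
    (hβ : ∀ y, T G H N [(y, β y), (r, r'), (s, s')]) (hβF : ∀ y, y ∈ F ↔ β y ∈ F')
    (ih : ∀ y ∈ F, ∃ f, IsOv G H r s r' s' (Cls G.Adj r s y) (Cls H.Adj r' s' (β y)) f) :
    ∃ f, IsOv G H r s r' s' F F' f := by
  have hne : ∀ y ∈ F, y ≠ r ∧ y ≠ s := fun y hy =>
    ⟨fun h => hrF (h ▸ hy), fun h => hsF (h ▸ hy)⟩
  have hne' : ∀ y ∈ F', y ≠ r' ∧ y ≠ s' := by
    intro y hy
    have h1 : β.symm y ∈ F := by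
      rw [hβF, β.apply_symm_apply]
      exact hy
    obtain ⟨h2, h3⟩ := hne _ h1
    have h4 := hβ (β.symm y)
    rw [β.apply_symm_apply] at h4
    have e1 : β.symm y = r ↔ y = r' := h4.eq_iff (a := (β.symm y, y)) (b := (r, r')) (by omega)
      (by simp) (by simp)
    have e2 : β.symm y = s ↔ y = s' := h4.eq_iff (a := (β.symm y, y)) (b := (s, s')) (by omega)
      (by simp) (by simp)
    exact ⟨fun h => h2 (e1.2 h), fun h => h3 (e2.2 h)⟩
  obtain ⟨f, hf, hΦ⟩ := exists_matching (fun x y => y ∈ Cls G.Adj r s x)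
    (fun x y => y ∈ Cls H.Adj r' s' x)
    ⟨fun x => cls_self x, fun h => cls_symm h, fun h h' => cls_trans h h'⟩
    ⟨fun x => cls_self x, fun h => cls_symm h, fun h h' => cls_trans h h'⟩ F F'
    (fun x y hx hy => hF.cls hx hy) (fun x y hx hy => hF'.cls hx hy) β hβF
    (fun x x' f => lev G.Adj r s x = lev H.Adj r' s' x' ∧
      IsOv G H r s r' s' (Cls G.Adj r s x) (Cls H.Adj r' s' x') f)
    (fun x x' f h => h.2.bij)
    (fun x y x' y' f h h' h'' => by
      refine ⟨?_, ?_⟩
      · rw [lev_eq h, lev_eq h']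
        exact h''.1
      · rw [cls_eq h, cls_eq h']
        exact h''.2)
    (fun x x' f g h h' => by
      refine ⟨h'.1, ?_, ?_, ?_, ?_⟩
      · exact h'.2.bij.congr h
      · intro u hu
        rw [← h u hu]
        exact h'.2.adjr u hu
      · intro u hu
        rw [← h u hu]
        exact h'.2.adjs u hu
      · intro u hu v hv
        rw [← h u hu, ← h v hv]
        exact h'.2.adj u hu v hv)
    (fun x hx => by
      obtain ⟨f, hf⟩ := ih x hx
      exact ⟨f, (hβ x).lev hN (by simp) (by simp) (by simp), hf⟩)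
  have inner : ∀ u ∈ F, ∀ v ∈ F, v ∉ Cls G.Adj r s u → lev G.Adj r s u ≤ lev G.Adj r s v →
      (G.Adj u v ↔ H.Adj (f u) (f v)) := by
    intro u hu v hv h1 h2
    obtain ⟨h3, h4⟩ := hΦ u hu
    obtain ⟨h5, h6⟩ := hΦ v hv
    have h7 : f v ∉ Cls H.Adj r' s' (f u) := by
      intro h8
      obtain ⟨u1, h9, h10⟩ := h4.bij.surjOn h8
      have h11 := hf.injOn (hF.cls hu h9) hv h10
      exact h1 (h11 ▸ h9)
    have h8 := hne u hu
    have h9 := hne v hv
    have h8' := hne' _ (hf.mapsTo hu)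
    have h9' := hne' _ (hf.mapsTo hv)
    rw [cross_adj h8.1 h8.2 h9.1 h9.2 h1 h2,
      cross_adj (E := H.Adj) h8'.1 h8'.2 h9'.1 h9'.2 h7 (by rw [← h3, ← h5]; exact h2),
      h4.adjr u (cls_self u), h6.adjs v (cls_self v)]
  refine ⟨f, hf, ?_, ?_, ?_⟩
  · exact fun u hu => (hΦ u hu).2.adjr u (cls_self u)
  · exact fun u hu => (hΦ u hu).2.adjs u (cls_self u)
  · intro u hu v hv
    by_cases h1 : v ∈ Cls G.Adj r s u
    · exact (hΦ u hu).2.adj u (cls_self u) v h1
    · rcases le_total (lev G.Adj r s u) (lev G.Adj r s v) with h2 | h2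
      · exact inner u hu v hv h1 h2
      · rw [G.adj_comm, H.adj_comm]
        exact inner v hv u hu (fun h => h1 (cls_symm h)) h2

end

end Pool.Agent.J4.H77.CG
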