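import Pool.Agent.J4.H77.CG.Star

/-!
# Sides of splits
-/

set_option autoImplicit false

namespace Pool.Agent.J4.H77.CG

open Relation

variable {V : Type} {E : V → V → Prop}

theorem side_union_aux (hs : ∀ x y, E x y → E y x) {U₁ U₂ : Set V} (h1 : Side E U₁)
    (h2 : Side E U₂) {x r : V} (hx1 : x ∈ U₁) (hx2 : x ∈ U₂) (hr : r ∉ U₁)
    (hc : ReflTransGen E r x) {z z' : V} (hz1 : z ∉ U₁) (hz2 : z ∉ U₂)
    (hz1' : z' ∉ U₁) (hz2' : z' ∉ U₂) (hn1 : ∃ v ∈ U₁, E v z) (hn2 : ¬ ∃ v ∈ U₂, E v z) :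
    ¬ ∃ v ∈ U₂, E v z' := by
  intro hn
  have key : ∀ v t, v ∈ U₁ → v ∈ U₂ → E v t → t ∈ U₁ ∧ t ∈ U₂ := by
    intro v t hv1 hv2 hvt
    have k1 : ∀ t, E v t → t ∈ U₁ := by
      intro t hvt
      by_contra ht
      exact hn2 ⟨v, hv2, h1 t z ht hz1 ⟨v, hv1, hvt⟩ hn1 v hv1 hvt⟩
    refine ⟨k1 t hvt, ?_⟩
    by_contra ht
    exact hz1' (k1 z' (h2 t z' ht hz2' ⟨v, hv2, hvt⟩ hn v hv2 hvt))
  have h3 : ∀ m, ReflTransGen E m x → m ∈ U₁ ∧ m ∈ U₂ := by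
    intro m hm
    induction hm using ReflTransGen.head_induction_on with
    | refl => exact ⟨hx1, hx2⟩
    | head h4 _ ih => exact key _ _ ih.1 ih.2 (hs _ _ h4)
  exact hr (h3 r hc).1

/-- Sides with a common point form a side. -/
theorem side_union (hs : ∀ x y, E x y → E y x) {U₁ U₂ : Set V} (h1 : Side E U₁)
    (h2 : Side E U₂) {x r : V} (hx1 : x ∈ U₁) (hx2 : x ∈ U₂) (hr1 : r ∉ U₁) (hr2 : r ∉ U₂)
    (hc : ReflTransGen E r x) : Side E (U₁ ∪ U₂) := by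
  intro u u' hu hu' hn hn' v hv hvu
  have hu1 : u ∉ U₁ := fun h => hu (Or.inl h)
  have hu2 : u ∉ U₂ := fun h => hu (Or.inr h)
  have hu1' : u' ∉ U₁ := fun h => hu' (Or.inl h)
  have hu2' : u' ∉ U₂ := fun h => hu' (Or.inr h)
  rcases hv with hv | hv
  · by_cases h3 : ∃ v ∈ U₁, E v u'
    · exact h1 u u' hu1 hu1' ⟨v, hv, hvu⟩ h3 v hv hvu
    · have h4 : ∃ v ∈ U₂, E v u' := by
        obtain ⟨p, hp, hpu⟩ := hn'
        rcases hp with hp | hp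
        · exact absurd ⟨p, hp, hpu⟩ h3
        · exact ⟨p, hp, hpu⟩
      exact absurd ⟨v, hv, hvu⟩
        (side_union_aux hs h2 h1 hx2 hx1 hr2 hc hu2' hu1' hu2 hu1 h4 h3)
  · by_cases h3 : ∃ v ∈ U₂, E v u'
    · exact h2 u u' hu2 hu2' ⟨v, hv, hvu⟩ h3 v hv hvu
    · have h4 : ∃ v ∈ U₁, E v u' := by
        obtain ⟨p, hp, hpu⟩ := hn'
        rcases hp with hp | hp
        · exact ⟨p, hp, hpu⟩
        · exact absurd ⟨p, hp, hpu⟩ h3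
      exact absurd ⟨v, hv, hvu⟩
        (side_union_aux hs h1 h2 hx1 hx2 hr1 hc hu1' hu2' hu1 hu2 h4 h3)

theorem side_single (x : V) : Side E {x} := by
  rintro u u' - - - ⟨v, hv, hvu⟩ v' hv' -
  rw [Set.mem_singleton_iff] at hv hv'
  subst hv
  subst hv'
  exact hvu

/-- the greatest side around a point -/
theorem exists_max_side [Finite V] (hs : ∀ x y, E x y → E y x) {B : Set V} {r : V}
    (hr : r ∉ B) (hB : ∀ x ∈ B, ReflTransGen E r x) {x : V} (hx : x ∈ B) :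
    ∃ U : Set V, Side E U ∧ U ⊆ B ∧ x ∈ U ∧
      ∀ U' : Set V, Side E U' → U' ⊆ B → (∃ y, y ∈ U ∧ y ∈ U') → U' ⊆ U := by
  let S : Set (Set V) := {U | Side E U ∧ U ⊆ B ∧ x ∈ U}
  have hS : S.Finite := Set.toFinite S
  have hne : S.Nonempty := ⟨{x}, side_single x, Set.singleton_subset_iff.2 hx,
    Set.mem_singleton x⟩
  obtain ⟨U, hU⟩ := hS.exists_maximal hne
  obtain ⟨⟨h1, h2, h3⟩, hmax⟩ := hU
  refine ⟨U, h1, h2, h3, ?_⟩
  rintro U' h4 h5 ⟨y, hy, hy'⟩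
  have h6 : U ∪ U' ∈ S := ⟨side_union hs h1 h4 hy hy' (fun h => hr (h2 h)) (fun h => hr (h5 h))
    (hB y (h2 hy)), Set.union_subset h2 h5, Or.inl h3⟩
  have h7 : U ∪ U' ⊆ U := hmax h6 Set.subset_union_left
  exact fun z hz => h7 (Or.inr hz)

/-- the vertices of `U` which have a neighbour outside -/
def Bd (E : V → V → Prop) (U : Set V) (u : V) : Prop := ∃ t, t ∉ U ∧ E u t

theorem side_adj {U : Set V} (hU : Side E U) {u z : V} (hu : u ∈ U) (hz : z ∉ U) :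
    E u z ↔ Bd E U u ∧ ∃ v ∈ U, E v z := by
  constructor
  · intro h
    exact ⟨⟨z, hz, h⟩, ⟨u, hu, h⟩⟩
  · rintro ⟨⟨t, ht, hut⟩, h⟩
    exact hU t z ht hz ⟨u, hu, hut⟩ h u hu hut

theorem side_adj2 (hs : ∀ x y, E x y → E y x) {U₁ U₂ : Set V} (h1 : Side E U₁)
    (h2 : Side E U₂) (hd : ∀ x, x ∈ U₁ → x ∉ U₂) {u v : V} (hu : u ∈ U₁) (hv : v ∈ U₂) :
    E u v ↔ Bd E U₁ u ∧ Bd E U₂ v ∧ ∃ p ∈ U₁, ∃ q ∈ U₂, E p q := by
  constructor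
  · intro h
    exact ⟨⟨v, fun h' => hd v h' hv, h⟩, ⟨u, hd u hu, hs _ _ h⟩, u, hu, v, hv, h⟩
  · rintro ⟨h3, h4, p, hp, q, hq, hpq⟩
    have h5 : E v p := (side_adj h2 hv (hd p hp)).2 ⟨h4, q, hq, hs _ _ hpq⟩
    exact (side_adj h1 hu (fun h' => hd v h' hv)).2 ⟨h3, p, hp, hs _ _ h5⟩

end Pool.Agent.J4.H77.CG
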