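import Pool.Agent.J4.H77.CG.Arcs

/-!
# Related chords are on a common side of a split

Let `r` and `w` be chords with adjacent ends. Chords which are related by an equitable relation
for which `r` and `w` are only related to themselves are in a common side which does not contain
`r` and `w`.
-/

set_option autoImplicit false
set_option linter.unusedVariables false

namespace Pool.Agent.J4.H77.CG

open Relation

variable {V : Type}

/-- `U` is one side of a split (or trivial): all vertices outside of `U` with neighbours in `U`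
have the same neighbours in `U`. -/
def Side (E : V → V → Prop) (U : Set V) : Prop :=
  ∀ u u', u ∉ U → u' ∉ U → (∃ v ∈ U, E v u) → (∃ v ∈ U, E v u') → ∀ v ∈ U, E v u → E v u'

/-- the two ends of `v` -/
def Ends (a b : V → ℤ) (v : V) (i i' : ℤ) : Prop := (i = a v ∧ i' = b v) ∨ (i = b v ∧ i' = a v)

section
variable [Finite V] {E R : V → V → Prop} {a b : V → ℤ}

theorem claimS_lt (hE : Equit E R) (hD : IsDiag E a b) (hconn : ∀ x y, ReflTransGen E x y)
    {lo : ℤ} (hlo : ∀ v, lo < a v) (n : ℕ) : ∀ {x y : V} {i i' j j' : ℤ}, i < j →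
    (j - i).toNat ≤ n → Ends a b x i i' → Ends a b y j j' → SA R a b i j → ¬ SA R a b i i' →
    ¬ SA R a b j j' → SA R a b i' j' := by
  induction n with
  | zero =>
    intro x y i i' j j' hij hn
    omega
  | succ n ih =>
    intro x y i i' j j' hij hn hx hy h1 h2 h3
    by_contra h4
    refine key_step hE hD hconn hlo hij hx hy h1 h2 h3 h4 ?_
    intro z
    constructor
    · rintro h5 h6 ⟨h7, h8⟩
      have h9 : ¬ SA R a b (a z) (b z) := fun h => h6 (h5.trans h)
      by_cases h10 : SA R a b i' (b z)
      · exact h4 (h10.trans (ih h8 (by omega) (Or.inl ⟨rfl, rfl⟩) hy (h5.symm.trans h1) h9 h3))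
      · exact h10 (ih h7 (by omega) hx (Or.inl ⟨rfl, rfl⟩) h5 h2 h9)
    · rintro h5 h6 ⟨h7, h8⟩
      have h9 : ¬ SA R a b (b z) (a z) := fun h => h5 (h6.trans h)
      by_cases h10 : SA R a b i' (a z)
      · exact h4 (h10.trans (ih h8 (by omega) (Or.inr ⟨rfl, rfl⟩) hy (h6.symm.trans h1) h9 h3))
      · exact h10 (ih h7 (by omega) hx (Or.inr ⟨rfl, rfl⟩) h6 h2 h9)

/-- Chords with ends in one arc and the other ends in other arcs have these in the same arc. -/
theorem claimS (hE : Equit E R) (hD : IsDiag E a b) (hconn : ∀ x y, ReflTransGen E x y)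
    {lo : ℤ} (hlo : ∀ v, lo < a v) {x y : V} {i i' j j' : ℤ} (hx : Ends a b x i i')
    (hy : Ends a b y j j') (h1 : SA R a b i j) (h2 : ¬ SA R a b i i') (h3 : ¬ SA R a b j j') :
    SA R a b i' j' := by
  rcases lt_trichotomy i j with h4 | h4 | h4
  · exact claimS_lt hE hD hconn hlo _ h4 (le_refl _) hx hy h1 h2 h3
  · have hxy : x = y := by
      by_contra hne
      have h5 := hD.ne1 x y
      have h6 := hD.ne1 y x
      have h7 := hD.ne2 x y hne
      rcases hx with ⟨hx1, hx2⟩ | ⟨hx1, hx2⟩ <;> rcases hy with ⟨hy1, hy2⟩ | ⟨hy1, hy2⟩ <;> omega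
    subst hxy
    have h5 := hD.ab x
    have h6 : i' = j' := by
      rcases hx with ⟨hx1, hx2⟩ | ⟨hx1, hx2⟩ <;> rcases hy with ⟨hy1, hy2⟩ | ⟨hy1, hy2⟩ <;> omega
    rw [h6]
    exact SA.refl _
  · exact (claimS_lt hE hD hconn hlo _ h4 (le_refl _) hy hx h1.symm h3 h2).symm

/-- the chords with both ends in the arcs of the ends of `v` -/
def Uv (R : V → V → Prop) (a b : V → ℤ) (v : V) : Set V :=
  {u | (SA R a b (a u) (a v) ∨ SA R a b (a u) (b v)) ∧
    (SA R a b (b u) (a v) ∨ SA R a b (b u) (b v))}

theorem uv_out (hE : Equit E R) (hD : IsDiag E a b) (hconn : ∀ x y, ReflTransGen E x y)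
    {lo : ℤ} (hlo : ∀ v, lo < a v) {v u : V} (hv : ¬ SA R a b (a v) (b v))
    (hu : u ∉ Uv R a b v) : ¬ SA R a b (a u) (a v) ∧ ¬ SA R a b (a u) (b v) ∧
      ¬ SA R a b (b u) (a v) ∧ ¬ SA R a b (b u) (b v) := by
  have hS := fun {i i' j j' : ℤ} (hx : Ends a b u i i') (hy : Ends a b v j j')
    (h1 : SA R a b i j) (h2 : ¬ SA R a b i i') (h3 : ¬ SA R a b j j') =>
    claimS hE hD hconn hlo hx hy h1 h2 h3
  have hv' : ¬ SA R a b (b v) (a v) := fun h => hv h.symm
  refine ⟨fun h => ?_, fun h => ?_, fun h => ?_, fun h => ?_⟩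
  · by_cases h1 : SA R a b (a u) (b u)
    · exact hu ⟨Or.inl h, Or.inl (h1.symm.trans h)⟩
    · exact hu ⟨Or.inl h, Or.inr (hS (Or.inl ⟨rfl, rfl⟩) (Or.inl ⟨rfl, rfl⟩) h h1 hv)⟩
  · by_cases h1 : SA R a b (a u) (b u)
    · exact hu ⟨Or.inr h, Or.inr (h1.symm.trans h)⟩
    · exact hu ⟨Or.inr h, Or.inl (hS (Or.inl ⟨rfl, rfl⟩) (Or.inr ⟨rfl, rfl⟩) h h1 hv')⟩
  · by_cases h1 : SA R a b (b u) (a u)
    · exact hu ⟨Or.inl (h1.symm.trans h), Or.inl h⟩
    · exact hu ⟨Or.inr (hS (Or.inr ⟨rfl, rfl⟩) (Or.inl ⟨rfl, rfl⟩) h h1 hv), Or.inl h⟩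
  · by_cases h1 : SA R a b (b u) (a u)
    · exact hu ⟨Or.inr (h1.symm.trans h), Or.inr h⟩
    · exact hu ⟨Or.inl (hS (Or.inr ⟨rfl, rfl⟩) (Or.inr ⟨rfl, rfl⟩) h h1 hv'), Or.inr h⟩

/-- crossing chords of `Uv` -/
theorem uv_cross (hE : Equit E R) (hD : IsDiag E a b) (hconn : ∀ x y, ReflTransGen E x y)
    {lo : ℤ} (hlo : ∀ v, lo < a v) {v u x : V} (hv : ¬ SA R a b (a v) (b v))
    (hu : u ∉ Uv R a b v) (hx : x ∈ Uv R a b v) :
    E x u ↔ (¬ SA R a b (a x) (b x) ∧ Cross (a v) (b v) (a u) (b u)) := by
  obtain ⟨u1, u2, u3, u4⟩ := uv_out hE hD hconn hlo hv hu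
  have hvab := hD.ab v
  have hxab := hD.ab x
  have huab := hD.ab u
  -- positions outside of the arcs are on the same side of all positions of an arc
  have side : ∀ {k s t : ℤ}, ¬ SA R a b k s → SA R a b t s → (k < s ↔ k < t) := by
    intro k s t hk hst
    constructor
    · intro h1
      by_contra h2
      exact hk (hst.between' (k := k) (by omega) (by omega))
    · intro h1
      by_contra h2
      exact hk (hst.symm.between (k := k) (by omega) (by omega)).symm
  rw [hD.adj]
  by_cases h1 : SA R a b (a x) (b x)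
  · constructor
    · intro h2
      exfalso
      rcases hx.1 with h3 | h3
      · have h4 := h1.symm.trans h3
        have e1 := side u1 h3
        have e2 := side u1 h4
        have e3 := side u3 h3
        have e4 := side u3 h4
        unfold Cross at h2
        omega
      · have h4 := h1.symm.trans h3
        have e1 := side u2 h3
        have e2 := side u2 h4
        have e3 := side u4 h3
        have e4 := side u4 h4
        unfold Cross at h2
        omega
    · intro h2
      exact absurd h1 h2.1
  · -- the ends of `x` are in different arcs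
    have h2 : SA R a b (a x) (a v) ∧ SA R a b (b x) (b v) := by
      rcases hx.1 with h3 | h3 <;> rcases hx.2 with h4 | h4
      · exact absurd (h3.trans h4.symm) h1
      · exact ⟨h3, h4⟩
      · exfalso
        -- `a v < b v`, so the arc of `a v` is before the arc of `b v`
        have h5 : a v < a x := by
          by_contra h6
          exact hv ((h3.between (k := a v) (by omega) (by omega)).symm.trans h3)
        have h6 : b x < a x := by
          by_contra h7
          exact h1 ((h4.symm.between (k := a x) (by omega) (by omega)).symm.trans h4.symm)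
        omega
      · exact absurd (h3.trans h4.symm) h1
    have e1 := side u1 h2.1
    have e2 := side u2 h2.2
    have e3 := side u3 h2.1
    have e4 := side u4 h2.2
    have n1 : a u ≠ a v := fun h => u1 (h ▸ SA.refl _)
    have n2 : b u ≠ b v := fun h => u4 (h ▸ SA.refl _)
    have n3 : a u ≠ b v := fun h => u2 (h ▸ SA.refl _)
    have n4 : b u ≠ a v := fun h => u3 (h ▸ SA.refl _)
    have n5 : a u ≠ a x := fun h => u1 (h ▸ h2.1)
    have n6 : b u ≠ b x := fun h => u4 (h ▸ h2.2)
    have n7 : a u ≠ b x := fun h => u2 (h ▸ h2.2)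
    have n8 : b u ≠ a x := fun h => u3 (h ▸ h2.1)
    constructor
    · intro h3
      refine ⟨h1, ?_⟩
      unfold Cross at h3 ⊢
      omega
    · rintro ⟨_, h3⟩
      unfold Cross at h3 ⊢
      omega

theorem uv_side (hE : Equit E R) (hD : IsDiag E a b) (hconn : ∀ x y, ReflTransGen E x y)
    {lo : ℤ} (hlo : ∀ v, lo < a v) {v : V} (hv : ¬ SA R a b (a v) (b v)) :
    Side E (Uv R a b v) := by
  rintro u u' hu hu' ⟨x, hx, hxu⟩ ⟨x', hx', hxu'⟩ y hy hyu
  rw [uv_cross hE hD hconn hlo hv hu hy] at hyu
  rw [uv_cross hE hD hconn hlo hv hu' hy]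
  rw [uv_cross hE hD hconn hlo hv hu' hx'] at hxu'
  exact ⟨hyu.1, hxu'.2⟩

/-- **Related chords are on a common side.** -/
theorem star (hE : Equit E R) (hD : IsDiag E a b) (hconn : ∀ x y, ReflTransGen E x y)
    {r w : V} (hrw : r ≠ w) (hr : ∀ v, a r ≤ a v) (hw : ∀ v, b v ≤ b w)
    (hRr : ∀ v, R r v → v = r) (hRw : ∀ v, R w v → v = w) {x y : V} (hxy : R x y)
    (hxr : x ≠ r) (hxw : x ≠ w) :
    ∃ U : Set V, Side E U ∧ x ∈ U ∧ y ∈ U ∧ r ∉ U ∧ w ∉ U := by
  have hlo : ∀ v, a r - 1 < a v := fun v => by have := hr v; omega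
  have hEs : ∀ u v, E u v → E v u := by
    intro u v huv
    rw [hD.adj] at huv ⊢
    unfold Cross at huv ⊢
    omega
  -- invariant singletons and neighbourhoods
  have ir : Inv R {v | v = r} := by
    rintro u v huv hu
    have hu : u = r := hu
    rw [hu] at huv
    exact hRr v huv
  have iw : Inv R {v | v = w} := by
    rintro u v huv hu
    have hu : u = w := hu
    rw [hu] at huv
    exact hRw v huv
  have inr : Inv R {v | ∃ y ∈ {v | v = r}, E v y} := Inv.nbr hE ir
  have inw : Inv R {v | ∃ y ∈ {v | v = w}, E v y} := Inv.nbr hE iw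
  -- the good cuts next to the ends of `r` and `w`
  have g1 : Good R a b (a r) := by
    have e : {v | a v ≤ a r ∧ a r < b v} = {v | v = r} := by
      ext v
      constructor
      · rintro ⟨h1, h2⟩
        by_contra hne
        have := (hD.ne2 v r hne).1
        have := hr v
        omega
      · rintro h
        have h : v = r := h
        subst h
        exact ⟨le_refl _, hD.ab _⟩
    unfold Good
    rw [e]
    exact ir
  have g2 : Good R a b (b w - 1) := by
    have e : {v | a v ≤ b w - 1 ∧ b w - 1 < b v} = {v | v = w} := by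
      ext v
      constructor
      · rintro ⟨h1, h2⟩
        by_contra hne
        have := (hD.ne2 v w hne).2
        have := hw v
        omega
      · rintro h
        have h : v = w := h
        subst h
        have := hD.ab v
        exact ⟨by omega, by omega⟩
    unfold Good
    rw [e]
    exact iw
  have g3 : Good R a b (b r) := by
    have e : {v | a v ≤ b r ∧ b r < b v} = {v | ∃ y ∈ {v | v = r}, E v y} := by
      ext v
      constructor
      · rintro ⟨h1, h2⟩
        refine ⟨r, rfl, ?_⟩
        rw [hD.adj]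
        have hne : v ≠ r := by
          rintro rfl
          omega
        have h3 := (hD.ne2 v r hne).1
        have h4 := hr v
        have h5 := hD.ne1 v r
        unfold Cross
        omega
      · rintro ⟨y, hy, h1⟩
        have hy : y = r := hy
        subst hy
        rw [hD.adj] at h1
        have h4 := hr v
        unfold Cross at h1
        exact ⟨by omega, by omega⟩
    unfold Good
    rw [e]
    exact inr
  have g4 : Good R a b (b r - 1) := by
    have e : {v | a v ≤ b r - 1 ∧ b r - 1 < b v} =
        {v | v = r ∨ ∃ y ∈ {v | v = r}, E v y} := by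
      ext v
      constructor
      · rintro ⟨h1, h2⟩
        by_cases hne : v = r
        · exact Or.inl hne
        · right
          refine ⟨r, rfl, ?_⟩
          rw [hD.adj]
          have h3 := hD.ne2 v r hne
          have h4 := hr v
          unfold Cross
          omega
      · rintro (h | ⟨y, hy, h1⟩)
        · subst h
          have := hD.ab v
          exact ⟨by omega, by omega⟩
        · have hy : y = r := hy
          subst hy
          rw [hD.adj] at h1
          have h4 := hr v
          unfold Cross at h1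
          exact ⟨by omega, by omega⟩
    unfold Good
    rw [e]
    exact Inv.or hE ir inr
  have g5 : Good R a b (a w) := by
    have e : {v | a v ≤ a w ∧ a w < b v} = {v | v = w ∨ ∃ y ∈ {v | v = w}, E v y} := by
      ext v
      constructor
      · rintro ⟨h1, h2⟩
        by_cases hne : v = w
        · exact Or.inl hne
        · right
          refine ⟨w, rfl, ?_⟩
          rw [hD.adj]
          have h3 := hD.ne2 v w hne
          have h4 := hw v
          unfold Cross
          omega
      · rintro (h | ⟨y, hy, h1⟩)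
        · subst h
          exact ⟨le_refl _, hD.ab _⟩
        · have hy : y = w := hy
          subst hy
          rw [hD.adj] at h1
          have h4 := hw v
          unfold Cross at h1
          exact ⟨by omega, by omega⟩
    unfold Good
    rw [e]
    exact Inv.or hE iw inw
  have g6 : Good R a b (a w - 1) := by
    have e : {v | a v ≤ a w - 1 ∧ a w - 1 < b v} = {v | ∃ y ∈ {v | v = w}, E v y} := by
      ext v
      constructor
      · rintro ⟨h1, h2⟩
        refine ⟨w, rfl, ?_⟩
        rw [hD.adj]
        have hne : v ≠ w := by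
          rintro rfl
          omega
        have h3 := hD.ne2 v w hne
        have h4 := hw v
        have h5 := hD.ne1 w v
        unfold Cross
        omega
      · rintro ⟨y, hy, h1⟩
        have hy : y = w := hy
        subst hy
        rw [hD.adj] at h1
        have h4 := hw v
        unfold Cross at h1
        exact ⟨by omega, by omega⟩
    unfold Good
    rw [e]
    exact inw
  -- `r` and `w` are not in the sets `Uv`
  have hout : ∀ v, v ≠ r → v ≠ w → r ∉ Uv R a b v ∧ w ∉ Uv R a b v := by
    intro v hvr hvw
    have h0 := hD.ab v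
    have h1 := hr v
    have h2 := hw v
    have h3 := (hD.ne2 v r hvr).1
    have h4 := (hD.ne2 v w hvw).2
    constructor
    · rintro ⟨h5 | h5, _⟩
      · have := h5 _ g1
        omega
      · have := h5 _ g1
        omega
    · rintro ⟨_, h5 | h5⟩
      · have := h5 _ g2
        omega
      · have := h5 _ g2
        omega
  by_cases hx : SA R a b (a x) (b x)
  · -- both ends of `x` are in one arc
    let S : Set V := {z | SA R a b (a z) (b z)}
    have hSinv : Inv R S := fun u v huv hu => (sa_iff hE huv hD.ab).1 hu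
    have hrS : r ∉ S := by
      intro h
      have h1 := h _ g1
      have h2 := hD.ab r
      omega
    obtain ⟨z, h1, h2, v, hvS, hzv⟩ := leave (hconn x r) hx hrS
    let T : Set V := {u | SA R a b (a u) (a v) ∧ SA R a b (b u) (b v)}
    have hTinv : Inv R T := by
      rintro u u' huu ⟨h3, h4⟩
      have h5 : ¬ SA R a b (a u) (b u) := fun h => hvS (h3.symm.trans (h.trans h4))
      obtain ⟨h6, h7⟩ := arcs_eq hE huu h5 hD.ab
      exact ⟨h6.symm.trans h3, h7.symm.trans h4⟩
    have hX := Inv.reach hE hSinv (Inv.nbr hE hTinv)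
    have hxX : x ∈ {x | ∃ y ∈ {x | ∃ y ∈ T, E x y}, ReflTransGen (Within E S) x y} :=
      ⟨z, ⟨v, ⟨SA.refl _, SA.refl _⟩, hzv⟩, h1⟩
    have hyX := hX x y hxy hxX
    have hyS : y ∈ S := hSinv x y hxy hx
    -- arcs are constant along walks within `S`
    have hconst : ∀ {s t : V}, s ∈ S → ReflTransGen (Within E S) s t →
        SA R a b (a s) (a t) := by
      intro s t hs hst
      induction hst with
      | refl => exact SA.refl _
      | @tail p q _ h4 ih =>
        refine ih.trans ?_
        obtain ⟨h5, h6, h7⟩ := h4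
        have h5 : SA R a b (a p) (b p) := h5
        have h6 : SA R a b (a q) (b q) := h6
        rw [hD.adj] at h7
        rcases h7 with ⟨h8, h9, h10⟩ | ⟨h8, h9, h10⟩
        · exact h5.between (by omega) (by omega)
        · exact (h6.between (k := a p) (by omega) (by omega)).symm
    -- the last vertex before leaving
    have hlast : ∀ {s t u : V}, s ∈ S → ReflTransGen (Within E S) s t → u ∈ T → E t u →
        s ∈ Uv R a b v := by
      intro s t u hs hst hu htu
      have h3 : SA R a b (a s) (a t) := hconst hs hst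
      have ht : SA R a b (a t) (b t) := within_mem hst hs
      have h4 : SA R a b (a t) (a u) ∨ SA R a b (a t) (b u) := by
        rw [hD.adj] at htu
        rcases htu with ⟨h8, h9, h10⟩ | ⟨h8, h9, h10⟩
        · exact Or.inl (ht.between (by omega) (by omega))
        · exact Or.inr (ht.between (by omega) (by omega))
      have h5 : SA R a b (a s) (a v) ∨ SA R a b (a s) (b v) := by
        rcases h4 with h4 | h4
        · exact Or.inl (h3.trans (h4.trans hu.1))
        · exact Or.inr (h3.trans (h4.trans hu.2))
      have hs' : SA R a b (a s) (b s) := hs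
      refine ⟨h5, ?_⟩
      rcases h5 with h5 | h5
      · exact Or.inl (hs'.symm.trans h5)
      · exact Or.inr (hs'.symm.trans h5)
    have hxU : x ∈ Uv R a b v := hlast hx h1 ⟨SA.refl _, SA.refl _⟩ hzv
    have hyU : y ∈ Uv R a b v := by
      obtain ⟨t, ⟨u, hu, htu⟩, h3⟩ := hyX
      exact hlast hyS h3 hu htu
    have hx0 := hD.ab x
    have hvr : v ≠ r := by
      rintro rfl
      have h3 := hr x
      have h4 := (hD.ne2 x v hxr).1
      rcases hxU.1 with h5 | h5
      · have := h5 _ g1
        omega
      · have h6 := h5 _ g3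
        have h7 := h5 _ g4
        have h8 := hD.ne1 x v
        omega
    have hvw : v ≠ w := by
      rintro rfl
      have h3 := hw x
      have h4 := hD.ne2 x v hxw
      rcases hxU.1 with h5 | h5
      · have h6 := h5 _ g5
        have h7 := h5 _ g6
        omega
      · have h6 := h5 _ g2
        omega
    exact ⟨Uv R a b v, uv_side hE hD hconn hlo hvS, hxU, hyU, (hout v hvr hvw).1,
      (hout v hvr hvw).2⟩
  · obtain ⟨h1, h2⟩ := arcs_eq hE hxy hx hD.ab
    exact ⟨Uv R a b x, uv_side hE hD hconn hlo hx, ⟨Or.inl (SA.refl _), Or.inr (SA.refl _)⟩,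
      ⟨Or.inl h1.symm, Or.inr h2.symm⟩, (hout x hxr hxw).1, (hout x hxr hxw).2⟩

end

end Pool.Agent.J4.H77.CG
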