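import Pool.Agent.J4.H77.CG.Pres

/-!
# The main step
-/

set_option autoImplicit false
set_option linter.unusedSectionVars false

namespace Pool.Agent.J4.H77.CG

open Relation Pool.Agent.W185.SRG

section
variable {V W : Type} [Fintype V] [Fintype W] {G : SimpleGraph V} {H : SimpleGraph W} {N : ℕ}

theorem T.forth {L : List (V × W)} (h : T G H N L) (hl : L.length ≤ N) (hne : L ≠ []) (x : V) :
    ∃ x', T G H N ((x, x') :: L) := by
  obtain ⟨β, hβ⟩ := h.step hl hne
  exact ⟨β x, hβ x⟩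

theorem T.back {L : List (V × W)} (h : T G H N L) (hl : L.length ≤ N) (hne : L ≠ []) (x' : W) :
    ∃ x, T G H N ((x, x') :: L) := by
  obtain ⟨β, hβ⟩ := h.step hl hne
  have := hβ (β.symm x')
  rw [β.apply_symm_apply] at this
  exact ⟨β.symm x', this⟩

/-- the corresponding set -/
def Img (G : SimpleGraph V) (H : SimpleGraph W) (N : ℕ) (r s w : V) (r' s' w' : W) (U : Set V) :
    Set W := {z' | ∃ z ∈ U, T G H N [(z, z'), (r, r'), (s, s'), (w, w')]}

/-- unions of classes of vertices which look the same from `r`, `s`, `w` -/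
def Sat (G : SimpleGraph V) (N : ℕ) (r s w : V) (U : Set V) : Prop :=
  ∀ z₁ z₂, z₁ ∈ U → T G G N [(z₁, z₂), (r, r), (s, s), (w, w)] → z₂ ∈ U

variable {r s w : V} {r' s' w' : W}

theorem transfer {U : Set V} (hU : Sat G N r s w U) {z : V} {z' : W}
    (h : T G H N [(z, z'), (r, r'), (s, s'), (w, w')]) :
    z ∈ U ↔ z' ∈ Img G H N r s w r' s' w' U := by
  constructor
  · intro hz
    exact ⟨z, hz, h⟩
  · rintro ⟨z₁, hz₁, h₁⟩
    exact hU z₁ z hz₁ (T.trans [(z₁, z', z), (r, r', r), (s, s', s), (w, w', w)] h₁ h.symm)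

theorem transfer' {L : List (V × W)} (h : T G H N L) {U : Set V} (hU : Sat G N r s w U) {z : V}
    {z' : W} (hz : (z, z') ∈ L) (hr : (r, r') ∈ L) (hs : (s, s') ∈ L) (hw : (w, w') ∈ L) :
    z ∈ U ↔ z' ∈ Img G H N r s w r' s' w' U := by
  refine transfer hU (h.mono ?_)
  intro e he
  simp only [List.mem_cons, List.not_mem_nil, or_false] at he
  rcases he with rfl | rfl | rfl | rfl <;> assumption

theorem side_image (hN : 5 ≤ N) (hT : T G H N [(r, r'), (s, s'), (w, w')]) {U : Set V}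
    (hU : Sat G N r s w U) (hside : Side G.Adj U) :
    Side H.Adj (Img G H N r s w r' s' w' U) := by
  rintro u' u'' hu' hu'' ⟨v₁', hv₁', hvu₁'⟩ ⟨v₂', hv₂', hvu₂'⟩ v' hv' hvu'
  obtain ⟨u, h1⟩ := hT.back (by simp only [List.length_cons, List.length_nil]; omega)
    (by simp) u'
  obtain ⟨u₂, h2⟩ := h1.back (by simp only [List.length_cons, List.length_nil]; omega)
    (by simp) u''
  obtain ⟨v₁, h3⟩ := h2.back (by simp only [List.length_cons, List.length_nil]; omega)
    (by simp) v₁'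
  obtain ⟨v₂, h4⟩ := h2.back (by simp only [List.length_cons, List.length_nil]; omega)
    (by simp) v₂'
  obtain ⟨v, h5⟩ := h2.back (by simp only [List.length_cons, List.length_nil]; omega)
    (by simp) v'
  have k1 : u ∉ U := fun h => hu' ((transfer' h2 hU (z := u) (z' := u') (by simp) (by simp)
    (by simp) (by simp)).1 h)
  have k2 : u₂ ∉ U := fun h => hu'' ((transfer' h2 hU (z := u₂) (z' := u'') (by simp) (by simp)
    (by simp) (by simp)).1 h)
  have k3 : v₁ ∈ U := (transfer' h3 hU (z := v₁) (z' := v₁') (by simp) (by simp)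
    (by simp) (by simp)).2 hv₁'
  have k4 : v₂ ∈ U := (transfer' h4 hU (z := v₂) (z' := v₂') (by simp) (by simp)
    (by simp) (by simp)).2 hv₂'
  have k5 : v ∈ U := (transfer' h5 hU (z := v) (z' := v') (by simp) (by simp)
    (by simp) (by simp)).2 hv'
  have k6 : G.Adj v₁ u ↔ H.Adj v₁' u' :=
    h3.adj_iff (a := (v₁, v₁')) (b := (u, u')) (by omega) (by simp) (by simp)
  have k7 : G.Adj v₂ u₂ ↔ H.Adj v₂' u'' :=
    h4.adj_iff (a := (v₂, v₂')) (b := (u₂, u'')) (by omega) (by simp) (by simp)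
  have k8 : G.Adj v u ↔ H.Adj v' u' :=
    h5.adj_iff (a := (v, v')) (b := (u, u')) (by omega) (by simp) (by simp)
  have k9 : G.Adj v u₂ ↔ H.Adj v' u'' :=
    h5.adj_iff (a := (v, v')) (b := (u₂, u'')) (by omega) (by simp) (by simp)
  exact k9.1 (hside u u₂ k1 k2 ⟨v₁, k3, k6.2 hvu₁'⟩ ⟨v₂, k4, k7.2 hvu₂'⟩ v k5 (k8.2 hvu'))

/-- A walk which enters a set. -/
theorem exists_entry {V : Type} {E : V → V → Prop} {U : Set V} {x y : V}
    (h : ReflTransGen E x y) (hx : x ∉ U) (hy : y ∈ U) : ∃ p q, p ∉ U ∧ q ∈ U ∧ E p q := by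
  by_contra hcon
  push Not at hcon
  have : ∀ m, ReflTransGen E x m → m ∉ U := by
    intro m hm
    induction hm with
    | refl => exact hx
    | tail _ h2 ih => exact fun h => hcon _ _ ih h h2
  exact this y h hy

theorem conn_symm {x y : V} (h : ReflTransGen G.Adj x y) : ReflTransGen G.Adj y x := by
  induction h with
  | refl => exact ReflTransGen.refl
  | tail _ h2 ih => exact ReflTransGen.head h2.symm ih

theorem attached' (hrs : G.Adj r s) (hwr : w ≠ r) (hws : w ≠ s)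
    (hcw : ReflTransGen G.Adj r w) {v : V} (hv : v ∈ Cls G.Adj r s w) :
    ReflTransGen G.Adj r v := by
  have h := attached (fun _ _ h => SimpleGraph.Adj.symm h) hrs hwr hws hcw hv
  clear hv
  induction h with
  | refl => exact ReflTransGen.refl
  | tail _ h2 ih => exact ih.tail h2.2.2

/-- the isomorphism of the sides -/
theorem class_iso (hN : 5 ≤ N) (hT : T G H N [(r, r'), (s, s'), (w, w')]) {U : Set V} {n : ℕ}
    (hU : Sat G N r s w U) (hside : Side G.Adj U) (hrU : r ∉ U) {x : V} (hx : x ∈ U)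
    (hconn : ∀ y ∈ U, ReflTransGen G.Adj r y) (hn : U.ncard < n)
    (ih : ∀ (r₁ s₁ : V) (r₁' s₁' : W) (y : V) (y' : W), G.Adj r₁ s₁ → y ≠ r₁ → y ≠ s₁ →
      ReflTransGen G.Adj r₁ y → (Cls G.Adj r₁ s₁ y).ncard < n →
      T G H N [(y, y'), (r₁, r₁'), (s₁, s₁')] →
      ∃ f, IsOv G H r₁ s₁ r₁' s₁' (Cls G.Adj r₁ s₁ y) (Cls H.Adj r₁' s₁' y') f) :
    ∃ g : V → W, Set.BijOn g U (Img G H N r s w r' s' w' U) ∧
      (∀ u ∈ U, ∀ v ∈ U, (G.Adj u v ↔ H.Adj (g u) (g v))) ∧
      ∀ u ∈ U, (Bd G.Adj U u ↔ Bd H.Adj (Img G H N r s w r' s' w' U) (g u)) := by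
  classical
  obtain ⟨r₁, s₁, hr₁, hs₁, hrs₁⟩ := exists_entry (hconn x hx) hrU hx
  obtain ⟨r₁', h1⟩ := hT.forth (by simp only [List.length_cons, List.length_nil]; omega)
    (by simp) r₁
  obtain ⟨s₁', h2⟩ := h1.forth (by simp only [List.length_cons, List.length_nil]; omega)
    (by simp) s₁
  obtain ⟨β, hβ⟩ := h2.step (by simp only [List.length_cons, List.length_nil]; omega)
    (by simp)
  set U' := Img G H N r s w r' s' w' U with hU'
  have k1 : r₁' ∉ U' := fun h => hr₁ ((transfer' h2 hU (z := r₁) (z' := r₁') (by simp) (by simp)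
    (by simp) (by simp)).2 h)
  have k2 : s₁' ∈ U' := (transfer' h2 hU (z := s₁) (z' := s₁') (by simp) (by simp)
    (by simp) (by simp)).1 hs₁
  have k3 : G.Adj r₁ s₁ ↔ H.Adj r₁' s₁' :=
    h2.adj_iff (a := (r₁, r₁')) (b := (s₁, s₁')) (by omega) (by simp) (by simp)
  have k4 : Side H.Adj U' := side_image hN hT hU hside
  have k5 : ∀ y, y ∈ U \ {s₁} ↔ β y ∈ U' \ {s₁'} := by
    intro y
    have e1 : y ∈ U ↔ β y ∈ U' := transfer' (hβ y) hU (by simp) (by simp) (by simp) (by simp)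
    have e2 : y = s₁ ↔ β y = s₁' := (hβ y).eq_iff (a := (y, β y)) (b := (s₁, s₁')) (by omega)
      (by simp) (by simp)
    rw [Set.mem_diff, Set.mem_diff, Set.mem_singleton_iff, Set.mem_singleton_iff, e1, e2]
  have k6 : ∀ y, T G H N [(y, β y), (r₁, r₁'), (s₁, s₁')] := fun y => (hβ y).mono (by
    intro e he
    simp only [List.mem_cons, List.not_mem_nil, or_false] at he ⊢
    tauto)
  have kF := clo_of_side (fun _ _ h => SimpleGraph.Adj.symm h) hside hs₁ hr₁ hrs₁
  have kF' := clo_of_side (fun _ _ h => SimpleGraph.Adj.symm h) k4 k2 k1 (k3.1 hrs₁)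
  obtain ⟨f, hf⟩ := closed_step (by omega) kF kF' (fun h => hr₁ h.1) (fun h => h.2 rfl) β k6 k5
    (by
      rintro y hy
      refine ih r₁ s₁ r₁' s₁' y (β y) hrs₁ (fun h => hr₁ (h ▸ hy.1)) (fun h => hy.2 h) ?_ ?_
        (k6 y)
      · exact (ReflTransGen.single hrs₁).trans
          ((conn_symm (hconn s₁ hs₁)).trans (hconn y hy.1))
      · refine lt_of_le_of_lt (Set.ncard_le_ncard ?_ (Set.toFinite _)) hn
        exact fun z hz => (kF.cls hy hz).1)
  let g : V → W := Function.update f s₁ s₁'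
  have hg1 : g s₁ = s₁' := Function.update_self _ _ _
  have hg2 : ∀ u, u ≠ s₁ → g u = f u := fun u hu => Function.update_of_ne hu _ _
  have hbij : Set.BijOn g U U' := by
    have h3 : Set.BijOn g (U \ {s₁}) (U' \ {s₁'}) := by
      refine hf.bij.congr ?_
      intro u hu
      exact (hg2 u (fun h => hu.2 h)).symm
    have h4 := h3.insert (a := s₁) (by
      rw [hg1]
      exact fun h => h.2 rfl)
    rw [hg1, Set.insert_diff_singleton, Set.insert_diff_singleton, Set.insert_eq_of_mem hs₁,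
      Set.insert_eq_of_mem k2] at h4
    exact h4
  have hr : ∀ u ∈ U, (G.Adj u r₁ ↔ H.Adj (g u) r₁') := by
    intro u hu
    by_cases hus : u = s₁
    · subst hus
      rw [hg1, G.adj_comm, H.adj_comm]
      exact k3
    · rw [hg2 u hus, G.adj_comm, H.adj_comm]
      exact hf.adjr u ⟨hu, hus⟩
  refine ⟨g, hbij, ?_, ?_⟩
  · intro u hu v hv
    by_cases hus : u = s₁
    · subst hus
      by_cases hvs : v = u
      · subst hvs
        exact ⟨fun h => absurd h (G.irrefl), fun h => absurd h (H.irrefl)⟩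
      · rw [hg1, hg2 v hvs]
        exact hf.adjs v ⟨hv, hvs⟩
    · by_cases hvs : v = s₁
      · subst hvs
        rw [hg1, hg2 u hus, G.adj_comm, H.adj_comm]
        exact hf.adjs u ⟨hu, hus⟩
      · rw [hg2 u hus, hg2 v hvs]
        exact hf.adj u ⟨hu, hus⟩ v ⟨hv, hvs⟩
  · intro u hu
    have e1 := side_adj hside hu hr₁
    have e2 := side_adj k4 (hbij.mapsTo hu) k1
    have e3 : ∃ v ∈ U, G.Adj v r₁ := ⟨s₁, hs₁, hrs₁.symm⟩
    have e4 : ∃ v ∈ U', H.Adj v r₁' := ⟨s₁', k2, (k3.1 hrs₁).symm⟩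
    have e5 := hr u hu
    exact ⟨fun h => (e2.1 (e5.1 (e1.2 ⟨h, e3⟩))).1, fun h => (e1.1 (e5.2 (e2.2 ⟨h, e4⟩))).1⟩

/-- **The main step.** -/
theorem main_step (hN : 5 ≤ N) (hrs : G.Adj r s) (hwr : w ≠ r) (hws : w ≠ s)
    (hcw : ReflTransGen G.Adj r w) (hT : T G H N [(r, r'), (s, s'), (w, w')])
    (hst : ∀ x y, x ∈ Cls G.Adj r s w → x ≠ w → T G G N [(x, y), (r, r), (s, s), (w, w)] →
      ∃ U, Side G.Adj U ∧ x ∈ U ∧ y ∈ U ∧ U ⊆ Cls G.Adj r s w \ {w})
    (ih : ∀ (r₁ s₁ : V) (r₁' s₁' : W) (y : V) (y' : W), G.Adj r₁ s₁ → y ≠ r₁ → y ≠ s₁ →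
      ReflTransGen G.Adj r₁ y → (Cls G.Adj r₁ s₁ y).ncard < (Cls G.Adj r s w).ncard →
      T G H N [(y, y'), (r₁, r₁'), (s₁, s₁')] →
      ∃ f, IsOv G H r₁ s₁ r₁' s₁' (Cls G.Adj r₁ s₁ y) (Cls H.Adj r₁' s₁' y') f) :
    ∃ f, IsOv G H r s r' s' (Cls G.Adj r s w) (Cls H.Adj r' s' w') f := by
  classical
  set C := Cls G.Adj r s w with hC
  set C' := Cls H.Adj r' s' w' with hC'
  have hsy : ∀ x y, G.Adj x y → G.Adj y x := fun _ _ h => h.symm
  have hsy' : ∀ x y, H.Adj x y → H.Adj y x := fun _ _ h => h.symm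
  have hwC : w ∈ C := cls_self w
  have hCne : ∀ x ∈ C, x ≠ r ∧ x ≠ s := fun x hx => rd_ne hx.1 hwr hws
  have hrB : r ∉ C \ {w} := fun h => (hCne r h.1).1 rfl
  have hsB : s ∉ C \ {w} := fun h => (hCne s h.1).2 rfl
  have hwB : w ∉ C \ {w} := fun h => h.2 rfl
  have hconn : ∀ x ∈ C \ {w}, ReflTransGen G.Adj r x := fun x hx =>
    attached' hrs hwr hws hcw hx.1
  have hM : ∀ x, ∃ U : Set V, x ∈ C \ {w} → Side G.Adj U ∧ U ⊆ C \ {w} ∧ x ∈ U ∧
      ∀ U' : Set V, Side G.Adj U' → U' ⊆ C \ {w} → (∃ y, y ∈ U ∧ y ∈ U') → U' ⊆ U := by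
    intro x
    by_cases hx : x ∈ C \ {w}
    · obtain ⟨U, hU⟩ := exists_max_side hsy hrB hconn hx
      exact ⟨U, fun _ => hU⟩
    · exact ⟨∅, fun h => absurd h hx⟩
  choose M hM using hM
  have hMeq : ∀ x ∈ C \ {w}, ∀ y ∈ M x, M y = M x := by
    intro x hx y hy
    obtain ⟨h1, h2, h3, h4⟩ := hM x hx
    obtain ⟨h5, h6, h7, h8⟩ := hM y (h2 hy)
    exact Set.Subset.antisymm (h4 _ h5 h6 ⟨y, hy, h7⟩) (h8 _ h1 h2 ⟨y, h7, hy⟩)
  have hsat : ∀ x ∈ C \ {w}, Sat G N r s w (M x) := by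
    intro x hx z₁ z₂ hz₁ hz
    obtain ⟨h1, h2, h3, h4⟩ := hM x hx
    obtain ⟨U, h5, h6, h7, h8⟩ := hst z₁ z₂ (h2 hz₁).1 (h2 hz₁).2 hz
    exact h4 U h5 h8 ⟨z₁, hz₁, h6⟩ h7
  have hg : ∀ U : Set V, ∃ g : V → W, (∃ x ∈ C \ {w}, M x = U) →
      Set.BijOn g U (Img G H N r s w r' s' w' U) ∧
      (∀ u ∈ U, ∀ v ∈ U, (G.Adj u v ↔ H.Adj (g u) (g v))) ∧
      ∀ u ∈ U, (Bd G.Adj U u ↔ Bd H.Adj (Img G H N r s w r' s' w' U) (g u)) := by
    intro U
    by_cases hU : ∃ x ∈ C \ {w}, M x = U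
    · obtain ⟨x, hx, rfl⟩ := hU
      obtain ⟨h1, h2, h3, h4⟩ := hM x hx
      obtain ⟨g, hg⟩ := class_iso (n := C.ncard) hN hT (hsat x hx) h1 (fun h => hrB (h2 h)) h3
        (fun y hy => hconn y (h2 hy)) (by
          refine lt_of_le_of_lt (Set.ncard_le_ncard h2 (Set.toFinite _)) ?_
          exact Set.ncard_diff_singleton_lt_of_mem hwC (Set.toFinite _)) ih
      exact ⟨g, fun _ => hg⟩
    · exact ⟨fun _ => r', fun h => absurd h hU⟩
  choose g hg using hg
  have hP : ∀ x ∈ C \ {w}, ∀ y ∈ C \ {w}, ∀ z', z' ∈ Img G H N r s w r' s' w' (M x) →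
      z' ∈ Img G H N r s w r' s' w' (M y) → M x = M y := by
    rintro x hx y hy z' ⟨z₁, hz₁, h1⟩ hz'
    have h2 := (transfer (hsat y hy) h1).2 hz'
    rw [← hMeq x hx z₁ hz₁, ← hMeq y hy z₁ h2]
  let f : V → W := fun x => if x = w then w' else g (M x) x
  have hfw : f w = w' := by simp [f]
  have hfx : ∀ x ∈ C \ {w}, f x = g (M x) x := by
    intro x hx
    have : x ≠ w := fun h => hx.2 h
    simp [f, this]
  have hfP : ∀ x ∈ C \ {w}, f x ∈ Img G H N r s w r' s' w' (M x) := by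
    intro x hx
    rw [hfx x hx]
    exact (hg _ ⟨x, hx, rfl⟩).1.mapsTo (hM x hx).2.2.1
  have hP' : ∀ x ∈ C \ {w}, ∀ z' ∈ Img G H N r s w r' s' w' (M x), z' ∈ C' ∧ z' ≠ w' := by
    rintro x hx z' ⟨z, hz, h1⟩
    have h2 := (hM x hx).2.1 hz
    have e1 : z ∈ C ↔ z' ∈ C' := h1.cls (by omega) (y := w) (y' := w') (by simp) (by simp)
      (by simp) (by simp)
    have e2 : z = w ↔ z' = w' := h1.eq_iff (a := (z, z')) (b := (w, w')) (by omega) (by simp)
      (by simp)
    exact ⟨e1.1 h2.1, fun h => h2.2 (e2.2 h)⟩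
  have hbij : Set.BijOn f C C' := by
    refine ⟨?_, ?_, ?_⟩
    · intro x hx
      by_cases hxw : x = w
      · subst hxw
        rw [hfw]
        exact cls_self w'
      · exact (hP' x ⟨hx, hxw⟩ _ (hfP x ⟨hx, hxw⟩)).1
    · intro x hx y hy hxy
      by_cases hxw : x = w
      · by_cases hyw : y = w
        · rw [hxw, hyw]
        · have h1 := (hP' y ⟨hy, hyw⟩ _ (hfP y ⟨hy, hyw⟩)).2
          rw [← hxy, hxw] at h1
          exact absurd hfw h1
      · by_cases hyw : y = w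
        · have h1 := (hP' x ⟨hx, hxw⟩ _ (hfP x ⟨hx, hxw⟩)).2
          rw [hxy, hyw] at h1
          exact absurd hfw h1
        · have h1 := hfP x ⟨hx, hxw⟩
          have h2 := hfP y ⟨hy, hyw⟩
          rw [← hxy] at h2
          have h3 := hP x ⟨hx, hxw⟩ y ⟨hy, hyw⟩ _ h1 h2
          rw [hfx x ⟨hx, hxw⟩, hfx y ⟨hy, hyw⟩, h3] at hxy
          refine (hg _ ⟨y, ⟨hy, hyw⟩, rfl⟩).1.injOn ?_ (hM y ⟨hy, hyw⟩).2.2.1 hxy
          rw [← h3]
          exact (hM x ⟨hx, hxw⟩).2.2.1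
    · intro z' hz'
      by_cases hzw : z' = w'
      · exact ⟨w, hwC, hfw.trans hzw.symm⟩
      · obtain ⟨z, h1⟩ := hT.back (by simp only [List.length_cons, List.length_nil]; omega)
          (by simp) z'
        have e1 : z ∈ C ↔ z' ∈ C' := h1.cls (by omega) (y := w) (y' := w') (by simp) (by simp)
          (by simp) (by simp)
        have e2 : z = w ↔ z' = w' := h1.eq_iff (a := (z, z')) (b := (w, w')) (by omega) (by simp)
          (by simp)
        have hz : z ∈ C \ {w} := ⟨e1.2 hz', fun h => hzw (e2.1 h)⟩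
        have h2 : z' ∈ Img G H N r s w r' s' w' (M z) := ⟨z, (hM z hz).2.2.1, h1⟩
        obtain ⟨x, hx, hxz⟩ := (hg _ ⟨z, hz, rfl⟩).1.surjOn h2
        have hxB := (hM z hz).2.1 hx
        refine ⟨x, hxB.1, ?_⟩
        rw [hfx x hxB, hMeq z hz x hx]
        exact hxz
  -- adjacency to `r`, `s`, `w`
  have hpt : ∀ (t : V) (t' : W), (t, t') ∈ [(r, r'), (s, s'), (w, w')] → t ∉ C \ {w} →
      ∀ u ∈ C \ {w}, (G.Adj u t ↔ H.Adj (f u) t') := by
    intro t t' ht htB u hu
    obtain ⟨h1, h2, h3, h4⟩ := hM u hu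
    obtain ⟨h5, h6, h7⟩ := hg _ ⟨u, hu, rfl⟩
    have h8 : t ∉ M u := fun h => htB (h2 h)
    have h9 : Side H.Adj (Img G H N r s w r' s' w' (M u)) := side_image hN hT (hsat u hu) h1
    have h10 : t' ∉ Img G H N r s w r' s' w' (M u) := by
      intro h
      apply h8
      obtain ⟨z, hz, h11⟩ := h
      have e : z = t ↔ t' = t' := h11.eq_iff (a := (z, t')) (b := (t, t')) (by omega) (by simp)
        (List.mem_cons_of_mem _ ht)
      rw [← e.2 rfl]
      exact hz
    have h12 : (∃ v ∈ M u, G.Adj v t) ↔ ∃ v ∈ Img G H N r s w r' s' w' (M u), H.Adj v t' := by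
      constructor
      · rintro ⟨v, hv, hvt⟩
        obtain ⟨v', h13⟩ := hT.forth (by simp only [List.length_cons, List.length_nil]; omega)
          (by simp) v
        have e : G.Adj v t ↔ H.Adj v' t' := h13.adj_iff (a := (v, v')) (b := (t, t')) (by omega)
          (by simp) (List.mem_cons_of_mem _ ht)
        exact ⟨v', ⟨v, hv, h13⟩, e.1 hvt⟩
      · rintro ⟨v', ⟨v, hv, h13⟩, hvt⟩
        have e : G.Adj v t ↔ H.Adj v' t' := h13.adj_iff (a := (v, v')) (b := (t, t')) (by omega)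
          (by simp) (List.mem_cons_of_mem _ ht)
        exact ⟨v, hv, e.2 hvt⟩
    rw [side_adj h1 h3 h8, side_adj h9 (hfP u hu) h10, h12, hfx u hu, h7 u h3]
  refine ⟨f, hbij, ?_, ?_, ?_⟩
  · intro u hu
    rw [G.adj_comm, H.adj_comm]
    by_cases huw : u = w
    · rw [huw, hfw]
      exact hT.adj_iff (a := (w, w')) (b := (r, r')) (by omega) (by simp) (by simp)
    · exact hpt r r' (by simp) hrB u ⟨hu, huw⟩
  · intro u hu
    rw [G.adj_comm, H.adj_comm]
    by_cases huw : u = w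
    · rw [huw, hfw]
      exact hT.adj_iff (a := (w, w')) (b := (s, s')) (by omega) (by simp) (by simp)
    · exact hpt s s' (by simp) hsB u ⟨hu, huw⟩
  · intro u hu v hv
    by_cases huw : u = w
    · by_cases hvw : v = w
      · rw [huw, hvw]
        exact ⟨fun h => absurd h (G.irrefl), fun h => absurd h (H.irrefl)⟩
      · rw [huw, hfw, G.adj_comm, H.adj_comm]
        exact hpt w w' (by simp) hwB v ⟨hv, hvw⟩
    · by_cases hvw : v = w
      · rw [hvw, hfw]
        exact hpt w w' (by simp) hwB u ⟨hu, huw⟩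
      · have hu' : u ∈ C \ {w} := ⟨hu, huw⟩
        have hv' : v ∈ C \ {w} := ⟨hv, hvw⟩
        obtain ⟨h1, h2, h3, h4⟩ := hM u hu'
        obtain ⟨k1, k2, k3, k4⟩ := hM v hv'
        by_cases hMM : M u = M v
        · rw [hfx u hu', hfx v hv', hMM]
          rw [hMM] at h3
          exact (hg _ ⟨v, hv', rfl⟩).2.1 u h3 v k3
        · have hd : ∀ x, x ∈ M u → x ∉ M v := by
            intro x hx hx'
            exact hMM ((hMeq u hu' x hx).symm.trans (hMeq v hv' x hx'))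
          have hd' : ∀ x, x ∈ Img G H N r s w r' s' w' (M u) →
              x ∉ Img G H N r s w r' s' w' (M v) := by
            intro x hx hx'
            exact hMM (hP u hu' v hv' x hx hx')
          have e1 : (∃ p ∈ M u, ∃ q ∈ M v, G.Adj p q) ↔
              ∃ p ∈ Img G H N r s w r' s' w' (M u), ∃ q ∈ Img G H N r s w r' s' w' (M v),
                H.Adj p q := by
            constructor
            · rintro ⟨p, hp, q, hq, hpq⟩
              obtain ⟨p', h5⟩ := hT.forth (by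
                simp only [List.length_cons, List.length_nil]; omega) (by simp) p
              obtain ⟨q', h6⟩ := h5.forth (by
                simp only [List.length_cons, List.length_nil]; omega) (by simp) q
              have e : G.Adj p q ↔ H.Adj p' q' := h6.adj_iff (a := (p, p')) (b := (q, q'))
                (by omega) (by simp) (by simp)
              exact ⟨p', ⟨p, hp, h5⟩, q', (transfer' h6 (hsat v hv') (by simp) (by simp)
                (by simp) (by simp)).1 hq, e.1 hpq⟩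
            · rintro ⟨p', ⟨p, hp, h5⟩, q', hq', hpq⟩
              obtain ⟨q, h6⟩ := h5.back (by
                simp only [List.length_cons, List.length_nil]; omega) (by simp) q'
              have e : G.Adj p q ↔ H.Adj p' q' := h6.adj_iff (a := (p, p')) (b := (q, q'))
                (by omega) (by simp) (by simp)
              exact ⟨p, hp, q, (transfer' h6 (hsat v hv') (by simp) (by simp)
                (by simp) (by simp)).2 hq', e.2 hpq⟩
          rw [side_adj2 hsy h1 k1 hd h3 k3, side_adj2 hsy' (side_image hN hT (hsat u hu') h1)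
            (side_image hN hT (hsat v hv') k1) hd' (hfP u hu') (hfP v hv'), e1,
            hfx u hu', hfx v hv', (hg _ ⟨u, hu', rfl⟩).2.2 u h3,
            (hg _ ⟨v, hv', rfl⟩).2.2 v k3]

end

end Pool.Agent.J4.H77.CG
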